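import Pool.Agent.V8H38.RM.Defs
import Pool.Agent.V8H47.MH.Basic

/-!
# A one-head two-way deterministic pushdown automaton for the monotone circuit value problem
-/

namespace Pool.Agent.V8H38.RM

open Relation Pool.Agent.V8H47.MH

/-- pushdown symbols: go marks, return marks, frames -/
inductive Gm
  | X
  | Y
  | A (k : Bool)
  deriving DecidableEq, Fintype

/-- states -/
inductive Stt
  | init
  | find
  | ev
  | scan (k p : Bool)
  | back (k p : Bool)
  | mv
  | chk
  | ret (b : Bool)
  | lf (b : Bool)
  | pre (k b : Bool)
  | have1 (b : Bool)
  | acc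
  deriving DecidableEq, Fintype

/-- constants and gates -/
def isNode : Letter → Bool
  | .bit _ => true
  | .gate _ => true
  | _ => false

/-- the mark of a child -/
def isMark (k : Bool) : Letter → Bool
  | .fst => !k
  | .snd => k
  | _ => false

/-- the transition function -/
def tr : Stt → Sym Letter → Option Gm → Option (Stt × Dir × Op Gm)
  | .init, .left, _ => some (.find, .R, .keep)
  | .find, .letter a, _ => if isNode a then some (.ev, .S, .keep) else some (.find, .R, .keep)
  | .ev, .letter (.bit b), _ => some (.ret b, .S, .keep)
  | .ev, .letter (.gate _), _ => some (.scan false false, .R, .push (.A false))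
  | .scan k p, .letter a, _ =>
      if isNode a then some (.back k p, .L, .keep)
      else if isMark k a then some (.scan k p, .R, .push (if p then .X else .Y))
      else some (.scan k p, .R, .keep)
  | .scan k p, .right, _ => some (.back k p, .L, .keep)
  | .back k p, .letter a, _ =>
      if isNode a then (if p then some (.mv, .R, .keep) else some (.scan k true, .R, .keep))
      else some (.back k p, .L, .keep)
  | .mv, .letter a, _ => if isNode a then some (.chk, .S, .keep) else some (.mv, .R, .keep)
  | .chk, _, some .X => some (.mv, .R, .pop)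
  | .chk, _, _ => some (.ev, .S, .keep)
  | .ret b, _, none => if b then some (.acc, .S, .keep) else none
  | .ret b, _, some .Y => some (.lf b, .L, .pop)
  | .ret b, _, some (.A k) => some (.pre k b, .L, .pop)
  | .lf b, .letter a, _ => if isNode a then some (.ret b, .S, .keep) else some (.lf b, .L, .keep)
  | .pre k b, .letter a, _ =>
      if isNode a then (if k then some (.ret b, .S, .keep) else some (.have1 b, .S, .keep))
      else some (.pre k b, .L, .keep)
  | .have1 b, .letter (.gate t), _ =>
      if b = t then some (.scan true false, .R, .push (.A true)) else some (.ret b, .S, .keep)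
  | _, _, _ => none

/-- the automaton -/
def M : PDA Letter (Fin 1) Gm where
  Q := Stt
  finQ := inferInstance
  init := .init
  acc := {.acc}
  step q a g := {x | ∃ y, tr q (a 0) g = some y ∧ x = (y.1, fun _ => y.2.1, y.2.2)}

theorem M_det : M.Det := by
  rintro q a g x ⟨y, hy, rfl⟩ x' ⟨y', hy', rfl⟩
  rw [hy] at hy'
  cases hy'
  rfl

/-- a configuration -/
def cf (q : Stt) (p : ℕ) (st : List Gm) : PCfg M.Q (Fin 1) Gm := ⟨q, fun _ => p, st⟩

/-- runs -/
abbrev Run (w : List Letter) := ReflTransGen (M.Step w)

theorem step_of {w : List Letter} {q q' : Stt} {p : ℕ} {st : List Gm} {d : Dir} {o : Op Gm}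
    (h : tr q (symAt w p) st.head? = some (q', d, o)) :
    M.Step w (cf q p st) (cf q' (d.move w.length p) (o.apply st)) :=
  ⟨(q', fun _ => d, o), ⟨_, h, rfl⟩, rfl⟩

/-- a configuration without successor -/
def Stuck (w : List Letter) (c : PCfg M.Q (Fin 1) Gm) : Prop := ∀ c', ¬ M.Step w c c'

theorem stuck_of {w : List Letter} {q : Stt} {p : ℕ} {st : List Gm}
    (h : tr q (symAt w p) st.head? = none) : Stuck w (cf q p st) := by
  rintro c' ⟨t, ⟨y, hy, rfl⟩, rfl⟩
  have : tr q (symAt w p) st.head? = some y := hy
  rw [h] at this
  cases this

theorem step_unique {w : List Letter} {c c₁ c₂ : PCfg M.Q (Fin 1) Gm} (h₁ : M.Step w c c₁)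
    (h₂ : M.Step w c c₂) : c₁ = c₂ := by
  obtain ⟨t, ht, rfl⟩ := h₁
  obtain ⟨t', ht', rfl⟩ := h₂
  rw [M_det _ _ _ ht ht']

theorem stuck_unique {w : List Letter} {c c₁ c₂ : PCfg M.Q (Fin 1) Gm} (h₁ : Run w c c₁)
    (h₂ : Run w c c₂) (s₁ : Stuck w c₁) (s₂ : Stuck w c₂) : c₁ = c₂ := by
  induction h₁ using ReflTransGen.head_induction_on with
  | refl =>
    rcases h₂.cases_head with h | ⟨c', h, _⟩
    · exact h
    · exact absurd h (s₁ c')
  | head h _ ih =>
    rcases h₂.cases_head with h' | ⟨c', h', h''⟩
    · subst h'
      exact absurd h (s₂ _)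
    · rw [step_unique h' h] at h''
      exact ih h''

theorem symAt_mid (l : List Letter) (a : Letter) (r : List Letter) :
    symAt (l ++ a :: r) (l.length + 1) = Sym.letter a := by
  simp [symAt]

theorem symAt_end (w : List Letter) : symAt w (w.length + 1) = Sym.right := by
  simp [symAt]

/-- scanning to the right over marks -/
theorem run_right {q : Stt} {w : List Letter} (hq : ∀ a g, isNode a = false →
    tr q (Sym.letter a) g = some (q, Dir.R, Op.keep)) (st : List Gm) (r : List Letter) :
    ∀ (u l : List Letter), (∀ a ∈ u, isNode a = false) → w = l ++ (u ++ r) →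
      Run w (cf q (l.length + 1) st) (cf q (l.length + u.length + 1) st) := by
  intro u
  induction u with
  | nil => intro l _ _; exact ReflTransGen.refl
  | cons a u ih =>
    intro l hu hw
    have h1 := step_of (w := w) (q := q) (p := l.length + 1) (st := st) (q' := q) (d := Dir.R)
      (o := Op.keep) (by
        rw [hw, List.cons_append, symAt_mid]
        exact hq a _ (hu a (by simp)))
    have h2 := ih (l ++ [a]) (fun b hb => hu b (by simp [hb])) (by rw [hw]; simp)
    have e1 : (l ++ [a]).length + 1 = Dir.R.move w.length (l.length + 1) := by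
      have : l.length + 1 ≤ w.length := by rw [hw]; simp
      simp only [Dir.move, List.length_append, List.length_singleton]
      omega
    rw [e1] at h2
    refine (ReflTransGen.single h1).trans ?_
    have e2 : (l ++ [a]).length + u.length + 1 = l.length + (a :: u).length + 1 := by
      simp; omega
    rw [e2] at h2
    exact h2

/-- scanning to the left over marks -/
theorem run_left {q : Stt} {w : List Letter} (hq : ∀ a g, isNode a = false →
    tr q (Sym.letter a) g = some (q, Dir.L, Op.keep)) (st : List Gm) :
    ∀ (u l r : List Letter), (∀ a ∈ u, isNode a = false) → w = l ++ (u ++ r) →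
      Run w (cf q (l.length + u.length) st) (cf q l.length st) := by
  intro u
  induction u using List.reverseRecOn with
  | nil => intro l r _ _; exact ReflTransGen.refl
  | append_singleton u a ih =>
    intro l r hu hw
    have h1 := step_of (w := w) (q := q) (p := (l ++ u).length + 1) (st := st) (q' := q) (d := Dir.L)
      (o := Op.keep) (by
        rw [hw, show l ++ (u ++ [a] ++ r) = (l ++ u) ++ a :: r by simp, symAt_mid]
        exact hq a _ (hu a (by simp)))
    have h2 := ih l (a :: r) (fun b hb => hu b (by simp [hb])) (by rw [hw]; simp)
    have e0 : l.length + (u ++ [a]).length = (l ++ u).length + 1 := by simp; omega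
    rw [e0]
    refine (ReflTransGen.single h1).trans ?_
    have e1 : Dir.L.move w.length ((l ++ u).length + 1) = l.length + u.length := by
      simp [Dir.move]
    rw [e1]
    exact h2

/-- counting marks -/
theorem run_scan {k p : Bool} {w : List Letter} (r : List Letter) :
    ∀ (u l : List Letter) (st : List Gm), (∀ a ∈ u, isNode a = false) → w = l ++ (u ++ r) →
      Run w (cf (.scan k p) (l.length + 1) st) (cf (.scan k p) (l.length + u.length + 1)
        (List.replicate (u.countP (isMark k)) (if p then Gm.X else Gm.Y) ++ st)) := by
  intro u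
  induction u with
  | nil => intro l st _ _; exact ReflTransGen.refl
  | cons a u ih =>
    intro l st hu hw
    have ha : isNode a = false := hu a (by simp)
    have hlen : l.length + 1 ≤ w.length := by rw [hw]; simp
    have e1 : (l ++ [a]).length + 1 = Dir.R.move w.length (l.length + 1) := by
      simp only [Dir.move, List.length_append, List.length_singleton]
      omega
    have e2 : (l ++ [a]).length + u.length + 1 = l.length + (a :: u).length + 1 := by
      simp; omega
    by_cases hm : isMark k a = true
    · have h1 := step_of (w := w) (q := .scan k p) (p := l.length + 1) (st := st)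
        (q' := .scan k p) (d := Dir.R) (o := Op.push (if p then Gm.X else Gm.Y)) (by
          rw [hw, List.cons_append, symAt_mid]
          simp [tr, ha, hm])
      have h2 := ih (l ++ [a]) ((if p then Gm.X else Gm.Y) :: st)
        (fun b hb => hu b (by simp [hb])) (by rw [hw]; simp)
      rw [e1, e2] at h2
      refine (ReflTransGen.single h1).trans ?_
      rw [List.countP_cons_of_pos hm]
      have e3 : List.replicate (u.countP (isMark k) + 1) (if p then Gm.X else Gm.Y) ++ st =
          List.replicate (u.countP (isMark k)) (if p then Gm.X else Gm.Y) ++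
            ((if p then Gm.X else Gm.Y) :: st) := by
        rw [List.replicate_succ', List.append_assoc, List.singleton_append]
      rw [e3]
      exact h2
    · have h1 := step_of (w := w) (q := .scan k p) (p := l.length + 1) (st := st)
        (q' := .scan k p) (d := Dir.R) (o := Op.keep) (by
          rw [hw, List.cons_append, symAt_mid]
          simp [tr, ha, hm])
      have h2 := ih (l ++ [a]) st (fun b hb => hu b (by simp [hb])) (by rw [hw]; simp)
      rw [e1, e2] at h2
      refine (ReflTransGen.single h1).trans ?_
      rw [List.countP_cons_of_neg hm]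
      exact h2

/-! ### texts -/

/-- a word cut into nodes with their marks -/
def flat (ts : List (Letter × List Letter)) : List Letter := ts.flatMap fun t => t.1 :: t.2

/-- all pieces start with a node and go on with marks -/
def Good (ts : List (Letter × List Letter)) : Prop :=
  ∀ t ∈ ts, isNode t.1 = true ∧ ∀ a ∈ t.2, isNode a = false

/-- the item of a piece -/
def item : Letter × List Letter → Item
  | (.gate t, u) => .gate t (u.countP (isMark false)) (u.countP (isMark true))
  | (.bit b, _) => .bit b
  | _ => .bit false

theorem marks_append (u : List Letter) (hu : ∀ a ∈ u, isNode a = false)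
    (ts : List (Letter × List Letter)) (hts : Good ts) :
    marks (u ++ flat ts) = (u.countP (isMark false), u.countP (isMark true)) := by
  induction u with
  | nil =>
    rcases ts with _ | ⟨⟨a, v⟩, ts⟩
    · simp [flat, marks]
    · have := (hts (a, v) (by simp)).1
      cases a <;> simp_all [flat, marks, isNode]
  | cons a u ih =>
    have h1 := ih fun b hb => hu b (by simp [hb])
    have ha := hu a (by simp)
    cases a with
    | bit b => simp [isNode] at ha
    | gate t => simp [isNode] at ha
    | fst => simp [marks, h1, isMark, List.countP_cons]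
    | snd => simp [marks, h1, isMark, List.countP_cons]

theorem parse_marks (u : List Letter) (hu : ∀ a ∈ u, isNode a = false) (w : List Letter) :
    parse (u ++ w) = parse w := by
  induction u with
  | nil => rfl
  | cons a u ih =>
    have h1 := ih fun b hb => hu b (by simp [hb])
    have ha := hu a (by simp)
    cases a with
    | bit b => simp [isNode] at ha
    | gate t => simp [isNode] at ha
    | fst => simpa [parse] using h1
    | snd => simpa [parse] using h1

theorem parse_flat (ts : List (Letter × List Letter)) (hts : Good ts) :
    parse (flat ts) = ts.map item := by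
  induction ts with
  | nil => rfl
  | cons t ts ih =>
    obtain ⟨a, u⟩ := t
    have h1 := ih fun t ht => hts t (by simp [ht])
    have h2 := hts (a, u) (by simp)
    have h3 : flat ((a, u) :: ts) = a :: (u ++ flat ts) := by simp [flat]
    have h4 := marks_append u h2.2 ts fun t ht => hts t (by simp [ht])
    rw [h3]
    cases a with
    | bit b => simp [parse, parse_marks u h2.2, h1, item]
    | gate t => simp [parse, parse_marks u h2.2, h1, h4, item]
    | fst => simp [isNode] at h2
    | snd => simp [isNode] at h2

/-- every word can be cut -/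
theorem exists_cut (w : List Letter) : ∃ (u : List Letter) (ts : List (Letter × List Letter)),
    (∀ a ∈ u, isNode a = false) ∧ Good ts ∧ w = u ++ flat ts := by
  induction w with
  | nil => exact ⟨[], [], by simp, by simp [Good], rfl⟩
  | cons a w ih =>
    obtain ⟨u, ts, h1, h2, h3⟩ := ih
    by_cases ha : isNode a = true
    · refine ⟨[], (a, u) :: ts, by simp, ?_, ?_⟩
      · intro t ht
        rcases List.mem_cons.1 ht with rfl | ht
        · exact ⟨ha, h1⟩
        · exact h2 t ht
      · rw [h3]; simp [flat]
    · refine ⟨a :: u, ts, ?_, h2, ?_⟩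
      · intro b hb
        rcases List.mem_cons.1 hb with rfl | hb
        · simpa using ha
        · exact h1 b hb
      · rw [h3]; simp

section Texts

variable {u₀ : List Letter} {ts : List (Letter × List Letter)}

/-- the position of the `i`-th node -/
def P (u₀ : List Letter) (ts : List (Letter × List Letter)) (i : ℕ) : ℕ :=
  (u₀ ++ flat (ts.take i)).length + 1

theorem word_eq (i : ℕ) (hi : i < ts.length) : u₀ ++ flat ts =
    (u₀ ++ flat (ts.take i)) ++ ts[i].1 :: (ts[i].2 ++ flat (ts.drop (i + 1))) := by
  have h : flat ts = flat (ts.take i) ++ (ts[i].1 :: (ts[i].2 ++ flat (ts.drop (i + 1)))) := by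
    conv_lhs => rw [← List.take_append_drop i ts, List.drop_eq_getElem_cons hi]
    unfold flat
    rw [List.flatMap_append, List.flatMap_cons]
    rfl
  rw [h, List.append_assoc]

theorem P_succ (i : ℕ) (hi : i < ts.length) : P u₀ ts (i + 1) = P u₀ ts i + 1 + ts[i].2.length := by
  unfold P
  rw [List.take_succ_eq_append_getElem hi]
  have h : flat (ts.take i ++ [ts[i]]) = flat (ts.take i) ++ (ts[i].1 :: ts[i].2) := by
    unfold flat
    rw [List.flatMap_append, List.flatMap_cons, List.flatMap_nil, List.append_nil]
  rw [h]
  simp only [List.length_append, List.length_cons]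
  omega

theorem P_le (i : ℕ) (hi : i < ts.length) : P u₀ ts i ≤ (u₀ ++ flat ts).length := by
  rw [word_eq i hi, List.length_append]
  simp [P]

theorem P_end : P u₀ ts ts.length = (u₀ ++ flat ts).length + 1 := by
  unfold P
  rw [List.take_length]

theorem sym_P (i : ℕ) (hi : i < ts.length) : symAt (u₀ ++ flat ts) (P u₀ ts i) =
    Sym.letter ts[i].1 := by
  conv_lhs => rw [word_eq i hi]
  exact symAt_mid _ _ _

/-- moving right from a node -/
theorem run_R (hts : Good ts) {q : Stt} (hq : ∀ a g, isNode a = false →
    tr q (Sym.letter a) g = some (q, Dir.R, Op.keep)) (st : List Gm) (i : ℕ) (hi : i < ts.length) :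
    Run (u₀ ++ flat ts) (cf q (P u₀ ts i + 1) st) (cf q (P u₀ ts (i + 1)) st) := by
  have h := run_right (w := u₀ ++ flat ts) hq st (flat (ts.drop (i + 1))) ts[i].2
    ((u₀ ++ flat (ts.take i)) ++ [ts[i].1]) (hts _ (List.getElem_mem hi)).2
    (by rw [word_eq i hi]; simp)
  rw [P_succ i hi]
  have e1 : ((u₀ ++ flat (ts.take i)) ++ [ts[i].1]).length = P u₀ ts i := by
    simp only [P, List.length_append, List.length_singleton]
  rw [e1] at h
  have e2 : P u₀ ts i + ts[i].2.length + 1 = P u₀ ts i + 1 + ts[i].2.length := by omega
  rw [e2] at h
  exact h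

/-- moving left to a node -/
theorem run_L (hts : Good ts) {q : Stt} (hq : ∀ a g, isNode a = false →
    tr q (Sym.letter a) g = some (q, Dir.L, Op.keep)) (st : List Gm) (i : ℕ) (hi : i < ts.length) :
    Run (u₀ ++ flat ts) (cf q (P u₀ ts (i + 1) - 1) st) (cf q (P u₀ ts i) st) := by
  have h := run_left (w := u₀ ++ flat ts) hq st ts[i].2
    ((u₀ ++ flat (ts.take i)) ++ [ts[i].1]) (flat (ts.drop (i + 1)))
    (hts _ (List.getElem_mem hi)).2 (by rw [word_eq i hi]; simp)
  rw [P_succ i hi]
  have e1 : ((u₀ ++ flat (ts.take i)) ++ [ts[i].1]).length = P u₀ ts i := by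
    simp only [P, List.length_append, List.length_singleton]
  rw [e1] at h
  have e2 : P u₀ ts i + 1 + ts[i].2.length - 1 = P u₀ ts i + ts[i].2.length := by omega
  rw [e2]
  exact h

/-- counting from a node -/
theorem run_S (hts : Good ts) (k p : Bool) (st : List Gm) (i : ℕ) (hi : i < ts.length) :
    Run (u₀ ++ flat ts) (cf (.scan k p) (P u₀ ts i + 1) st) (cf (.scan k p) (P u₀ ts (i + 1))
      (List.replicate (ts[i].2.countP (isMark k)) (if p then Gm.X else Gm.Y) ++ st)) := by
  have h := run_scan (k := k) (p := p) (w := u₀ ++ flat ts) (flat (ts.drop (i + 1))) ts[i].2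
    ((u₀ ++ flat (ts.take i)) ++ [ts[i].1]) st (hts _ (List.getElem_mem hi)).2
    (by rw [word_eq i hi]; simp)
  rw [P_succ i hi]
  have e1 : ((u₀ ++ flat (ts.take i)) ++ [ts[i].1]).length = P u₀ ts i := by
    simp only [P, List.length_append, List.length_singleton]
  rw [e1] at h
  have e2 : P u₀ ts i + ts[i].2.length + 1 = P u₀ ts i + 1 + ts[i].2.length := by omega
  rw [e2] at h
  exact h

/-- a step at a node -/
theorem step_P {q q' : Stt} {d : Dir} {o : Op Gm} {st : List Gm} (i : ℕ) (hi : i < ts.length)
    (h : tr q (Sym.letter ts[i].1) st.head? = some (q', d, o)) :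
    M.Step (u₀ ++ flat ts) (cf q (P u₀ ts i) st)
      (cf q' (d.move (u₀ ++ flat ts).length (P u₀ ts i)) (o.apply st)) :=
  step_of (by rw [sym_P i hi]; exact h)

theorem move_R (i : ℕ) (hi : i < ts.length) :
    Dir.R.move (u₀ ++ flat ts).length (P u₀ ts i) = P u₀ ts i + 1 := by
  have := P_le (u₀ := u₀) i hi
  simp only [Dir.move]
  omega

/-- turning back after counting -/
theorem run_back (hts : Good ts) (k p : Bool) (st : List Gm) (i : ℕ) (hi : i < ts.length) :
    Run (u₀ ++ flat ts) (cf (.scan k p) (P u₀ ts (i + 1)) st)
      (cf (if p then .mv else .scan k true) (P u₀ ts i + 1) st) := by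
  have h1 : M.Step (u₀ ++ flat ts) (cf (.scan k p) (P u₀ ts (i + 1)) st)
      (cf (.back k p) (P u₀ ts (i + 1) - 1) st) := by
    have hmv : Dir.L.move (u₀ ++ flat ts).length (P u₀ ts (i + 1)) = P u₀ ts (i + 1) - 1 := rfl
    rw [← hmv]
    by_cases hi1 : i + 1 < ts.length
    · refine step_P (o := Op.keep) (i + 1) hi1 ?_
      have := (hts _ (List.getElem_mem hi1)).1
      simp [tr, this]
    · have e : i + 1 = ts.length := by omega
      have h2 := step_of (w := u₀ ++ flat ts) (q := .scan k p) (q' := .back k p)
        (p := (u₀ ++ flat ts).length + 1) (st := st) (d := Dir.L) (o := Op.keep)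
        (by rw [symAt_end]; rfl)
      rw [e, P_end]
      exact h2
  have h2 := run_L (u₀ := u₀) hts (q := .back k p) (fun a g ha => by simp [tr, ha]) st i hi
  have h3 : M.Step (u₀ ++ flat ts) (cf (.back k p) (P u₀ ts i) st)
      (cf (if p then .mv else .scan k true) (P u₀ ts i + 1) st) := by
    have := step_P (u₀ := u₀) (ts := ts) (q := .back k p) (q' := if p then .mv else .scan k true)
      (d := Dir.R) (o := Op.keep) (st := st) i hi (by
        have := (hts _ (List.getElem_mem hi)).1
        cases p <;> simp [tr, this])
    rwa [move_R i hi] at this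
  exact ((ReflTransGen.single h1).trans h2).tail h3

/-- reading a number twice -/
theorem run_read (hts : Good ts) (k : Bool) (st : List Gm) (i : ℕ) (hi : i < ts.length) :
    Run (u₀ ++ flat ts) (cf (.scan k false) (P u₀ ts i + 1) st) (cf .mv (P u₀ ts i + 1)
      (List.replicate (ts[i].2.countP (isMark k)) Gm.X ++
        (List.replicate (ts[i].2.countP (isMark k)) Gm.Y ++ st))) := by
  have h1 := run_S (u₀ := u₀) hts k false st i hi
  have h2 := run_back (u₀ := u₀) hts k false
    (List.replicate (ts[i].2.countP (isMark k)) (if false = true then Gm.X else Gm.Y) ++ st) i hi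
  have h3 := run_S (u₀ := u₀) hts k true
    (List.replicate (ts[i].2.countP (isMark k)) (if false = true then Gm.X else Gm.Y) ++ st) i hi
  have h4 := run_back (u₀ := u₀) hts k true
    (List.replicate (ts[i].2.countP (isMark k)) (if true = true then Gm.X else Gm.Y) ++
      (List.replicate (ts[i].2.countP (isMark k)) (if false = true then Gm.X else Gm.Y) ++ st)) i hi
  have := ((h1.trans h2).trans h3).trans h4
  simpa using this

/-- the outcome of a run that gets stuck -/
def Fails (w : List Letter) (c : PCfg M.Q (Fin 1) Gm) : Prop :=
  ∃ c', Run w c c' ∧ Stuck w c' ∧ c'.q ≠ Stt.acc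

theorem Fails.of_run {w : List Letter} {c c' : PCfg M.Q (Fin 1) Gm} (h : Run w c c')
    (h' : Fails w c') : Fails w c := by
  obtain ⟨c'', h1, h2, h3⟩ := h'
  exact ⟨c'', h.trans h1, h2, h3⟩

/-- going to a child -/
theorem run_go (hts : Good ts) (σ : List Gm) (hσ : σ.head? ≠ some Gm.X) (c : ℕ) :
    ∀ i, i < ts.length → i + 1 + c < ts.length →
      Run (u₀ ++ flat ts) (cf .mv (P u₀ ts i + 1) (List.replicate c Gm.X ++ σ))
        (cf .ev (P u₀ ts (i + 1 + c)) σ) := by
  induction c with
  | zero =>
    intro i hi hic
    have h1 := run_R (u₀ := u₀) hts (q := .mv) (fun a g ha => by simp [tr, ha])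
      (List.replicate 0 Gm.X ++ σ) i hi
    have hn := (hts _ (List.getElem_mem (show i + 1 < ts.length by omega))).1
    have h2 := step_P (u₀ := u₀) (ts := ts) (q := .mv) (q' := .chk) (d := Dir.S) (o := Op.keep)
      (st := List.replicate 0 Gm.X ++ σ) (i + 1) (by omega) (by simp [tr, hn])
    have h3 := step_P (u₀ := u₀) (ts := ts) (q := .chk) (q' := .ev) (d := Dir.S) (o := Op.keep)
      (st := List.replicate 0 Gm.X ++ σ) (i + 1) (by omega) (by
        simp only [List.replicate_zero, List.nil_append]
        rcases σ with _ | ⟨g, σ⟩
        · rfl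
        · cases g with
          | X => exact absurd rfl hσ
          | Y => rfl
          | A k => rfl)
    exact (h1.tail h2).tail h3
  | succ c ih =>
    intro i hi hic
    have h1 := run_R (u₀ := u₀) hts (q := .mv) (fun a g ha => by simp [tr, ha])
      (List.replicate (c + 1) Gm.X ++ σ) i hi
    have hn := (hts _ (List.getElem_mem (show i + 1 < ts.length by omega))).1
    have h2 := step_P (u₀ := u₀) (ts := ts) (q := .mv) (q' := .chk) (d := Dir.S) (o := Op.keep)
      (st := List.replicate (c + 1) Gm.X ++ σ) (i + 1) (by omega) (by simp [tr, hn])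
    have h3 := step_P (u₀ := u₀) (ts := ts) (q := .chk) (q' := .mv) (d := Dir.R) (o := Op.pop)
      (st := List.replicate (c + 1) Gm.X ++ σ) (i + 1) (by omega) (by
        simp [List.replicate_succ, tr])
    rw [move_R (i + 1) (by omega)] at h3
    have h4 := ih (i + 1) (by omega) (by omega)
    have e1 : (Op.pop : Op Gm).apply (List.replicate (c + 1) Gm.X ++ σ) =
        List.replicate c Gm.X ++ σ := by simp [Op.apply, List.replicate_succ]
    rw [e1] at h3
    have e2 : i + 1 + 1 + c = i + 1 + (c + 1) := by omega
    rw [e2] at h4
    exact ((h1.tail h2).tail h3).trans h4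

theorem fail_go (hts : Good ts) (σ : List Gm) (c : ℕ) :
    ∀ i, i < ts.length → ts.length ≤ i + 1 + c →
      Fails (u₀ ++ flat ts) (cf .mv (P u₀ ts i + 1) (List.replicate c Gm.X ++ σ)) := by
  induction c with
  | zero =>
    intro i hi hic
    have h1 := run_R (u₀ := u₀) hts (q := .mv) (fun a g ha => by simp [tr, ha])
      (List.replicate 0 Gm.X ++ σ) i hi
    have e : i + 1 = ts.length := by omega
    rw [e, P_end] at h1
    refine ⟨_, h1, stuck_of (by rw [symAt_end]; rfl), ?_⟩
    intro h
    cases h
  | succ c ih =>
    intro i hi hic
    have h1 := run_R (u₀ := u₀) hts (q := .mv) (fun a g ha => by simp [tr, ha])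
      (List.replicate (c + 1) Gm.X ++ σ) i hi
    by_cases he : i + 1 = ts.length
    · rw [he, P_end] at h1
      refine ⟨_, h1, stuck_of (by rw [symAt_end]; rfl), ?_⟩
      intro h
      cases h
    · have hn := (hts _ (List.getElem_mem (show i + 1 < ts.length by omega))).1
      have h2 := step_P (u₀ := u₀) (ts := ts) (q := .mv) (q' := .chk) (d := Dir.S) (o := Op.keep)
        (st := List.replicate (c + 1) Gm.X ++ σ) (i + 1) (by omega) (by simp [tr, hn])
      have h3 := step_P (u₀ := u₀) (ts := ts) (q := .chk) (q' := .mv) (d := Dir.R) (o := Op.pop)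
        (st := List.replicate (c + 1) Gm.X ++ σ) (i + 1) (by omega) (by
          simp [List.replicate_succ, tr])
      rw [move_R (i + 1) (by omega)] at h3
      have h4 := ih (i + 1) (by omega) (by omega)
      have e1 : (Op.pop : Op Gm).apply (List.replicate (c + 1) Gm.X ++ σ) =
          List.replicate c Gm.X ++ σ := by simp [Op.apply, List.replicate_succ]
      rw [e1] at h3
      exact h4.of_run ((h1.tail h2).tail h3)

/-- returning from a child -/
theorem run_ret (hts : Good ts) (b : Bool) (st : List Gm) (c : ℕ) :
    ∀ i, i + c < ts.length →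
      Run (u₀ ++ flat ts) (cf (.ret b) (P u₀ ts (i + c)) (List.replicate c Gm.Y ++ st))
        (cf (.ret b) (P u₀ ts i) st) := by
  induction c with
  | zero => intro i _; exact ReflTransGen.refl
  | succ c ih =>
    intro i hi
    have h1 := step_P (u₀ := u₀) (ts := ts) (q := .ret b) (q' := .lf b) (d := Dir.L) (o := Op.pop)
      (st := List.replicate (c + 1) Gm.Y ++ st) (i + (c + 1)) hi (by
        simp [List.replicate_succ, tr])
    have h2 := run_L (u₀ := u₀) hts (q := .lf b) (fun a g ha => by simp [tr, ha])
      (List.replicate c Gm.Y ++ st) (i + c) (by omega)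
    have hn := (hts _ (List.getElem_mem (show i + c < ts.length by omega))).1
    have h3 := step_P (u₀ := u₀) (ts := ts) (q := .lf b) (q' := .ret b) (d := Dir.S) (o := Op.keep)
      (st := List.replicate c Gm.Y ++ st) (i + c) (by omega) (by simp [tr, hn])
    have h4 := ih i (by omega)
    have e1 : (Op.pop : Op Gm).apply (List.replicate (c + 1) Gm.Y ++ st) =
        List.replicate c Gm.Y ++ st := by simp [Op.apply, List.replicate_succ]
    rw [e1] at h1
    exact (((ReflTransGen.single h1).trans h2).tail h3).trans h4

/-- returning to the node above -/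
theorem run_pre (hts : Good ts) (k b : Bool) (st : List Gm) (i : ℕ) (hi : i + 1 < ts.length) :
    Run (u₀ ++ flat ts) (cf (.ret b) (P u₀ ts (i + 1)) (Gm.A k :: st))
      (cf (if k then .ret b else .have1 b) (P u₀ ts i) st) := by
  have h1 := step_P (u₀ := u₀) (ts := ts) (q := .ret b) (q' := .pre k b) (d := Dir.L) (o := Op.pop)
    (st := Gm.A k :: st) (i + 1) hi (by simp [tr])
  have h2 := run_L (u₀ := u₀) hts (q := .pre k b) (fun a g ha => by simp [tr, ha]) st i (by omega)
  have hn := (hts _ (List.getElem_mem (show i < ts.length by omega))).1
  have h3 := step_P (u₀ := u₀) (ts := ts) (q := .pre k b) (q' := if k then .ret b else .have1 b)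
    (d := Dir.S) (o := Op.keep) (st := st) i (by omega) (by cases k <;> simp [tr, hn])
  exact ((ReflTransGen.single h1).trans h2).tail h3

end Texts

theorem values_drop (C : List Item) (d : ℕ) : values (C.drop d) = (values C).drop d := by
  induction C generalizing d with
  | nil => simp [values]
  | cons a C ih =>
    cases d with
    | zero => rfl
    | succ d =>
      rw [List.drop_succ_cons, ih]
      cases a <;> simp [values]

theorem values_length (C : List Item) : (values C).length = C.length := by
  induction C with
  | nil => rfl
  | cons a C ih => cases a <;> simp [values, ih]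

/-- the value of node `i` -/
def vl (C : List Item) (i : ℕ) : Option Bool := (values C)[i]?.join

theorem vl_gate {C : List Item} {i : ℕ} {t : Bool} {d e : ℕ} (h : C[i]? = some (.gate t d e)) :
    vl C i = (vl C (i + 1 + d)).bind fun b => if b = t then vl C (i + 1 + e) else some b := by
  obtain ⟨hi, hg⟩ := List.getElem?_eq_some_iff.1 h
  have h1 : (values C)[i]? = (values (C.drop i))[0]? := by
    rw [values_drop, List.getElem?_drop, Nat.add_zero]
  have h2 : ∀ j, (values (C.drop (i + 1)))[j]? = (values C)[i + 1 + j]? := by
    intro j
    rw [values_drop, List.getElem?_drop]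
  unfold vl
  rw [h1, List.drop_eq_getElem_cons hi, hg, values, List.getElem?_cons_zero, h2, h2]
  rfl

theorem vl_bit {C : List Item} {i : ℕ} {b : Bool} (h : C[i]? = some (.bit b)) :
    vl C i = some b := by
  obtain ⟨hi, hg⟩ := List.getElem?_eq_some_iff.1 h
  have h1 : (values C)[i]? = (values (C.drop i))[0]? := by
    rw [values_drop, List.getElem?_drop, Nat.add_zero]
  unfold vl
  rw [h1, List.drop_eq_getElem_cons hi, hg, values, List.getElem?_cons_zero]
  rfl

theorem vl_none {C : List Item} {i : ℕ} (h : C.length ≤ i) : vl C i = none := by
  unfold vl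
  rw [List.getElem?_eq_none (by rw [values_length]; exact h)]
  rfl

/-- **The evaluation.** -/
theorem evaluate {u₀ : List Letter} {ts : List (Letter × List Letter)} (hts : Good ts) :
    ∀ (r i : ℕ), ts.length ≤ i + r → i < ts.length → ∀ st : List Gm,
      (∀ b, vl (ts.map item) i = some b →
        Run (u₀ ++ flat ts) (cf .ev (P u₀ ts i) st) (cf (.ret b) (P u₀ ts i) st)) ∧
      (vl (ts.map item) i = none → Fails (u₀ ++ flat ts) (cf .ev (P u₀ ts i) st)) := by
  intro r
  induction r with
  | zero => intro i h1 h2; omega
  | succ r ih =>
    intro i hr hi st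
    have hnode := (hts _ (List.getElem_mem hi)).1
    obtain ⟨a, u, hau⟩ : ∃ a u, ts[i] = (a, u) := ⟨_, _, rfl⟩
    have hitem : (ts.map item)[i]? = some (item (a, u)) := by
      rw [List.getElem?_map, List.getElem?_eq_getElem hi, hau]; rfl
    rw [hau] at hnode
    cases a with
    | fst => simp [isNode] at hnode
    | snd => simp [isNode] at hnode
    | bit b =>
      have h1 := vl_bit hitem
      have h2 := step_P (u₀ := u₀) (ts := ts) (q := .ev) (q' := .ret b) (d := Dir.S) (o := Op.keep)
        (st := st) i hi (by rw [hau]; rfl)
      constructor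
      · intro b' hb'
        rw [h1, Option.some.injEq] at hb'
        subst hb'
        exact ReflTransGen.single h2
      · intro h
        rw [h1] at h
        cases h
    | gate t =>
      set d := u.countP (isMark false) with hd
      set e := u.countP (isMark true) with he
      have h1 : vl (ts.map item) i = (vl (ts.map item) (i + 1 + d)).bind fun b =>
          if b = t then vl (ts.map item) (i + 1 + e) else some b := vl_gate hitem
      -- evaluate the first child
      have s1 := step_P (u₀ := u₀) (ts := ts) (q := .ev) (q' := .scan false false) (d := Dir.R)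
        (o := Op.push (.A false)) (st := st) i hi (by rw [hau]; rfl)
      rw [move_R i hi] at s1
      have s2 := run_read (u₀ := u₀) hts false (Gm.A false :: st) i hi
      have e2 : ts[i].2 = u := by rw [hau]
      rw [e2, ← hd] at s2
      have S := (ReflTransGen.single s1).trans s2
      by_cases hlen : i + 1 + d < ts.length
      · have s3 := run_go (u₀ := u₀) hts (List.replicate d Gm.Y ++ Gm.A false :: st)
          (by cases d <;> simp [List.replicate_succ]) d i hi hlen
        have S3 := S.trans s3
        obtain ⟨ih1, ih2⟩ := ih (i + 1 + d) (by omega) hlen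
          (List.replicate d Gm.Y ++ Gm.A false :: st)
        cases hv : vl (ts.map item) (i + 1 + d) with
        | none =>
          rw [hv, Option.bind_none] at h1
          constructor
          · intro b hb; rw [h1] at hb; cases hb
          · intro _; exact (ih2 hv).of_run S3
        | some b₁ =>
          rw [hv, Option.bind_some] at h1
          have s4 := ih1 b₁ hv
          have s5 := run_ret (u₀ := u₀) hts b₁ (Gm.A false :: st) d (i + 1) hlen
          have s6 := run_pre (u₀ := u₀) hts false b₁ st i (by omega)
          have S6 := ((S3.trans s4).trans s5).trans s6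
          simp only [Bool.false_eq_true, if_false] at S6
          by_cases hb : b₁ = t
          · rw [if_pos hb] at h1
            have s7 := step_P (u₀ := u₀) (ts := ts) (q := .have1 b₁) (q' := .scan true false) (d := Dir.R)
              (o := Op.push (.A true)) (st := st) i hi (by rw [hau]; simp [tr, hb])
            rw [move_R i hi] at s7
            have s8 := run_read (u₀ := u₀) hts true (Gm.A true :: st) i hi
            rw [e2, ← he] at s8
            have S8 := (S6.tail s7).trans s8
            by_cases hlen2 : i + 1 + e < ts.length
            · have s9 := run_go (u₀ := u₀) hts (List.replicate e Gm.Y ++ Gm.A true :: st)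
                (by cases e <;> simp [List.replicate_succ]) e i hi hlen2
              have S9 := S8.trans s9
              obtain ⟨ih3, ih4⟩ := ih (i + 1 + e) (by omega) hlen2
                (List.replicate e Gm.Y ++ Gm.A true :: st)
              constructor
              · intro b₂ hb₂
                rw [h1] at hb₂
                have s10 := ih3 b₂ hb₂
                have s11 := run_ret (u₀ := u₀) hts b₂ (Gm.A true :: st) e (i + 1) hlen2
                have s12 := run_pre (u₀ := u₀) hts true b₂ st i (by omega)
                have S12 := ((S9.trans s10).trans s11).trans s12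
                simpa using S12
              · intro hn
                rw [h1] at hn
                exact (ih4 hn).of_run S9
            · constructor
              · intro b₂ hb₂
                rw [h1, vl_none (by simp; omega)] at hb₂
                cases hb₂
              · intro _
                exact (fail_go (u₀ := u₀) hts _ e i hi (by omega)).of_run S8
          · rw [if_neg hb] at h1
            have s7 := step_P (u₀ := u₀) (ts := ts) (q := .have1 b₁) (q' := .ret b₁) (d := Dir.S)
              (o := Op.keep) (st := st) i hi (by rw [hau]; simp [tr, hb])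
            constructor
            · intro b' hb'
              rw [h1, Option.some.injEq] at hb'
              subst hb'
              exact S6.tail s7
            · intro h; rw [h1] at h; cases h
      · rw [vl_none (i := i + 1 + d) (by simp; omega), Option.bind_none] at h1
        constructor
        · intro b hb; rw [h1] at hb; cases hb
        · intro _
          exact (fail_go (u₀ := u₀) hts _ d i hi (by omega)).of_run S

/-- the start of the computation -/
theorem run_start {u₀ : List Letter} (hu : ∀ a ∈ u₀, isNode a = false) (w : List Letter) :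
    Run (u₀ ++ w) M.start (cf .find (u₀.length + 1) []) := by
  have h1 := step_of (w := u₀ ++ w) (q := .init) (q' := .find) (p := 0) (st := []) (d := Dir.R)
    (o := Op.keep) rfl
  have e1 : Dir.R.move (u₀ ++ w).length 0 = ([] : List Letter).length + 1 := by
    simp [Dir.move]
  rw [e1] at h1
  have h2 := run_right (w := u₀ ++ w) (q := .find) (fun a g ha => by simp [tr, ha]) [] w u₀ [] hu
    (by simp)
  have h3 := (ReflTransGen.single h1).trans h2
  have e2 : ([] : List Letter).length + u₀.length + 1 = u₀.length + 1 := by simp
  rw [e2] at h3
  exact h3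

theorem M_lang : M.lang = MCV := by
  ext w
  obtain ⟨u₀, ts, hu, hts, rfl⟩ := exists_cut w
  rw [PDA.mem_lang]
  have hval : (values (parse (u₀ ++ flat ts))).head? = some (some true) ↔
      vl (ts.map item) 0 = some true := by
    rw [parse_marks u₀ hu, parse_flat ts hts]
    unfold vl
    rw [← List.head?_eq_getElem?]
    cases (values (ts.map item)).head? with
    | none => simp
    | some o => simp
  change _ ↔ (values (parse (u₀ ++ flat ts))).head? = some (some true)
  rw [hval]
  have hstart := run_start hu (flat ts)
  -- the outcome
  have hout : (vl (ts.map item) 0 = some true → ∃ c, Run (u₀ ++ flat ts) M.start c ∧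
      c.q = Stt.acc) ∧ (vl (ts.map item) 0 ≠ some true → Fails (u₀ ++ flat ts) M.start) := by
    rcases Nat.eq_zero_or_pos ts.length with h0 | hpos
    · have hnil : ts = [] := List.eq_nil_of_length_eq_zero h0
      subst hnil
      constructor
      · intro h; cases h
      · intro _
        refine ⟨_, hstart, stuck_of ?_, ?_⟩
        · have : symAt (u₀ ++ flat []) (u₀.length + 1) = Sym.right := by
            have := symAt_end (u₀ ++ flat [])
            simpa [flat] using this
          rw [this]; rfl
        · intro h; cases h
    · have hn := (hts _ (List.getElem_mem hpos)).1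
      have s1 := step_P (u₀ := u₀) (ts := ts) (q := .find) (q' := .ev) (d := Dir.S) (o := Op.keep)
        (st := []) 0 hpos (by simp [tr, hn])
      have e0 : P u₀ ts 0 = u₀.length + 1 := by simp [P, flat]
      rw [e0] at s1
      have S1 := hstart.tail s1
      obtain ⟨h1, h2⟩ := evaluate (u₀ := u₀) hts ts.length 0 (by omega) hpos []
      rw [e0] at h1 h2
      constructor
      · intro h
        refine ⟨_, (S1.trans (h1 true h)).tail (step_of (q' := .acc) (d := Dir.S) (o := Op.keep)
          (by simp [tr])), rfl⟩
      · intro h
        cases hv : vl (ts.map item) 0 with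
        | none => exact (h2 hv).of_run S1
        | some b =>
          cases b with
          | true => exact absurd hv h
          | false =>
            refine ⟨_, S1.trans (h1 false hv), stuck_of (by simp [tr]), ?_⟩
            intro h; cases h
  constructor
  · rintro ⟨c, hc, hacc⟩
    by_contra hne
    obtain ⟨c', h1, h2, h3⟩ := hout.2 hne
    have hst : Stuck (u₀ ++ flat ts) c := by
      obtain ⟨q, p, st⟩ := c
      have hq : q = Stt.acc := hacc
      subst hq
      rintro c'' ⟨t, ⟨y, hy, rfl⟩, rfl⟩
      simp only at hy
      unfold tr at hy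
      cases hy
    have := stuck_unique hc h1 hst h2
    rw [this] at hacc
    exact h3 hacc
  · intro h
    obtain ⟨c, h1, h2⟩ := hout.1 h
    exact ⟨c, h1, h2⟩

/-- the monotone circuit value problem is in 2-DPDA -/
theorem MCV_mem : MCV ∈ twoDPDA 1 Letter := ⟨Gm, inferInstance, M, M_det, M_lang⟩

end Pool.Agent.V8H38.RM
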