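import Pool.Agent.V8H38.RM.Lift

/-!
# Threshold functions of monotone functions, and boosting
-/

namespace Pool.Agent.V8H38.RM

open Finset Function

variable {ι : Type}

theorem MDep.mono {d d' : ℕ} {f : (ι → Bool) → Bool} (h : MDep d f) (hd : d ≤ d') : MDep d' f := by
  induction h generalizing d' with
  | var d i => exact MDep.var d' i
  | const d b => exact MDep.const d' b
  | @and d f g _ _ ih1 ih2 =>
    obtain ⟨e, rfl⟩ : ∃ e, d' = e + 1 := ⟨d' - 1, by omega⟩
    exact MDep.and (ih1 (by omega)) (ih2 (by omega))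
  | @or d f g _ _ ih1 ih2 =>
    obtain ⟨e, rfl⟩ : ∃ e, d' = e + 1 := ⟨d' - 1, by omega⟩
    exact MDep.or (ih1 (by omega)) (ih2 (by omega))

theorem MDep.monotone {d : ℕ} {f : (ι → Bool) → Bool} (h : MDep d f) {x y : ι → Bool}
    (hxy : ∀ i, x i = true → y i = true) : f x = true → f y = true := by
  induction h with
  | var d i => exact hxy i
  | const d b => exact id
  | @and d f g _ _ ih1 ih2 =>
    simp only [Bool.and_eq_true]
    exact fun h => ⟨ih1 h.1, ih2 h.2⟩
  | @or d f g _ _ ih1 ih2 =>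
    simp only [Bool.or_eq_true]
    exact fun h => h.imp ih1 ih2

/-- substitution of variables and constants -/
theorem MDep.subst {κ : Type} {d : ℕ} {f : (ι → Bool) → Bool} (h : MDep d f) (τ : ι → κ ⊕ Bool) :
    MDep d (fun x : κ → Bool => f fun i => Sum.elim x id (τ i)) := by
  induction h with
  | var d i =>
    cases hi : τ i with
    | inl j =>
      have : (fun x : κ → Bool => Sum.elim x id (τ i)) = fun x => x j := by
        funext x; rw [hi]; rfl
      rw [this]
      exact MDep.var d j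
    | inr b =>
      have : (fun x : κ → Bool => Sum.elim x id (τ i)) = fun _ => b := by
        funext x; rw [hi]; rfl
      rw [this]
      exact MDep.const d b
  | const d b => exact MDep.const d b
  | and _ _ ih1 ih2 => exact MDep.and ih1 ih2
  | or _ _ ih1 ih2 => exact MDep.or ih1 ih2

/-- the OR of at most `2 ^ s` functions -/
theorem MDep.bigOr {D : ℕ} (s : ℕ) : ∀ (F : ℕ → (ι → Bool) → Bool), (∀ i < 2 ^ s, MDep D (F i)) →
    MDep (D + s) (fun x => decide (∃ i < 2 ^ s, F i x = true)) := by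
  induction s with
  | zero =>
    intro F hF
    have : (fun x => decide (∃ i < 2 ^ 0, F i x = true)) = F 0 := by
      funext x
      by_cases h : F 0 x = true
      · rw [h]; simp [h]
      · rw [Bool.not_eq_true] at h
        rw [h]; simp [h]
    rw [this]
    exact hF 0 (by norm_num)
  | succ s ih =>
    intro F hF
    have h1 := ih F fun i hi => hF i (by rw [pow_succ]; omega)
    have h2 := ih (fun i => F (2 ^ s + i)) fun i hi => hF (2 ^ s + i) (by rw [pow_succ]; omega)
    have h3 := MDep.or h1 h2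
    have : (fun x => decide (∃ i < 2 ^ (s + 1), F i x = true)) = fun x =>
        decide (∃ i < 2 ^ s, F i x = true) || decide (∃ i < 2 ^ s, F (2 ^ s + i) x = true) := by
      funext x
      rw [← Bool.decide_or]
      congr 1
      apply propext
      constructor
      · rintro ⟨i, hi, hx⟩
        by_cases his : i < 2 ^ s
        · exact Or.inl ⟨i, his, hx⟩
        · refine Or.inr ⟨i - 2 ^ s, by rw [pow_succ] at hi; omega, ?_⟩
          rwa [show 2 ^ s + (i - 2 ^ s) = i by omega]
      · rintro (⟨i, hi, hx⟩ | ⟨i, hi, hx⟩)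
        · exact ⟨i, by rw [pow_succ]; omega, hx⟩
        · exact ⟨2 ^ s + i, by rw [pow_succ]; omega, hx⟩
    rw [this]
    exact h3

/-- threshold functions of `2 ^ s` functions -/
theorem MDep.thr {D : ℕ} (s : ℕ) : ∀ (F : ℕ → (ι → Bool) → Bool) (k : ℕ), (∀ i, MDep D (F i)) →
    MDep (D + (s + 1) ^ 2) (fun x => decide (k ≤ ∑ i ∈ range (2 ^ s), (F i x).toNat)) := by
  induction s with
  | zero =>
    intro F k hF
    simp only [pow_zero, Finset.sum_range_one]
    rcases Nat.lt_trichotomy k 1 with hk | hk | hk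
    · have : (fun x => decide (k ≤ (F 0 x).toNat)) = fun _ => true := by
        funext x; simp; omega
      rw [this]
      exact MDep.const _ _
    · subst hk
      have : (fun x => decide (1 ≤ (F 0 x).toNat)) = F 0 := by
        funext x
        cases F 0 x <;> simp
      rw [this]
      exact (hF 0).mono (by omega)
    · have : (fun x => decide (k ≤ (F 0 x).toNat)) = fun _ => false := by
        funext x
        have := Bool.toNat_le (F 0 x)
        simp; omega
      rw [this]
      exact MDep.const _ _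
  | succ s ih =>
    intro F k hF
    have h1 : ∀ j < 2 ^ (s + 1), MDep (D + (s + 1) ^ 2 + 1) (fun x =>
        decide (j ≤ ∑ i ∈ range (2 ^ s), (F i x).toNat) &&
          decide (k - j ≤ ∑ i ∈ range (2 ^ s), (F (2 ^ s + i) x).toNat)) := fun j _ =>
      MDep.and (ih F j hF) (ih (fun i => F (2 ^ s + i)) (k - j) fun i => hF _)
    have h2 := MDep.bigOr (s + 1) _ h1
    have h3 : D + (s + 1) ^ 2 + 1 + (s + 1) ≤ D + (s + 1 + 1) ^ 2 := by nlinarith
    have h4 := h2.mono h3
    have : (fun x => decide (k ≤ ∑ i ∈ range (2 ^ (s + 1)), (F i x).toNat)) = fun x =>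
        decide (∃ j < 2 ^ (s + 1), (decide (j ≤ ∑ i ∈ range (2 ^ s), (F i x).toNat) &&
          decide (k - j ≤ ∑ i ∈ range (2 ^ s), (F (2 ^ s + i) x).toNat)) = true) := by
      funext x
      congr 1
      apply propext
      rw [pow_succ, mul_two, Finset.sum_range_add]
      have hA : ∑ i ∈ range (2 ^ s), (F i x).toNat ≤ 2 ^ s := by
        calc _ ≤ ∑ i ∈ range (2 ^ s), 1 := Finset.sum_le_sum fun i _ => Bool.toNat_le _
          _ = 2 ^ s := by simp
      have hpos : 0 < 2 ^ s := by positivity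
      generalize ∑ i ∈ range (2 ^ s), (F i x).toNat = a at hA
      generalize ∑ i ∈ range (2 ^ s), (F (2 ^ s + i) x).toNat = b
      simp only [Bool.and_eq_true, decide_eq_true_eq]
      constructor
      · intro h
        exact ⟨a, by omega, le_refl _, by omega⟩
      · rintro ⟨j, _, h5, h6⟩
        omega
    rw [this]
    exact h4

/-- the gain of a function on a pair of instances -/
def gain (f : (ι → Bool) → Bool) (u v : ι → Bool) : ℤ := (f u).toNat - (f v).toNat

theorem gain_cases (f : (ι → Bool) → Bool) (u v : ι → Bool) :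
    gain f u v = 1 ∨ gain f u v = 0 ∨ gain f u v = -1 := by
  unfold gain
  cases f u <;> cases f v <;> simp

/-- **Boosting.** If no monotone function of depth `d` separates the yes-instances from the
no-instances, then there is a probability distribution on pairs of instances such that the average
gain of every monotone function of smaller depth is small. -/
theorem boost {X Y : Type} [Fintype X] [Fintype Y] [Nonempty X] [Nonempty Y]
    (u : X → ι → Bool) (v : Y → ι → Bool) {d d' s k r : ℕ} (hr : 0 < r)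
    (hk : Fintype.card X * Fintype.card Y < 2 ^ k) (hs : 4 * r ^ 2 * k ≤ 2 ^ s)
    (hd : d' + (s + 1) ^ 2 ≤ d)
    (hard : ∀ f, MDep d f → (∀ x, f (u x) = true) → ∃ y, f (v y) = true) :
    ∃ w : X × Y → ℝ, (∀ z, 0 ≤ w z) ∧ ∑ z, w z = 1 ∧
      ∀ f, MDep d' f → ∑ z : X × Y, w z * (gain f (u z.1) (v z.2) : ℝ) ≤ 1 / r := by
  classical
  by_contra hcon
  push Not at hcon
  -- a function for every positive weight
  have hch : ∀ w : X × Y → ℝ, ∃ f, MDep d' f ∧ ((∀ z, 0 < w z) →
      (∑ z, w z) * (1 / r) ≤ ∑ z : X × Y, w z * (gain f (u z.1) (v z.2) : ℝ)) := by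
    intro w
    by_cases hw : ∀ z, 0 < w z
    · have hW : 0 < ∑ z, w z := Finset.sum_pos (fun z _ => hw z) Finset.univ_nonempty
      obtain ⟨f, hf, hlt⟩ := hcon (fun z => w z / ∑ z, w z)
        (fun z => div_nonneg (hw z).le hW.le) (by
          rw [← Finset.sum_div, div_self hW.ne'])
      refine ⟨f, hf, fun _ => ?_⟩
      have e : ∑ z : X × Y, w z / (∑ z, w z) * (gain f (u z.1) (v z.2) : ℝ) =
          (∑ z : X × Y, w z * (gain f (u z.1) (v z.2) : ℝ)) / ∑ z, w z := by
        rw [Finset.sum_div]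
        exact Finset.sum_congr rfl fun z _ => by ring
      rw [e, lt_div_iff₀ hW] at hlt
      linarith
    · exact ⟨fun _ => true, MDep.const _ _, fun h => absurd h hw⟩
  choose F hF1 hF2 using hch
  set η : ℝ := 1 / (2 * r) with hη
  have hr1 : (1:ℝ) ≤ r := by exact_mod_cast hr
  have hη0 : 0 < η := by positivity
  have hη1 : η ≤ 1 / 2 := by
    rw [hη]
    refine one_div_le_one_div_of_le (by norm_num) (by linarith)
  -- the weights
  let W : ℕ → (X × Y → ℝ) := fun t => Nat.rec (fun _ => (1:ℝ))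
    (fun _ w z => w z * (1 - η * (gain (F w) (u z.1) (v z.2) : ℝ))) t
  have hW0 : W 0 = fun _ => 1 := rfl
  have hWs : ∀ t z, W (t + 1) z = W t z * (1 - η * (gain (F (W t)) (u z.1) (v z.2) : ℝ)) :=
    fun t z => rfl
  have hfac : ∀ f z, (0:ℝ) < 1 - η * (gain f (u (z : X × Y).1) (v z.2) : ℝ) := by
    intro f z
    rcases gain_cases f (u z.1) (v z.2) with h | h | h <;> rw [h] <;> push_cast <;> linarith
  have hWpos : ∀ t z, 0 < W t z := by
    intro t
    induction t with
    | zero => intro z; rw [hW0]; norm_num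
    | succ t ih =>
      intro z
      rw [hWs]
      exact mul_pos (ih z) (hfac _ z)
  have hWsum : ∀ t, ∑ z, W t z ≤ (Fintype.card X * Fintype.card Y : ℝ) * (1 - 2 * η ^ 2) ^ t := by
    intro t
    induction t with
    | zero =>
      rw [hW0]
      simp
    | succ t ih =>
      have h1 := hF2 (W t) (hWpos t)
      have h2 : ∑ z, W (t + 1) z = ∑ z, W t z -
          η * ∑ z : X × Y, W t z * (gain (F (W t)) (u z.1) (v z.2) : ℝ) := by
        rw [Finset.mul_sum, ← Finset.sum_sub_distrib]
        refine Finset.sum_congr rfl fun z _ => ?_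
        rw [hWs]; ring
      have h3 : η * (1 / r) = 2 * η ^ 2 := by
        rw [hη]; field_simp
      have h4 : (0:ℝ) ≤ 1 - 2 * η ^ 2 := by nlinarith
      calc ∑ z, W (t + 1) z ≤ ∑ z, W t z - η * ((∑ z, W t z) * (1 / r)) := by
            rw [h2]
            have := mul_le_mul_of_nonneg_left h1 hη0.le
            linarith
        _ = (∑ z, W t z) * (1 - 2 * η ^ 2) := by
            rw [← h3]; ring
        _ ≤ ((Fintype.card X * Fintype.card Y : ℝ) * (1 - 2 * η ^ 2) ^ t) * (1 - 2 * η ^ 2) :=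
            mul_le_mul_of_nonneg_right ih h4
        _ = _ := by ring
  have hWlow : ∀ t z, (1 - η ^ 2) ^ t * (1 + η) ^ (-∑ i ∈ range t,
      gain (F (W i)) (u (z : X × Y).1) (v z.2)) ≤ W t z := by
    intro t z
    induction t with
    | zero => rw [hW0]; simp
    | succ t ih =>
      rw [hWs, Finset.sum_range_succ]
      have hpos : (0:ℝ) < 1 + η := by linarith
      have hstep : (1 - η ^ 2) * (1 + η) ^ (-gain (F (W t)) (u z.1) (v z.2)) ≤
          1 - η * (gain (F (W t)) (u z.1) (v z.2) : ℝ) := by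
        rcases gain_cases (F (W t)) (u z.1) (v z.2) with h | h | h <;> rw [h]
        · rw [zpow_neg_one]
          have : (1 - η ^ 2) * (1 + η)⁻¹ = 1 - η := by
            rw [← div_eq_mul_inv, div_eq_iff hpos.ne']
            ring
          rw [this]
          push_cast
          linarith
        · simp
          positivity
        · rw [neg_neg, zpow_one]
          push_cast
          nlinarith [mul_pos hη0 hη0]
      rw [neg_add, zpow_add₀ hpos.ne', pow_succ]
      calc (1 - η ^ 2) ^ t * (1 - η ^ 2) * ((1 + η) ^ (-∑ i ∈ range t,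
            gain (F (W i)) (u z.1) (v z.2)) * (1 + η) ^ (-gain (F (W t)) (u z.1) (v z.2)))
          = ((1 - η ^ 2) ^ t * (1 + η) ^ (-∑ i ∈ range t, gain (F (W i)) (u z.1) (v z.2))) *
            ((1 - η ^ 2) * (1 + η) ^ (-gain (F (W t)) (u z.1) (v z.2))) := by ring
        _ ≤ W t z * (1 - η * (gain (F (W t)) (u z.1) (v z.2) : ℝ)) := by
            refine mul_le_mul ih hstep ?_ (hWpos t z).le
            have : 0 ≤ 1 - η ^ 2 := by nlinarith
            positivity
  -- all sums are positive
  have hpos : ∀ z : X × Y, 0 < ∑ i ∈ range (2 ^ s), gain (F (W i)) (u z.1) (v z.2) := by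
    intro z
    by_contra hle
    push Not at hle
    have h1 := hWlow (2 ^ s) z
    have h2 : (1:ℝ) ≤ (1 + η) ^ (-∑ i ∈ range (2 ^ s), gain (F (W i)) (u z.1) (v z.2)) := by
      refine one_le_zpow₀ (by linarith) (by linarith)
    have h3 : (0:ℝ) ≤ 1 - η ^ 2 := by nlinarith
    have h4 : (1 - η ^ 2) ^ (2 ^ s) ≤ W (2 ^ s) z := by
      refine le_trans ?_ h1
      exact le_mul_of_one_le_right (pow_nonneg h3 _) h2
    have h5 : W (2 ^ s) z ≤ ∑ z, W (2 ^ s) z :=
      Finset.single_le_sum (fun z _ => (hWpos _ z).le) (Finset.mem_univ z)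
    have h6 : (1 - 2 * η ^ 2) ≤ (1 - η ^ 2) ^ 2 := by nlinarith [sq_nonneg (η ^ 2)]
    have h7 : (1 - η ^ 2) ^ (2 ^ s) ≤ (Fintype.card X * Fintype.card Y : ℝ) *
        ((1 - η ^ 2) ^ (2 ^ s) * (1 - η ^ 2) ^ (2 ^ s)) := by
      refine (h4.trans (h5.trans (hWsum _))).trans (mul_le_mul_of_nonneg_left ?_ (by positivity))
      calc (1 - 2 * η ^ 2) ^ (2 ^ s) ≤ ((1 - η ^ 2) ^ 2) ^ (2 ^ s) :=
            pow_le_pow_left₀ (by nlinarith) h6 _
        _ = (1 - η ^ 2) ^ (2 ^ s) * (1 - η ^ 2) ^ (2 ^ s) := by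
            rw [← pow_mul, ← pow_add]; congr 1; ring
    have h8 : (0:ℝ) < (1 - η ^ 2) ^ (2 ^ s) := pow_pos (by nlinarith) _
    have h9 : (1:ℝ) ≤ (Fintype.card X * Fintype.card Y : ℝ) * (1 - η ^ 2) ^ (2 ^ s) := by
      by_contra hlt
      push Not at hlt
      nlinarith [mul_lt_mul_of_pos_right hlt h8]
    have h10 : (1 - η ^ 2) ^ (4 * r ^ 2) ≤ 1 / 2 := by
      have e1 : (1:ℝ) + (4 * r ^ 2 : ℕ) * η ^ 2 ≤ (1 + η ^ 2) ^ (4 * r ^ 2) :=
        one_add_mul_le_pow (by nlinarith [sq_nonneg η]) _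
      have e2 : ((4 * r ^ 2 : ℕ) : ℝ) * η ^ 2 = 1 := by
        rw [hη]; push_cast; field_simp; norm_num
      rw [e2] at e1
      have e3 : (1 - η ^ 2) ^ (4 * r ^ 2) * (1 + η ^ 2) ^ (4 * r ^ 2) ≤ 1 := by
        rw [← mul_pow]
        refine pow_le_one₀ (by nlinarith [sq_nonneg η]) (by nlinarith [sq_nonneg (η ^ 2)])
      have e4 : 0 ≤ (1 - η ^ 2) ^ (4 * r ^ 2) := pow_nonneg h3 _
      nlinarith [mul_le_mul_of_nonneg_left e1 e4]
    have h11 : (1 - η ^ 2) ^ (2 ^ s) ≤ (1 / 2 : ℝ) ^ k := by
      calc (1 - η ^ 2) ^ (2 ^ s) ≤ (1 - η ^ 2) ^ (4 * r ^ 2 * k) :=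
            pow_le_pow_of_le_one h3 (by nlinarith [sq_nonneg η]) hs
        _ = ((1 - η ^ 2) ^ (4 * r ^ 2)) ^ k := by rw [pow_mul]
        _ ≤ (1 / 2 : ℝ) ^ k := pow_le_pow_left₀ (pow_nonneg h3 _) h10 _
    have h12 : (Fintype.card X * Fintype.card Y : ℝ) < 2 ^ k := by exact_mod_cast hk
    have h13 : (1:ℝ) ≤ (Fintype.card X * Fintype.card Y : ℝ) * (1 / 2 : ℝ) ^ k :=
      h9.trans (mul_le_mul_of_nonneg_left h11 (by positivity))
    rw [one_div_pow] at h13
    have h14 : (Fintype.card X * Fintype.card Y : ℝ) * (1 / 2 ^ k) < 1 := by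
      rw [mul_one_div, div_lt_one (by positivity)]
      exact h12
    linarith
  -- the threshold function separates
  obtain ⟨x₀, -, hx₀⟩ := Finset.exists_min_image (univ : Finset X)
    (fun x => ∑ i ∈ range (2 ^ s), (F (W i) (u x)).toNat) Finset.univ_nonempty
  set θ := ∑ i ∈ range (2 ^ s), (F (W i) (u x₀)).toNat with hθ
  obtain ⟨y, hy⟩ := hard _ ((MDep.thr s (fun i => F (W i)) θ fun i => hF1 _).mono hd) (by
    intro x
    simp only [decide_eq_true_eq]
    exact hx₀ x (Finset.mem_univ x))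
  simp only [decide_eq_true_eq] at hy
  have h1 := hpos (x₀, y)
  have h2 : ∑ i ∈ range (2 ^ s), gain (F (W i)) (u x₀) (v y) =
      (θ : ℤ) - ((∑ i ∈ range (2 ^ s), (F (W i) (v y)).toNat : ℕ) : ℤ) := by
    unfold gain
    rw [Finset.sum_sub_distrib, hθ]
    push_cast
    rfl
  simp only at h1
  rw [h2] at h1
  omega

end Pool.Agent.V8H38.RM
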