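import Pool.Agent.V8H38.RM.Defs
import Pool.Agent.V8H38.RM.Boost
import Pool.Agent.V8H38.NL.Layers

/-!
# Circuits with frozen NOT gates and arbitrary gates: monotone depth
-/

namespace Pool.Agent.V8H38.RM

open Finset Function Pool.Agent.V8H38.NL

variable {n : ℕ}

theorem depths_append (l : List (Node n)) (g : Node n) :
    depths (l ++ [g]) = depths l ++ [g.depth fun k => (depths l).getD k 0] := by
  simp [depths, List.foldl_append]

theorem depths_length (l : List (Node n)) : (depths l).length = l.length := by
  induction l using List.reverseRecOn with
  | nil => rfl
  | append_singleton l g ih => rw [depths_append, List.length_append, List.length_append, ih]; rfl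

theorem depths_getD_append (l l' : List (Node n)) (k : ℕ) (hk : k < l.length) :
    (depths (l ++ l')).getD k 0 = (depths l).getD k 0 := by
  induction l' using List.reverseRecOn with
  | nil => rw [List.append_nil]
  | append_singleton l' g ih =>
    rw [← List.append_assoc, depths_append, List.getD_append, ih]
    rw [depths_length, List.length_append]
    omega

/-- the depth of a node -/
def dep (C : Net n) (k : ℕ) : ℕ := (depths C.nodes).getD k 0

theorem dep_eq (C : Net n) (i : ℕ) (h : i < C.nodes.length) :
    dep C i = (C.nodes[i]).depth fun k => if k < i then dep C k else 0 := by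
  have h1 : C.nodes = (C.nodes.take i ++ [C.nodes[i]]) ++ C.nodes.drop (i + 1) := by
    rw [List.take_append_getElem, List.take_append_drop]
  have h2 : (C.nodes.take i).length = i := by
    rw [List.length_take]; omega
  have h3 : ∀ k, (depths (C.nodes.take i)).getD k 0 = if k < i then dep C k else 0 := by
    intro k
    split_ifs with hk
    · unfold dep
      conv_rhs => rw [← List.take_append_drop i C.nodes]
      rw [depths_getD_append _ _ _ (by omega)]
    · rw [List.getD_eq_default]
      rw [depths_length]
      omega
  have h4 : dep C i = (depths (C.nodes.take i ++ [C.nodes[i]])).getD i 0 := by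
    unfold dep
    conv_lhs => rw [h1]
    rw [depths_getD_append]
    rw [List.length_append, h2]
    simp
  rw [h4, depths_append, List.getD_append_right _ _ _ _ (by rw [depths_length]; omega),
    depths_length, h2]
  simp only [Nat.sub_self, List.getD_cons_zero]
  congr 1
  funext k
  exact h3 k

theorem le_foldr_max (l : List ℕ) (k : ℕ) : l.getD k 0 ≤ l.foldr max 0 := by
  induction l generalizing k with
  | nil => simp
  | cons a l ih =>
    cases k with
    | zero => simp
    | succ k =>
      rw [List.getD_cons_succ, List.foldr_cons]
      exact (ih k).trans (le_max_right _ _)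

theorem dep_le (C : Net n) (k : ℕ) : dep C k ≤ C.depth := le_foldr_max _ k

/-- nodes of the frozen circuit -/
theorem mdep_mval (C : Net n) (x : Fin n → Bool) (k : ℕ) : MDep (dep C k) (fun y => mval C x y k) := by
  induction k using Nat.strong_induction_on with
  | _ k ih =>
    by_cases h : k < C.nodes.length
    · have h1 : (fun y => mval C x y k) = fun y => if isFar (C.nodes[k]) = true then val C x k else
          (C.nodes[k]).eval y fun j => if j < k then mval C x y j else false :=
        funext fun y => mval_eq C x y k h
      rw [h1, dep_eq C k h]
      have h2 : ∀ j, MDep (if j < k then dep C j else 0)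
          (fun y => if j < k then mval C x y j else false) := by
        intro j
        by_cases hj : j < k
        · simp only [hj, if_true]
          exact ih j hj
        · simp only [hj, if_false]
          exact MDep.const 0 false
      cases hg : C.nodes[k] with
      | input i => simpa [isFar, Node.eval] using MDep.var _ i
      | const b => simpa [isFar, Node.eval] using MDep.const _ b
      | and a b =>
        simp only [isFar, Node.eval, Node.depth, Bool.false_eq_true, if_false]
        exact MDep.and ((h2 a).mono (le_max_left _ _)) ((h2 b).mono (le_max_right _ _))
      | or a b =>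
        simp only [isFar, Node.eval, Node.depth, Bool.false_eq_true, if_false]
        exact MDep.or ((h2 a).mono (le_max_left _ _)) ((h2 b).mono (le_max_right _ _))
      | not a => simpa [isFar] using MDep.const _ (val C x k)
      | any l φ => simpa [isFar] using MDep.const _ (val C x k)
    · have h1 : (fun y => mval C x y k) = fun _ => false :=
        funext fun y => mval_ge C x y k (by omega)
      rw [h1]
      exact MDep.const _ _

/-- the OR over a finite set -/
theorem MDep.orSet {ι : Type} {D s : ℕ} (S : Finset ℕ) (F : ℕ → (ι → Bool) → Bool)
    (hF : ∀ k ∈ S, MDep D (F k)) (hS : S.card ≤ 2 ^ s) :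
    MDep (D + s) (fun x => decide (∃ k ∈ S, F k x = true)) := by
  have h := MDep.bigOr (D := D) s (fun i x => if h : i < S.toList.length then F (S.toList[i]) x
    else false) (by
      intro i _
      by_cases hi : i < S.toList.length
      · simp only [hi, dif_pos]
        exact hF _ (Finset.mem_toList.1 (List.getElem_mem hi))
      · simp only [hi, dif_neg, not_false_eq_true]
        exact MDep.const _ _)
  have e : (fun x => decide (∃ k ∈ S, F k x = true)) = fun x => decide (∃ i < 2 ^ s,
      (if h : i < S.toList.length then F (S.toList[i]) x else false) = true) := by
    funext x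
    congr 1
    apply propext
    constructor
    · rintro ⟨k, hk, hx⟩
      obtain ⟨i, hi, rfl⟩ := List.getElem_of_mem (Finset.mem_toList.2 hk)
      refine ⟨i, ?_, ?_⟩
      · rw [Finset.length_toList] at hi
        omega
      · rw [dif_pos hi]
        exact hx
    · rintro ⟨i, _, hx⟩
      by_cases hi : i < S.toList.length
      · rw [dif_pos hi] at hx
        exact ⟨_, Finset.mem_toList.1 (List.getElem_mem hi), hx⟩
      · rw [dif_neg hi] at hx
        exact absurd hx (by decide)
  rw [e]
  exact h

/-- **The noticer**: for inputs above `x`, a monotone function of small depth tells whether the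
clock has moved; if not, then the output is the same. -/
theorem exists_notice {C : Net n} {lev : ℕ → ℕ} (hL : C.Layered lev) {s : ℕ}
    (hs : C.combos lev ≤ 2 ^ s) (x : Fin n → Bool) :
    ∃ H : (Fin n → Bool) → Bool, MDep (C.depth + s) H ∧
      ∀ y, (∀ i, x i = true → y i = true) →
        (H y = true ∧ clock C lev x < clock C lev y) ∨
        (H y = false ∧ clock C lev x = clock C lev y ∧ C.eval x = C.eval y) := by
  refine ⟨fun y => decide (∃ k ∈ watch C lev x, mval C x y k = true),
    MDep.orSet _ _ (fun k _ => (mdep_mval C x k).mono (dep_le C k))
      ((card_watch x).trans hs), ?_⟩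
  intro y hy
  rcases clock_watch hL hy with ⟨h5, h6⟩ | ⟨h5, h6, h7⟩
  · left
    exact ⟨by simpa using h6, h5⟩
  · right
    refine ⟨?_, h5, h7⟩
    simp only [decide_eq_false_iff_not, not_exists, not_and, Bool.not_eq_true]
    exact h6

end Pool.Agent.V8H38.RM
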