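import Pool.Agent.V8H38.RM.Frozen

/-!
# Many copies: circuits in layers against the OR of copies
-/

set_option linter.unusedSectionVars false

namespace Pool.Agent.V8H38.RM

open Finset Function Pool.Agent.V8H38.NL

section Resample

variable {Ω : Type} [Fintype Ω] {R : ℕ}

/-- the product weight -/
def pw (w : Ω → ℝ) (ω : Fin R → Ω) : ℝ := ∏ i, w (ω i)

theorem pw_nonneg {w : Ω → ℝ} (h : ∀ z, 0 ≤ w z) (ω : Fin R → Ω) : 0 ≤ pw w ω :=
  Finset.prod_nonneg fun _ _ => h _

theorem pw_sum [DecidableEq Ω] {w : Ω → ℝ} (h : ∑ z, w z = 1) : ∑ ω : Fin R → Ω, pw w ω = 1 := by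
  have h1 : ∏ _i : Fin R, ∑ z, w z = ∑ ω : Fin R → Ω, pw w ω := by
    rw [Finset.prod_univ_sum, Fintype.piFinset_univ]
    rfl
  rw [← h1, h]
  simp

theorem pw_update (w : Ω → ℝ) (ω : Fin R → Ω) (j : Fin R) (z : Ω) :
    pw w (update ω j z) * w (ω j) = pw w ω * w z := by
  unfold pw
  rw [← Finset.mul_prod_erase univ _ (Finset.mem_univ j),
    ← Finset.mul_prod_erase univ (fun i => w (ω i)) (Finset.mem_univ j)]
  rw [update_self]
  have : ∏ i ∈ univ.erase j, w (update ω j z i) = ∏ i ∈ univ.erase j, w (ω i) := by
    refine Finset.prod_congr rfl fun i hi => ?_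
    rw [update_of_ne (Finset.ne_of_mem_erase hi)]
  rw [this]
  ring

/-- resampling one coordinate -/
theorem resample {w : Ω → ℝ} (h : ∑ z, w z = 1) (j : Fin R) (F : (Fin R → Ω) → ℝ) :
    ∑ ω, pw w ω * F ω = ∑ ω, pw w ω * ∑ z, w z * F (update ω j z) := by
  classical
  have h1 : ∑ ω : Fin R → Ω, pw w ω * ∑ z, w z * F (update ω j z) =
      ∑ q : (Fin R → Ω) × Ω, pw w q.1 * w q.2 * F (update q.1 j q.2) := by
    rw [← Finset.univ_product_univ, Finset.sum_product]
    refine Finset.sum_congr rfl fun ω _ => ?_
    rw [Finset.mul_sum]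
    exact Finset.sum_congr rfl fun z _ => by ring
  have h2 : ∑ q : (Fin R → Ω) × Ω, pw w q.1 * w q.2 * F (update q.1 j q.2) =
      ∑ q : (Fin R → Ω) × Ω, pw w q.1 * w q.2 * F q.1 := by
    refine Finset.sum_bij' (fun q _ => (update q.1 j q.2, q.1 j))
      (fun q _ => (update q.1 j q.2, q.1 j)) (fun _ _ => Finset.mem_univ _)
      (fun _ _ => Finset.mem_univ _) ?_ ?_ ?_
    · intro q _
      simp [update_idem, update_eq_self]
    · intro q _
      simp [update_idem, update_eq_self]
    · intro q _
      simp only
      rw [pw_update]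
  rw [h1, h2, ← Finset.univ_product_univ, Finset.sum_product]
  refine Finset.sum_congr rfl fun ω _ => ?_
  simp only
  have : ∑ z, pw w ω * w z * F ω = pw w ω * F ω * ∑ z, w z := by
    rw [Finset.mul_sum]
    exact Finset.sum_congr rfl fun z _ => by ring
  rw [this, h, mul_one]

end Resample

section Place

variable {ι : Type} {R n : ℕ}

/-- the input that consists of the given copies -/
noncomputable def place (β : Fin R × ι → Fin n) (s : Fin R → ι → Bool) : Fin n → Bool :=
  extend β (fun z => s z.1 z.2) fun _ => false

theorem place_mono {β : Fin R × ι → Fin n} (hβ : Injective β) {s t : Fin R → ι → Bool}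
    (h : ∀ i e, s i e = true → t i e = true) (k : Fin n) (hk : place β s k = true) :
    place β t k = true := by
  unfold place at hk ⊢
  by_cases hex : ∃ z, β z = k
  · obtain ⟨z, rfl⟩ := hex
    rw [hβ.extend_apply] at hk ⊢
    exact h _ _ hk
  · rw [extend_apply' _ _ _ hex] at hk
    exact absurd hk (by decide)

/-- substituting one copy -/
theorem mdep_place {β : Fin R × ι → Fin n} (hβ : Injective β) (s : Fin R → ι → Bool) (j : Fin R)
    {d : ℕ} {H : (Fin n → Bool) → Bool} (hH : MDep d H) :
    MDep d (fun x : ι → Bool => H (place β (update s j x))) := by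
  classical
  have h := hH.subst (fun k => extend β
    (fun z => if z.1 = j then (Sum.inl z.2 : ι ⊕ Bool) else Sum.inr (s z.1 z.2))
    (fun _ => Sum.inr false) k)
  have e : (fun x : ι → Bool => H (place β (update s j x))) = fun x => H fun k =>
      Sum.elim x id (extend β (fun z => if z.1 = j then (Sum.inl z.2 : ι ⊕ Bool)
        else Sum.inr (s z.1 z.2)) (fun _ => Sum.inr false) k) := by
    funext x
    congr 1
    funext k
    unfold place
    by_cases hex : ∃ z, β z = k
    · obtain ⟨z, rfl⟩ := hex
      rw [hβ.extend_apply, hβ.extend_apply]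
      by_cases hz : z.1 = j
      · rw [if_pos hz, hz, update_self]
        rfl
      · rw [if_neg hz, update_of_ne hz]
        rfl
    · rw [extend_apply' _ _ _ hex, extend_apply' _ _ _ hex]
      rfl
  rw [e]
  exact h

end Place

variable {ι X Y : Type} [Fintype X] [Fintype Y] {R n : ℕ}

/-- the copies before `j` are no-instances, the others are empty -/
def base (v : Y → ι → Bool) (ω : Fin R → X × Y) (j : ℕ) : Fin R → ι → Bool :=
  fun i => if i.val < j then v (ω i).2 else fun _ => false

theorem base_update (v : Y → ι → Bool) (ω : Fin R → X × Y) (j : Fin R) (z : X × Y) :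
    base v (update ω j z) j.val = base v ω j.val := by
  funext i
  unfold base
  by_cases h : i.val < j.val
  · rw [if_pos h, if_pos h, update_of_ne (by intro e; rw [e] at h; omega)]
  · rw [if_neg h, if_neg h]

theorem base_succ (v : Y → ι → Bool) (ω : Fin R → X × Y) (j : Fin R) :
    base v ω (j.val + 1) = update (base v ω j.val) j (v (ω j).2) := by
  funext i
  unfold base
  by_cases h : i = j
  · subst h
    rw [update_self, if_pos (by omega)]
  · rw [update_of_ne h]
    have h' : i.val ≠ j.val := fun e => h (Fin.ext e)
    by_cases h2 : i.val < j.val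
    · rw [if_pos h2, if_pos (by omega)]
    · rw [if_neg h2, if_neg (by omega)]

open Classical in
/-- **Circuits in layers against many copies.** -/
theorem chain {u : X → ι → Bool} {v : Y → ι → Bool} {w : X × Y → ℝ} (hw0 : ∀ z, 0 ≤ w z)
    (hw1 : ∑ z, w z = 1) {ε : ℝ} {d' : ℕ}
    (hε : ∀ f, MDep d' f → ∑ z : X × Y, w z * (gain f (u z.1) (v z.2) : ℝ) ≤ ε)
    {β : Fin R × ι → Fin n} (hβ : Injective β) (hR : 0 < R) (f : (Fin n → Bool) → Prop)
    (hf0 : ∀ s : Fin R → ι → Bool, (∀ i, (s i = fun _ => false) ∨ ∃ y, s i = v y) →
      ¬ f (place β s))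
    (hf1 : ∀ (s : Fin R → ι → Bool) (j : Fin R) (x : X), s j = u x → f (place β s)) :
    ∃ D : (Fin n → Bool) → ℝ, (∀ x, 0 ≤ D x) ∧ ∑ x, D x = 1 ∧
      ∀ (C : Net n) (lev : ℕ → ℕ) (s : ℕ), C.Layered lev → C.combos lev ≤ 2 ^ s →
        C.depth + s ≤ d' → C.agree D f ≤ 1 / 2 + 2 * C.combos lev / R + ε / 2 := by
  -- the two inputs of stage `j`
  set no' : (Fin R → X × Y) → Fin R → (Fin n → Bool) := fun ω j =>
    place β (base v ω (j.val + 1)) with hno
  set ys' : (Fin R → X × Y) → Fin R → (Fin n → Bool) := fun ω j =>
    place β (update (base v ω j.val) j (u (ω j).1)) with hys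
  set D : (Fin n → Bool) → ℝ := fun x => ∑ j : Fin R, ∑ ω : Fin R → X × Y, pw w ω *
    (((if no' ω j = x then (1:ℝ) else 0) + (if ys' ω j = x then (1:ℝ) else 0)) / (2 * R)) with hD
  have hRr : (0:ℝ) < R := by exact_mod_cast hR
  have hpw1 : ∑ ω : Fin R → X × Y, pw w ω = 1 := pw_sum hw1
  have avg : ∀ F : (Fin n → Bool) → ℝ, ∑ x, D x * F x =
      ∑ j : Fin R, ∑ ω : Fin R → X × Y, pw w ω * ((F (no' ω j) + F (ys' ω j)) / (2 * R)) := by
    intro F
    simp only [hD]
    simp_rw [Finset.sum_mul]
    rw [Finset.sum_comm]
    refine Finset.sum_congr rfl fun j _ => ?_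
    rw [Finset.sum_comm]
    refine Finset.sum_congr rfl fun ω _ => ?_
    have e : ∀ x, pw w ω * (((if no' ω j = x then (1:ℝ) else 0) +
        (if ys' ω j = x then (1:ℝ) else 0)) / (2 * R)) * F x =
        pw w ω / (2 * R) * ((if no' ω j = x then F x else 0) +
          (if ys' ω j = x then F x else 0)) := by
      intro x
      split_ifs <;> ring
    rw [Finset.sum_congr rfl fun x _ => e x, ← Finset.mul_sum, Finset.sum_add_distrib,
      Finset.sum_ite_eq, Finset.sum_ite_eq]
    simp only [Finset.mem_univ, if_true]
    ring
  refine ⟨D, ?_, ?_, ?_⟩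
  · intro x
    refine Finset.sum_nonneg fun j _ => Finset.sum_nonneg fun ω _ =>
      mul_nonneg (pw_nonneg hw0 ω) ?_
    positivity
  · have := avg fun _ => 1
    simp only [mul_one] at this
    rw [this]
    have e : ∀ j : Fin R, ∑ ω : Fin R → X × Y, pw w ω * ((1 + 1) / (2 * (R:ℝ))) = 1 / R := by
      intro j
      rw [← Finset.sum_mul, hpw1, one_mul]
      field_simp
      norm_num
    rw [Finset.sum_congr rfl fun j _ => e j, Finset.sum_const, Finset.card_univ, Fintype.card_fin,
      nsmul_eq_mul]
    field_simp
  · intro C lev s hL hs hd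
    -- the noticers
    have hH := fun (ω : Fin R → X × Y) (j : Fin R) =>
      exists_notice hL hs (place β (base v ω j.val))
    -- noticer as a function of the base
    have hH' : ∀ σ : Fin R → ι → Bool, ∃ H : (Fin n → Bool) → Bool, MDep (C.depth + s) H ∧
      ∀ y, (∀ i, place β σ i = true → y i = true) →
        (H y = true ∧ clock C lev (place β σ) < clock C lev y) ∨
        (H y = false ∧ clock C lev (place β σ) = clock C lev y ∧
          C.eval (place β σ) = C.eval y) := fun σ => exists_notice hL hs (place β σ)
    choose H hHd hHn using hH'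
    set good : (Fin n → Bool) → ℝ := fun x => if (C.eval x = true ↔ f x) then 1 else 0 with hgood
    have hagree : C.agree D f = ∑ x, D x * good x := by
      unfold Net.agree
      refine Finset.sum_congr rfl fun x _ => ?_
      simp only [hgood]
      split_ifs <;> simp
    rw [hagree, avg]
    -- stage by stage
    set a : (Fin R → X × Y) → Fin R → ℝ := fun ω j =>
      ((H (base v ω j.val) (no' ω j)).toNat : ℝ) with ha
    set b : (Fin R → X × Y) → Fin R → ℝ := fun ω j =>
      ((H (base v ω j.val) (ys' ω j)).toNat : ℝ) with hb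
    have hle_no : ∀ ω j i, place β (base v ω j.val) i = true → no' ω j i = true := by
      intro ω j i hi
      refine place_mono hβ (s := base v ω j.val) ?_ i hi
      intro k e hk
      unfold base at hk ⊢
      by_cases h : k.val < j.val
      · rw [if_pos h] at hk
        rw [if_pos (by omega)]
        exact hk
      · rw [if_neg h] at hk
        exact absurd hk (by decide)
    have hle_ys : ∀ ω j i, place β (base v ω j.val) i = true → ys' ω j i = true := by
      intro ω j i hi
      refine place_mono hβ (s := base v ω j.val) ?_ i hi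
      intro k e hk
      by_cases h : k = j
      · subst h
        unfold base at hk
        rw [if_neg (lt_irrefl _)] at hk
        exact absurd hk (by decide)
      · rw [update_of_ne h]
        exact hk
    have hfno : ∀ ω j, ¬ f (no' ω j) := by
      intro ω j
      refine hf0 _ fun i => ?_
      unfold base
      by_cases h : i.val < j.val + 1
      · rw [if_pos h]
        exact Or.inr ⟨_, rfl⟩
      · rw [if_neg h]
        exact Or.inl rfl
    have hfys : ∀ ω j, f (ys' ω j) := fun ω j => hf1 _ j (ω j).1 (update_self _ _ _)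
    have hpoint : ∀ ω j, good (no' ω j) + good (ys' ω j) ≤ 1 + a ω j + b ω j := by
      intro ω j
      have h0 : ∀ x, good x ≤ 1 := by
        intro x; simp only [hgood]; split_ifs <;> norm_num
      have ha0 : 0 ≤ a ω j := by simp only [ha]; positivity
      have hb0 : 0 ≤ b ω j := by simp only [hb]; positivity
      rcases hHn (base v ω j.val) (no' ω j) (hle_no ω j) with ⟨h1, _⟩ | ⟨h1, _, h2⟩
      · have : a ω j = 1 := by simp only [ha]; rw [h1]; simp
        have := h0 (no' ω j)
        have := h0 (ys' ω j)
        linarith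
      · rcases hHn (base v ω j.val) (ys' ω j) (hle_ys ω j) with ⟨h3, _⟩ | ⟨h3, _, h4⟩
        · have : b ω j = 1 := by simp only [hb]; rw [h3]; simp
          have := h0 (no' ω j)
          have := h0 (ys' ω j)
          linarith
        · have hsum : good (no' ω j) + good (ys' ω j) ≤ 1 := by
            simp only [hgood]
            have e1 := hfno ω j
            have e2 := hfys ω j
            rw [h2] at h4
            cases hc : C.eval (no' ω j)
            · rw [hc] at h4
              rw [← h4]
              simp [e1, e2]
            · rw [hc] at h4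
              rw [← h4]
              simp [e1, e2]
          linarith
    -- the number of changes
    have hsteps : ∀ ω, ∑ j : Fin R, a ω j ≤ 2 * C.combos lev := by
      intro ω
      have hstep : ∀ j : Fin R, (a ω j) ≤
          ((clock C lev (place β (base v ω (j.val + 1))) : ℝ) -
            clock C lev (place β (base v ω j.val))) := by
        intro j
        rcases hHn (base v ω j.val) (no' ω j) (hle_no ω j) with ⟨h1, h2⟩ | ⟨h1, h2, _⟩
        · simp only [ha]
          rw [h1]
          have : (clock C lev (place β (base v ω j.val)) : ℝ) + 1 ≤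
              clock C lev (place β (base v ω (j.val + 1))) := by exact_mod_cast h2
          simp only [Bool.toNat_true, Nat.cast_one]
          linarith
        · simp only [ha]
          rw [h1]
          have h2' : clock C lev (place β (base v ω j.val)) =
              clock C lev (place β (base v ω (j.val + 1))) := h2
          rw [h2']
          simp
      calc ∑ j : Fin R, a ω j ≤ ∑ j : Fin R,
            ((clock C lev (place β (base v ω (j.val + 1))) : ℝ) -
              clock C lev (place β (base v ω j.val))) := Finset.sum_le_sum fun j _ => hstep j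
        _ = ∑ j ∈ range R, ((clock C lev (place β (base v ω (j + 1))) : ℝ) -
              clock C lev (place β (base v ω j))) := by
            rw [Finset.sum_range (fun j => (clock C lev (place β (base v ω (j + 1))) : ℝ) -
              clock C lev (place β (base v ω j)))]
        _ = (clock C lev (place β (base v ω R)) : ℝ) - clock C lev (place β (base v ω 0)) :=
            Finset.sum_range_sub (fun j => (clock C lev (place β (base v ω j)) : ℝ)) R
        _ ≤ 2 * C.combos lev := by
            have h1 := clock_lt (C := C) (lev := lev) (place β (base v ω R))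
            have h2 : (clock C lev (place β (base v ω R)) : ℝ) + 1 ≤ 2 * C.combos lev := by
              exact_mod_cast h1
            have h3 : (0:ℝ) ≤ clock C lev (place β (base v ω 0)) := by positivity
            linarith
    -- yes-instances
    have hyes : ∀ j : Fin R, ∑ ω : Fin R → X × Y, pw w ω * (b ω j - a ω j) ≤ ε := by
      intro j
      rw [resample hw1 j]
      calc ∑ ω : Fin R → X × Y, pw w ω * ∑ z, w z * (b (update ω j z) j - a (update ω j z) j)
          ≤ ∑ ω : Fin R → X × Y, pw w ω * ε := by
            refine Finset.sum_le_sum fun ω _ => mul_le_mul_of_nonneg_left ?_ (pw_nonneg hw0 ω)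
            have h1 := hε (fun x => H (base v ω j.val) (place β (update (base v ω j.val) j x)))
              ((mdep_place hβ (base v ω j.val) j (hHd _)).mono hd)
            refine le_of_eq_of_le (Finset.sum_congr rfl fun z _ => ?_) h1
            congr 1
            simp only [ha, hb, gain, hno, hys]
            rw [base_succ, base_update, update_self]
            push_cast
            rfl
        _ = ε := by rw [← Finset.sum_mul, hpw1, one_mul]
    have hall : ∑ j : Fin R, ∑ ω : Fin R → X × Y, pw w ω * (a ω j) ≤ 2 * C.combos lev := by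
      rw [Finset.sum_comm]
      calc ∑ ω : Fin R → X × Y, ∑ j : Fin R, pw w ω * (a ω j) =
            ∑ ω : Fin R → X × Y, pw w ω * ∑ j : Fin R, a ω j :=
            Finset.sum_congr rfl fun ω _ => by rw [Finset.mul_sum]
        _ ≤ ∑ ω : Fin R → X × Y, pw w ω * (2 * C.combos lev) :=
            Finset.sum_le_sum fun ω _ => mul_le_mul_of_nonneg_left (hsteps ω) (pw_nonneg hw0 ω)
        _ = 2 * C.combos lev := by rw [← Finset.sum_mul, hpw1, one_mul]
    have hbs : ∑ j : Fin R, ∑ ω : Fin R → X × Y, pw w ω * (b ω j) ≤
        2 * C.combos lev + R * ε := by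
      have h1 : ∑ j : Fin R, ∑ ω : Fin R → X × Y, pw w ω * (b ω j) =
          ∑ j : Fin R, ∑ ω : Fin R → X × Y, pw w ω * (b ω j - a ω j) +
          ∑ j : Fin R, ∑ ω : Fin R → X × Y, pw w ω * (a ω j) := by
        rw [← Finset.sum_add_distrib]
        refine Finset.sum_congr rfl fun j _ => ?_
        rw [← Finset.sum_add_distrib]
        exact Finset.sum_congr rfl fun ω _ => by ring
      have h2 : ∑ j : Fin R, ∑ ω : Fin R → X × Y, pw w ω * (b ω j - a ω j) ≤ R * ε := by
        calc _ ≤ ∑ j : Fin R, ε := Finset.sum_le_sum fun j _ => hyes j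
          _ = R * ε := by rw [Finset.sum_const, Finset.card_univ, Fintype.card_fin, nsmul_eq_mul]
      rw [h1]
      linarith
    calc ∑ j : Fin R, ∑ ω : Fin R → X × Y, pw w ω * ((good (no' ω j) + good (ys' ω j)) / (2 * R))
        ≤ ∑ j : Fin R, ∑ ω : Fin R → X × Y, pw w ω * ((1 + a ω j + b ω j) / (2 * R)) := by
          refine Finset.sum_le_sum fun j _ => Finset.sum_le_sum fun ω _ =>
            mul_le_mul_of_nonneg_left ?_ (pw_nonneg hw0 ω)
          exact div_le_div_of_nonneg_right (hpoint ω j) (by positivity)
      _ = (1 / (2 * R)) * (∑ j : Fin R, ∑ ω : Fin R → X × Y, pw w ω +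
            ∑ j : Fin R, ∑ ω : Fin R → X × Y, pw w ω * (a ω j) +
            ∑ j : Fin R, ∑ ω : Fin R → X × Y, pw w ω * (b ω j)) := by
          rw [← Finset.sum_add_distrib, ← Finset.sum_add_distrib, Finset.mul_sum]
          refine Finset.sum_congr rfl fun j _ => ?_
          rw [← Finset.sum_add_distrib, ← Finset.sum_add_distrib, Finset.mul_sum]
          exact Finset.sum_congr rfl fun ω _ => by ring
      _ ≤ (1 / (2 * R)) * (R + 2 * C.combos lev + (2 * C.combos lev + R * ε)) := by
          refine mul_le_mul_of_nonneg_left ?_ (by positivity)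
          have : ∑ j : Fin R, ∑ ω : Fin R → X × Y, pw w ω = R := by
            rw [Finset.sum_congr rfl fun j _ => hpw1]
            simp
          rw [this]
          linarith
      _ = 1 / 2 + 2 * C.combos lev / R + ε / 2 := by
          field_simp
          ring

end Pool.Agent.V8H38.RM
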