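import Pool.Agent.V8H38.NL.Net
import Pool.Agent.V8H47.MH.Defs

/-!
# Words that describe monotone circuits, and the depth of circuits
-/

namespace Pool.Agent.V8H38.RM

/-- The letters: a constant, the beginning of a gate (`gate true` for AND, `gate false` for OR), and
two marks, which are used to write two numbers in unary. -/
inductive Letter
  | bit (b : Bool)
  | gate (t : Bool)
  | fst
  | snd

/-- A node of a monotone circuit: a constant or a gate. The inputs of `gate t d e` are the nodes
number `d` and number `e` (counted from zero) among the nodes that follow it. -/
inductive Item
  | bit (b : Bool)
  | gate (t : Bool) (d e : ℕ)

/-- The numbers of marks `fst` and `snd` before the next constant or gate. -/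
def marks : List Letter → ℕ × ℕ
  | Letter.fst :: w => ((marks w).1 + 1, (marks w).2)
  | Letter.snd :: w => ((marks w).1, (marks w).2 + 1)
  | _ => (0, 0)

/-- The circuit described by a word: each letter `bit b` stands for a constant and each letter
`gate t` for a gate, with the numbers given by the marks that follow it. -/
def parse : List Letter → List Item
  | [] => []
  | Letter.bit b :: w => Item.bit b :: parse w
  | Letter.gate t :: w => Item.gate t (marks w).1 (marks w).2 :: parse w
  | Letter.fst :: w => parse w
  | Letter.snd :: w => parse w

/-- The values of the nodes. The second input of a gate is only used if the first input does not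
determine the value; the value is `none` if an input that is used does not exist. -/
def values : List Item → List (Option Bool)
  | [] => []
  | Item.bit b :: C => some b :: values C
  | Item.gate t d e :: C =>
      ((values C)[d]?.join.bind fun b => if b = t then (values C)[e]?.join else some b) :: values C

/-- The monotone circuit value problem: the first node of the described circuit has value one. -/
def MCV : Language Letter := {w | (values (parse w)).head? = some (some true)}

/-- A pattern is a word in which some letters are variable constants; `fill p x` is the word that
arises if the bits of `x` are inserted. -/
def fill {n : ℕ} (p : List (Letter ⊕ Fin n)) (x : Fin n → Bool) : List Letter :=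
  p.map (Sum.elim id fun i => Letter.bit (x i))

end Pool.Agent.V8H38.RM

namespace Pool.Agent.V8H38.NL

/-- The depth of a node, given the depths of the earlier nodes: one more than the depths of the
nodes read by an AND or OR gate, zero for all other nodes. -/
def Node.depth {n : ℕ} (v : ℕ → ℕ) : Node n → ℕ
  | .and a b => max (v a) (v b) + 1
  | .or a b => max (v a) (v b) + 1
  | _ => 0

/-- The list of the depths of all nodes. -/
def depths {n : ℕ} (l : List (Node n)) : List ℕ :=
  l.foldl (fun v g => v ++ [g.depth fun k => v.getD k 0]) []

/-- The depth: the greatest number of AND and OR gates on a path on which there is no NOT gate and
no arbitrary gate. -/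
def Net.depth {n : ℕ} (C : Net n) : ℕ := (depths C.nodes).foldr max 0

end Pool.Agent.V8H38.NL
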