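import Pool.Agent.V8H38.RM.Query

/-!
# The lifting theorem for monotone depth
-/

namespace Pool.Agent.V8H38.RM

open Finset Function

variable {V C : Type} [Fintype V] [DecidableEq V] {m : ℕ}

/-- the yes-instance of a tuple of pointers -/
def yes (pt : C → Fin 3 → V) (x : V → Fin m) : C × (Fin 3 → Fin m) → Bool :=
  fun e => decide (∀ k, x (pt e.1 k) = e.2 k)

/-- the no-instance of a tuple of strings -/
def no (pt : C → Fin 3 → V) (pat : C → Fin 3 → Bool) (y : V → Fin m → Bool) :
    C × (Fin 3 → Fin m) → Bool :=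
  fun e => !decide (∀ k, y (pt e.1 k) (e.2 k) = pat e.1 k)

/-- The state of the simulation. -/
structure St (pt : C → Fin 3 → V) (pat : C → Fin 3 → Bool)
    (P : Finset V → (V → Bool) → Prop) (f : (C × (Fin 3 → Fin m) → Bool) → Bool)
    (S : Finset V) (z : V → Bool) (U : V → Finset (Fin m)) (A : Finset (V → Fin m))
    (B : Finset (V → Fin m → Bool)) (e : ℕ) : Prop where
  good : P S z
  ha : ∀ x ∈ A, ∃ x', (∀ i, i ∉ S → x' i = x i) ∧ (∀ i ∈ S, x' i ∈ U i) ∧ f (yes pt x') = true
  hb : ∀ y ∈ B, ∃ y', (∀ i, i ∉ S → y' i = y i) ∧ (∀ i ∈ S, ∀ a ∈ U i, y' i a = z i) ∧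
    f (no pt pat y') = false
  thick : ∀ i, i ∉ S → ∀ x ∈ A, m ≤ 16 * Fintype.card V * deg A i x
  da : 4 ^ S.card * m ^ Fintype.card V ≤ 4 ^ e * A.card
  db : Fintype.card (V → Fin m → Bool) ≤ 4 ^ S.card * 2 ^ e * B.card

variable {pt : C → Fin 3 → V} {pat : C → Fin 3 → Bool} {P : Finset V → (V → Bool) → Prop}
  {f : (C × (Fin 3 → Fin m) → Bool) → Bool} {S : Finset V} {z : V → Bool}
  {U : V → Finset (Fin m)} {A : Finset (V → Fin m)} {B : Finset (V → Fin m → Bool)} {e : ℕ}

theorem St.card_S_le [NeZero m] (h : St pt pat P f S z U A B e) : S.card ≤ e := by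
  have hm : 0 < m := Nat.pos_of_ne_zero (NeZero.ne m)
  have h1 : A.card ≤ m ^ Fintype.card V := by
    calc A.card ≤ Fintype.card (V → Fin m) := Finset.card_le_univ _
      _ = m ^ Fintype.card V := by simp
  have h2 : 4 ^ S.card * m ^ Fintype.card V ≤ 4 ^ e * m ^ Fintype.card V :=
    h.da.trans (Nat.mul_le_mul_left _ h1)
  have h3 : 4 ^ S.card ≤ 4 ^ e := Nat.le_of_mul_le_mul_right h2 (by positivity)
  exact (Nat.pow_le_pow_iff_right (by norm_num)).1 h3

theorem St.A_nonempty [NeZero m] (h : St pt pat P f S z U A B e) : A.Nonempty := by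
  have hm : 0 < m := Nat.pos_of_ne_zero (NeZero.ne m)
  rw [← Finset.card_pos]
  rcases Nat.eq_zero_or_pos A.card with h0 | h0
  · have := h.da
    rw [h0, mul_zero] at this
    have h2 : 0 < 4 ^ S.card * m ^ Fintype.card V := by positivity
    omega
  · exact h0

theorem St.B_nonempty (h : St pt pat P f S z U A B e) : B.Nonempty := by
  rw [← Finset.card_pos]
  rcases Nat.eq_zero_or_pos B.card with h0 | h0
  · have := h.db
    rw [h0, mul_zero] at this
    have h2 : 0 < Fintype.card (V → Fin m → Bool) := Fintype.card_pos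
    omega
  · exact h0

/-- one query -/
theorem St.query [NeZero m] {q d L : ℕ}
    (hP1 : ∀ S z, P S z → S.card < q → ∀ i, i ∉ S → ∃ b, P (insert i S) (update z i b))
    (hdq : d < q) (hL : 3 * (3 * d + 1) ≤ L)
    (hτ : 4 * m ^ Fintype.card V ≤ 2 ^ ((m / (16 * Fintype.card V)) / L))
    (h : St pt pat P f S z U A B e) (he : e ≤ d) {i : V} (hi : i ∉ S)
    (hbig : 4 * A.card < (proj i A).card) :
    ∃ S' z' U' A' B', St pt pat P f S' z' U' A' B' e ∧ S'.card = S.card + 1 := by
  classical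
  have hSe := h.card_S_le
  obtain ⟨b, hb⟩ := hP1 S z h.good (by omega) i hi
  have hcardB : Fintype.card (V → Fin m → Bool) ≤ 8 ^ d * B.card := by
    refine h.db.trans (Nat.mul_le_mul_right _ ?_)
    calc 4 ^ S.card * 2 ^ e ≤ 4 ^ d * 2 ^ d :=
          Nat.mul_le_mul (Nat.pow_le_pow_right (by norm_num) (by omega))
            (Nat.pow_le_pow_right (by norm_num) he)
      _ = 8 ^ d := by rw [← mul_pow]; norm_num
  have hn : 0 < Fintype.card V := Fintype.card_pos_iff.2 ⟨i⟩
  obtain ⟨U₀, hU1, hU2⟩ := RM.query (V := V) (m := m) i b rfl hL hτ (A := A)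
    (fun x hx => Nat.div_le_of_le_mul (h.thick i hi x hx)) (B := B) hcardB
  refine ⟨insert i S, update z i b, update U i U₀, proj i A, projB i U₀ b B, ?_,
    Finset.card_insert_of_notMem hi⟩
  refine ⟨hb, ?_, ?_, ?_, ?_, ?_⟩
  · intro x hx
    obtain ⟨a, ha, hxa⟩ := hU1 x hx
    obtain ⟨x', h1, h2, h3⟩ := h.ha _ hxa
    refine ⟨x', ?_, ?_, h3⟩
    · intro j hj
      rw [Finset.mem_insert, not_or] at hj
      rw [h1 j hj.2, update_of_ne hj.1]
    · intro j hj
      by_cases hji : j = i
      · subst hji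
        rw [update_self, h1 j hi, update_self]
        exact ha
      · rw [update_of_ne hji]
        exact h2 j ((Finset.mem_insert.1 hj).resolve_left hji)
  · intro y hy
    obtain ⟨s, hs1, hs2⟩ := mem_projB.1 hy
    obtain ⟨y', h1, h2, h3⟩ := h.hb _ hs2
    refine ⟨y', ?_, ?_, h3⟩
    · intro j hj
      rw [Finset.mem_insert, not_or] at hj
      rw [h1 j hj.2, update_of_ne hj.1]
    · intro j hj a ha
      by_cases hji : j = i
      · subst hji
        rw [update_self] at ha ⊢
        rw [h1 j hi, update_self]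
        exact hs1 a ha
      · rw [update_of_ne hji] at ha ⊢
        exact h2 j ((Finset.mem_insert.1 hj).resolve_left hji) a ha
  · intro j hj x hx
    rw [Finset.mem_insert, not_or] at hj
    obtain ⟨a, ha⟩ := mem_proj.1 hx
    refine (h.thick j hj.2 _ ha).trans (Nat.mul_le_mul_left _ ?_)
    unfold deg
    refine Finset.card_le_card ?_
    intro c hc
    rw [Finset.mem_filter] at hc ⊢
    refine ⟨mem_univ _, ?_⟩
    rw [mem_proj]
    refine ⟨a, ?_⟩
    rw [update_comm hj.1]
    exact hc.2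
  · rw [Finset.card_insert_of_notMem hi, pow_succ]
    have := h.da
    calc 4 ^ S.card * 4 * m ^ Fintype.card V = 4 * (4 ^ S.card * m ^ Fintype.card V) := by ring
      _ ≤ 4 * (4 ^ e * A.card) := Nat.mul_le_mul_left _ this
      _ = 4 ^ e * (4 * A.card) := by ring
      _ ≤ 4 ^ e * (proj i A).card := Nat.mul_le_mul_left _ hbig.le
  · rw [Finset.card_insert_of_notMem hi, pow_succ]
    refine h.db.trans ?_
    calc 4 ^ S.card * 2 ^ e * B.card ≤ 4 ^ S.card * 2 ^ e * (4 * (projB i U₀ b B).card) :=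
          Nat.mul_le_mul_left _ hU2
      _ = 4 ^ S.card * 4 * 2 ^ e * (projB i U₀ b B).card := by ring

/-- queries until all average degrees are large -/
theorem St.cleanup [NeZero m] {q d L : ℕ}
    (hP1 : ∀ S z, P S z → S.card < q → ∀ i, i ∉ S → ∃ b, P (insert i S) (update z i b))
    (hdq : d < q) (hL : 3 * (3 * d + 1) ≤ L)
    (hτ : 4 * m ^ Fintype.card V ≤ 2 ^ ((m / (16 * Fintype.card V)) / L)) (he : e ≤ d) :
    ∀ (r : ℕ) {S : Finset V} {z : V → Bool} {U : V → Finset (Fin m)} {A : Finset (V → Fin m)}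
      {B : Finset (V → Fin m → Bool)}, St pt pat P f S z U A B e → e ≤ S.card + r →
    ∃ S' z' U' A' B', St pt pat P f S' z' U' A' B' e ∧
      ∀ i, i ∉ S' → (proj i A').card ≤ 4 * A'.card := by
  intro r
  induction r with
  | zero =>
    intro S z U A B h hr
    by_cases hex : ∃ i, i ∉ S ∧ 4 * A.card < (proj i A).card
    · obtain ⟨i, hi, hbig⟩ := hex
      obtain ⟨S', z', U', A', B', h', hc⟩ := h.query hP1 hdq hL hτ he hi hbig
      have := h'.card_S_le
      omega
    · push Not at hex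
      exact ⟨S, z, U, A, B, h, hex⟩
  | succ r ih =>
    intro S z U A B h hr
    by_cases hex : ∃ i, i ∉ S ∧ 4 * A.card < (proj i A).card
    · obtain ⟨i, hi, hbig⟩ := hex
      obtain ⟨S', z', U', A', B', h', hc⟩ := h.query hP1 hdq hL hτ he hi hbig
      exact ih h' (by omega)
    · push Not at hex
      exact ⟨S, z, U, A, B, h, hex⟩

/-- **The lifting theorem.** If partial assignments in `P` can be extended up to `q` queries
without violating a constraint, then the composition with the index gadget has monotone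
depth at least `q`. -/
theorem lifting [NeZero m] {q d L : ℕ}
    (hP1 : ∀ S z, P S z → S.card < q → ∀ i, i ∉ S → ∃ b, P (insert i S) (update z i b))
    (hP2 : ∀ S z, P S z → S.card < q → ∀ c, (∀ k, pt c k ∈ S) → ¬ ∀ k, z (pt c k) = pat c k)
    (hdq : d < q) (hL : 3 * (3 * d + 1) ≤ L) (hm : 16 * Fintype.card V < m)
    (hτ : 4 * m ^ Fintype.card V ≤ 2 ^ ((m / (16 * Fintype.card V)) / L))
    {r : ℕ} (hf : MDep r f) : ∀ {e : ℕ} {S : Finset V} {z : V → Bool} {U : V → Finset (Fin m)}
      {A : Finset (V → Fin m)} {B : Finset (V → Fin m → Bool)}, e + r ≤ d →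
      ¬ St pt pat P f S z U A B e := by
  classical
  induction hf with
  | var r i =>
    intro e S z U A B he h
    obtain ⟨c, α⟩ := i
    have hSe := h.card_S_le
    have hmem : ∀ k, pt c k ∈ S := by
      intro k
      by_contra hk
      obtain ⟨x, hx⟩ := h.A_nonempty
      have h1 := h.thick _ hk x hx
      have hval : ∀ x ∈ A, x (pt c k) = α k := by
        intro x hx
        obtain ⟨x', h2, -, h3⟩ := h.ha x hx
        simp only [yes, decide_eq_true_eq] at h3
        rw [← h2 _ hk]
        exact h3 k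
      have h4 : deg A (pt c k) x ≤ 1 := by
        unfold deg
        rw [Finset.card_le_one]
        intro a ha b hb
        have ha' := hval _ (Finset.mem_filter.1 ha).2
        have hb' := hval _ (Finset.mem_filter.1 hb).2
        rw [update_self] at ha' hb'
        rw [ha', hb']
      have h5 : m ≤ 16 * Fintype.card V * 1 := h1.trans (Nat.mul_le_mul_left _ h4)
      omega
    refine hP2 S z h.good (by omega) c hmem ?_
    intro k
    obtain ⟨x, hx⟩ := h.A_nonempty
    obtain ⟨y, hy⟩ := h.B_nonempty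
    obtain ⟨x', -, h2, h3⟩ := h.ha x hx
    obtain ⟨y', -, h5, h6⟩ := h.hb y hy
    simp only [yes, decide_eq_true_eq] at h3
    simp only [no, Bool.not_eq_false', decide_eq_true_eq] at h6
    have h7 := h2 _ (hmem k)
    rw [h3 k] at h7
    rw [← h5 _ (hmem k) _ h7]
    exact h6 k
  | const r b =>
    intro e S z U A B he h
    obtain ⟨x, hx⟩ := h.A_nonempty
    obtain ⟨y, hy⟩ := h.B_nonempty
    obtain ⟨x', -, -, h3⟩ := h.ha x hx
    obtain ⟨y', -, -, h6⟩ := h.hb y hy
    rw [h3] at h6
    exact Bool.noConfusion h6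
  | @and r g₁ g₂ _ _ ih₁ ih₂ =>
    intro e S z U A B he h
    set B₁ := B.filter fun y => ∃ y', (∀ i, i ∉ S → y' i = y i) ∧
      (∀ i ∈ S, ∀ a ∈ U i, y' i a = z i) ∧ g₁ (no pt pat y') = false with hB₁
    set B₂ := B.filter fun y => ∃ y', (∀ i, i ∉ S → y' i = y i) ∧
      (∀ i ∈ S, ∀ a ∈ U i, y' i a = z i) ∧ g₂ (no pt pat y') = false with hB₂
    have hcov : B ⊆ B₁ ∪ B₂ := by
      intro y hy
      obtain ⟨y', h1, h2, h3⟩ := h.hb y hy
      simp only [Bool.and_eq_false_iff] at h3
      rcases h3 with h3 | h3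
      · exact Finset.mem_union_left _ (Finset.mem_filter.2 ⟨hy, y', h1, h2, h3⟩)
      · exact Finset.mem_union_right _ (Finset.mem_filter.2 ⟨hy, y', h1, h2, h3⟩)
    have hcard : B.card ≤ B₁.card + B₂.card :=
      (Finset.card_le_card hcov).trans (Finset.card_union_le _ _)
    have hda : 4 ^ S.card * m ^ Fintype.card V ≤ 4 ^ (e + 1) * A.card := by
      refine h.da.trans (Nat.mul_le_mul_right _ (Nat.pow_le_pow_right (by norm_num) (by omega)))
    rcases Nat.le_total B₂.card B₁.card with hle | hle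
    · refine ih₁ (e := e + 1) (by omega) (S := S) (z := z) (U := U) (A := A) (B := B₁)
        ⟨h.good, ?_, ?_, h.thick, hda, ?_⟩
      · intro x hx
        obtain ⟨x', h1, h2, h3⟩ := h.ha x hx
        simp only [Bool.and_eq_true] at h3
        exact ⟨x', h1, h2, h3.1⟩
      · intro y hy
        exact (Finset.mem_filter.1 hy).2
      · refine h.db.trans ?_
        calc 4 ^ S.card * 2 ^ e * B.card ≤ 4 ^ S.card * 2 ^ e * (2 * B₁.card) :=
              Nat.mul_le_mul_left _ (by omega)
          _ = 4 ^ S.card * 2 ^ (e + 1) * B₁.card := by ring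
    · refine ih₂ (e := e + 1) (by omega) (S := S) (z := z) (U := U) (A := A) (B := B₂)
        ⟨h.good, ?_, ?_, h.thick, hda, ?_⟩
      · intro x hx
        obtain ⟨x', h1, h2, h3⟩ := h.ha x hx
        simp only [Bool.and_eq_true] at h3
        exact ⟨x', h1, h2, h3.2⟩
      · intro y hy
        exact (Finset.mem_filter.1 hy).2
      · refine h.db.trans ?_
        calc 4 ^ S.card * 2 ^ e * B.card ≤ 4 ^ S.card * 2 ^ e * (2 * B₂.card) :=
              Nat.mul_le_mul_left _ (by omega)
          _ = 4 ^ S.card * 2 ^ (e + 1) * B₂.card := by ring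
  | @or r g₁ g₂ _ _ ih₁ ih₂ =>
    intro e S z U A B he h
    obtain ⟨S, z, U, A, B, h, hclean⟩ := h.cleanup hP1 hdq hL hτ (by omega) e (by omega)
    set A₁ := A.filter fun x => ∃ x', (∀ i, i ∉ S → x' i = x i) ∧ (∀ i ∈ S, x' i ∈ U i) ∧
      g₁ (yes pt x') = true with hA₁
    set A₂ := A.filter fun x => ∃ x', (∀ i, i ∉ S → x' i = x i) ∧ (∀ i ∈ S, x' i ∈ U i) ∧
      g₂ (yes pt x') = true with hA₂
    have hcov : A ⊆ A₁ ∪ A₂ := by
      intro x hx
      obtain ⟨x', h1, h2, h3⟩ := h.ha x hx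
      simp only [Bool.or_eq_true] at h3
      rcases h3 with h3 | h3
      · exact Finset.mem_union_left _ (Finset.mem_filter.2 ⟨hx, x', h1, h2, h3⟩)
      · exact Finset.mem_union_right _ (Finset.mem_filter.2 ⟨hx, x', h1, h2, h3⟩)
    have hcard : A.card ≤ A₁.card + A₂.card :=
      (Finset.card_le_card hcov).trans (Finset.card_union_le _ _)
    have hdb : Fintype.card (V → Fin m → Bool) ≤ 4 ^ S.card * 2 ^ (e + 1) * B.card := by
      refine h.db.trans (Nat.mul_le_mul_right _ (Nat.mul_le_mul_left _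
        (Nat.pow_le_pow_right (by norm_num) (by omega))))
    have hJ : (univ \ S : Finset V).card ≤ Fintype.card V := Finset.card_le_univ _
    have key : ∀ A₀ : Finset (V → Fin m), A₀ ⊆ A → A.card ≤ 2 * A₀.card →
        ∃ A' ⊆ A₀, 4 ^ S.card * m ^ Fintype.card V ≤ 4 ^ (e + 1) * A'.card ∧
          ∀ i, i ∉ S → ∀ x ∈ A', m ≤ 16 * Fintype.card V * deg A' i x := by
      intro A₀ hsub hc
      obtain ⟨A', h1, h2, h3⟩ := thickness (univ \ S) hJ (A := A₀) (by
        intro i hi
        have h4 := hclean i (by simpa using hi)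
        have h5 := Finset.card_le_card (proj_mono i hsub)
        omega)
      refine ⟨A', h1, ?_, ?_⟩
      · refine h.da.trans ?_
        rw [pow_succ]
        calc 4 ^ e * A.card ≤ 4 ^ e * (4 * A'.card) := Nat.mul_le_mul_left _ (by omega)
          _ = 4 ^ e * 4 * A'.card := by ring
      · intro i hi x hx
        have := h3 i (by simpa using hi) x hx
        rwa [Fintype.card_fin] at this
    rcases Nat.le_total A₂.card A₁.card with hle | hle
    · obtain ⟨A', h1, h2, h3⟩ := key A₁ (Finset.filter_subset _ _) (by omega)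
      refine ih₁ (e := e + 1) (by omega) (S := S) (z := z) (U := U) (A := A') (B := B)
        ⟨h.good, ?_, ?_, h3, h2, hdb⟩
      · intro x hx
        exact (Finset.mem_filter.1 (h1 hx)).2
      · intro y hy
        obtain ⟨y', h5, h6, h7⟩ := h.hb y hy
        simp only [Bool.or_eq_false_iff] at h7
        exact ⟨y', h5, h6, h7.1⟩
    · obtain ⟨A', h1, h2, h3⟩ := key A₂ (Finset.filter_subset _ _) (by omega)
      refine ih₂ (e := e + 1) (by omega) (S := S) (z := z) (U := U) (A := A') (B := B)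
        ⟨h.good, ?_, ?_, h3, h2, hdb⟩
      · intro x hx
        exact (Finset.mem_filter.1 (h1 hx)).2
      · intro y hy
        obtain ⟨y', h5, h6, h7⟩ := h.hb y hy
        simp only [Bool.or_eq_false_iff] at h7
        exact ⟨y', h5, h6, h7.2⟩

/-- The lifting theorem, for the whole set of instances. -/
theorem lifting' [NeZero m] {q d L : ℕ}
    (hP1 : ∀ S z, P S z → S.card < q → ∀ i, i ∉ S → ∃ b, P (insert i S) (update z i b))
    (hP2 : ∀ S z, P S z → S.card < q → ∀ c, (∀ k, pt c k ∈ S) → ¬ ∀ k, z (pt c k) = pat c k)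
    (z₀ : V → Bool) (hP0 : P ∅ z₀)
    (hdq : d < q) (hL : 3 * (3 * d + 1) ≤ L) (hm : 16 * Fintype.card V < m)
    (hτ : 4 * m ^ Fintype.card V ≤ 2 ^ ((m / (16 * Fintype.card V)) / L))
    (hf : MDep d f) (hy : ∀ x, f (yes pt x) = true) : ∃ y, f (no pt pat y) = true := by
  by_contra hcon
  push Not at hcon
  refine lifting (e := 0) (S := ∅) (z := z₀) (U := fun _ => ∅) (A := univ) (B := univ)
    hP1 hP2 hdq hL hm hτ hf (by omega) ⟨hP0, ?_, ?_, ?_, ?_, ?_⟩
  · intro x _
    exact ⟨x, fun _ _ => rfl, by simp, hy x⟩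
  · intro y _
    exact ⟨y, fun _ _ => rfl, by simp, by simpa using hcon y⟩
  · intro i _ x _
    have hn : 0 < Fintype.card V := Fintype.card_pos_iff.2 ⟨i⟩
    have : deg (univ : Finset (V → Fin m)) i x = m := by simp [deg]
    rw [this]
    exact Nat.le_mul_of_pos_left m (by positivity)
  · simp
  · simp

end Pool.Agent.V8H38.RM
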