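import Mathlib

/-!
# The pyramid: an adversary for the search problem
-/

namespace Pool.Agent.V8H38.RM

open Finset Function

/-- the nodes of the pyramid of height `h`; only those with `i + j ≤ h` matter -/
abbrev Nd (h : ℕ) : Type := Fin (h + 1) × Fin (h + 1)

/-- the constraints: one for every node, and one for the top -/
abbrev Cn (h : ℕ) : Type := Nd h ⊕ Unit

/-- the first successor -/
def nxt1 {h : ℕ} (v : Nd h) : Nd h := (Fin.ofNat (h + 1) (v.1.val + 1), v.2)

/-- the second successor -/
def nxt2 {h : ℕ} (v : Nd h) : Nd h := (v.1, Fin.ofNat (h + 1) (v.2.val + 1))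

/-- the nodes of a constraint -/
def pts {h : ℕ} : Cn h → Fin 3 → Nd h
  | Sum.inl v => if v.1.val + v.2.val < h then ![v, nxt1 v, nxt2 v] else ![v, v, v]
  | Sum.inr _ => ![(0, 0), (0, 0), (0, 0)]

/-- the violated pattern of a constraint -/
def pats {h : ℕ} : Cn h → Fin 3 → Bool
  | Sum.inl v => if v.1.val + v.2.val < h then ![false, true, true] else ![false, false, false]
  | Sum.inr _ => ![true, true, true]

/-- lattice paths from the origin -/
def IsPath (a b : ℕ → ℕ) : Prop :=
  a 0 = 0 ∧ b 0 = 0 ∧ ∀ k, (a (k + 1) = a k + 1 ∧ b (k + 1) = b k) ∨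
    (a (k + 1) = a k ∧ b (k + 1) = b k + 1)

theorem IsPath.sum {a b : ℕ → ℕ} (h : IsPath a b) (k : ℕ) : a k + b k = k := by
  induction k with
  | zero => rw [h.1, h.2.1]
  | succ k ih => rcases h.2.2 k with ⟨h1, h2⟩ | ⟨h1, h2⟩ <;> omega

theorem IsPath.mono {a b : ℕ → ℕ} (h : IsPath a b) {k l : ℕ} (hkl : k ≤ l) :
    a k ≤ a l ∧ b k ≤ b l := by
  induction l, hkl using Nat.le_induction with
  | base => exact ⟨le_refl _, le_refl _⟩
  | succ l _ ih => rcases h.2.2 l with ⟨h1, h2⟩ | ⟨h1, h2⟩ <;> omega

/-- the invariant of the adversary -/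
def Adv (h : ℕ) (S : Finset (Nd h)) (z : Nd h → Bool) : Prop :=
  ∃ (a b : ℕ → ℕ) (r : ℕ), IsPath a b ∧ r ≤ h ∧
    (∀ v ∈ S, z v = true → ∀ k ≤ h, ¬ (v.1.val = a k ∧ v.2.val = b k)) ∧
    (∀ v ∈ S, z v = false → ∃ k ≤ r, v.1.val = a k ∧ v.2.val = b k) ∧
    r ≤ (S.filter fun v => z v = true ∧ ¬ (a r ≤ v.1.val ∧ b r ≤ v.2.val)).card

theorem adv_init (h : ℕ) : Adv h ∅ (fun _ => false) := by
  refine ⟨fun k => k, fun _ => 0, 0, ⟨rfl, rfl, fun k => Or.inl ⟨rfl, rfl⟩⟩, by omega, by simp,
    by simp, by simp⟩

theorem adv_safe (h : ℕ) (S : Finset (Nd h)) (z : Nd h → Bool) (hA : Adv h S z)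
    (hS : S.card < h) (c : Cn h) (hc : ∀ k, pts c k ∈ S) : ¬ ∀ k, z (pts c k) = pats c k := by
  intro hviol
  obtain ⟨a, b, r, hp, hr, h1, h0, hcard⟩ := hA
  have hrS : r < h := by
    have := Finset.card_filter_le S fun v => z v = true ∧ ¬ (a r ≤ v.1.val ∧ b r ≤ v.2.val)
    omega
  rcases c with v | u
  · by_cases hv : v.1.val + v.2.val < h
    · have c0 := hc 0
      have c1 := hc 1
      have c2 := hc 2
      have v0 := hviol 0
      have v1 := hviol 1
      have v2 := hviol 2
      simp only [pts, pats, hv, if_true, Matrix.cons_val_zero, Matrix.cons_val_one,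
        Matrix.cons_val] at c0 c1 c2 v0 v1 v2
      obtain ⟨k, hk, hk1, hk2⟩ := h0 v c0 v0
      have hsum := hp.sum k
      rcases hp.2.2 k with ⟨e1, e2⟩ | ⟨e1, e2⟩
      · refine h1 _ c1 v1 (k + 1) (by omega) ⟨?_, ?_⟩
        · simp only [nxt1, Fin.ofNat]
          rw [Nat.mod_eq_of_lt (by omega)]
          omega
        · simp only [nxt1]
          omega
      · refine h1 _ c2 v2 (k + 1) (by omega) ⟨?_, ?_⟩
        · simp only [nxt2]
          omega
        · simp only [nxt2, Fin.ofNat]
          rw [Nat.mod_eq_of_lt (by omega)]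
          omega
    · have c0 := hc 0
      have v0 := hviol 0
      simp only [pts, pats, hv, if_false, Matrix.cons_val_zero] at c0 v0
      obtain ⟨k, hk, hk1, hk2⟩ := h0 v c0 v0
      have hsum := hp.sum k
      omega
  · have c0 := hc 0
    have v0 := hviol 0
    simp only [pts, pats, Matrix.cons_val_zero] at c0 v0
    exact h1 _ c0 v0 0 (by omega) ⟨by simp [hp.1], by simp [hp.2.1]⟩

theorem adv_step (h : ℕ) (S : Finset (Nd h)) (z : Nd h → Bool) (hA : Adv h S z)
    (v : Nd h) (hv : v ∉ S) : ∃ b, Adv h (insert v S) (update z v b) := by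
  classical
  obtain ⟨a, b, r, hp, hr, h1, h0, hcard⟩ := hA
  have hne : ∀ u ∈ S, u ≠ v := fun u hu e => hv (e ▸ hu)
  by_cases hcase1 : ∃ k ≤ r, v.1.val = a k ∧ v.2.val = b k
  · refine ⟨false, a, b, r, hp, hr, ?_, ?_, ?_⟩
    · intro u hu hz
      rcases Finset.mem_insert.1 hu with rfl | hu
      · rw [update_self] at hz; exact absurd hz (by decide)
      · rw [update_of_ne (hne u hu)] at hz
        exact h1 u hu hz
    · intro u hu hz
      rcases Finset.mem_insert.1 hu with rfl | hu
      · exact hcase1
      · rw [update_of_ne (hne u hu)] at hz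
        exact h0 u hu hz
    · refine hcard.trans (Finset.card_le_card ?_)
      intro u hu
      rw [Finset.mem_filter] at hu ⊢
      rw [update_of_ne (hne u hu.1)]
      exact ⟨Finset.mem_insert_of_mem hu.1, hu.2⟩
  by_cases hcase2 : ∃ a' b' : ℕ → ℕ, IsPath a' b' ∧ (∀ k ≤ r, a' k = a k ∧ b' k = b k) ∧
      (∀ u ∈ S, z u = true → ∀ k ≤ h, ¬ (u.1.val = a' k ∧ u.2.val = b' k)) ∧
      ∀ k ≤ h, ¬ (v.1.val = a' k ∧ v.2.val = b' k)
  · obtain ⟨a', b', hp', hsame, h1', hv'⟩ := hcase2
    refine ⟨true, a', b', r, hp', hr, ?_, ?_, ?_⟩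
    · intro u hu hz
      rcases Finset.mem_insert.1 hu with rfl | hu
      · exact hv'
      · rw [update_of_ne (hne u hu)] at hz
        exact h1' u hu hz
    · intro u hu hz
      rcases Finset.mem_insert.1 hu with rfl | hu
      · rw [update_self] at hz; exact absurd hz (by decide)
      · rw [update_of_ne (hne u hu)] at hz
        obtain ⟨k, hk, hk2⟩ := h0 u hu hz
        refine ⟨k, hk, ?_⟩
        rw [(hsame k hk).1, (hsame k hk).2]
        exact hk2
    · refine hcard.trans (Finset.card_le_card ?_)
      intro u hu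
      rw [Finset.mem_filter] at hu ⊢
      rw [update_of_ne (hne u hu.1), (hsame r le_rfl).1, (hsame r le_rfl).2]
      exact ⟨Finset.mem_insert_of_mem hu.1, hu.2⟩
  -- the third case
  push Not at hcase2
  have hj : ∃ j, r < j ∧ j ≤ h ∧ v.1.val = a j ∧ v.2.val = b j := by
    obtain ⟨k, hk, hk1, hk2⟩ := hcase2 a b hp (fun k _ => ⟨rfl, rfl⟩)
      (fun u hu hz k hk h' => fun h'' => h1 u hu hz k hk ⟨h', h''⟩)
    refine ⟨k, ?_, hk, hk1, hk2⟩
    by_contra hkr
    push Not at hkr
    exact hcase1 ⟨k, hkr, hk1, hk2⟩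
  obtain ⟨j, hrj, hjh, hj1, hj2⟩ := hj
  -- blocking nodes
  have hblock : ∀ k, r ≤ k → k < j → ∃ u ∈ S, z u = true ∧
      ((a (k + 1) = a k + 1 ∧ u.1.val = a k ∧ b k < u.2.val) ∨
        (b (k + 1) = b k + 1 ∧ u.2.val = b k ∧ a k < u.1.val)) := by
    intro k hrk hkj
    have hsk := hp.sum k
    have hsj := hp.sum j
    rcases hp.2.2 k with ⟨e1, e2⟩ | ⟨e1, e2⟩
    · -- deviate in the second direction
      set a' : ℕ → ℕ := fun l => if l ≤ k then a l else a k with ha'
      set b' : ℕ → ℕ := fun l => if l ≤ k then b l else b k + (l - k) with hb'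
      have hp' : IsPath a' b' := by
        refine ⟨by simp [ha', hp.1], by simp [hb', hp.2.1], ?_⟩
        intro l
        rcases lt_trichotomy l k with hl | hl | hl
        · have h2 : l ≤ k := hl.le
          have h3 : l + 1 ≤ k := hl
          simp only [ha', hb', h2, h3, if_true]
          exact hp.2.2 l
        · subst hl
          have h3 : ¬ l + 1 ≤ l := by omega
          simp only [ha', hb', le_refl, h3, if_true, if_false]
          right
          constructor
          · trivial
          · omega
        · have h2 : ¬ l ≤ k := by omega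
          have h3 : ¬ l + 1 ≤ k := by omega
          simp only [ha', hb', h2, h3, if_false]
          right
          constructor
          · trivial
          · omega
      by_contra hno
      push Not at hno
      obtain ⟨l, hl, hl1, hl2⟩ := hcase2 a' b' hp' (fun l hl => by
        have : l ≤ k := by omega
        simp [ha', hb', this]) (by
        intro u hu hz l hl hl1
        by_cases hlk : l ≤ k
        · simp only [ha', hb', hlk, if_true] at hl1 ⊢
          intro hl2
          exact h1 u hu hz l hl ⟨hl1, hl2⟩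
        · simp only [ha', hb', hlk, if_false] at hl1 ⊢
          intro hl2
          exact (hno u hu hz).1 e1 hl1 |>.not_gt (by omega))
      by_cases hlk : l ≤ k
      · simp only [ha', hb', hlk, if_true] at hl1 hl2
        have := hp.sum l
        omega
      · simp only [ha', hb', hlk, if_false] at hl1 hl2
        have := (hp.mono (show k + 1 ≤ j by omega)).1
        omega
    · set a' : ℕ → ℕ := fun l => if l ≤ k then a l else a k + (l - k) with ha'
      set b' : ℕ → ℕ := fun l => if l ≤ k then b l else b k with hb'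
      have hp' : IsPath a' b' := by
        refine ⟨by simp [ha', hp.1], by simp [hb', hp.2.1], ?_⟩
        intro l
        rcases lt_trichotomy l k with hl | hl | hl
        · have h2 : l ≤ k := hl.le
          have h3 : l + 1 ≤ k := hl
          simp only [ha', hb', h2, h3, if_true]
          exact hp.2.2 l
        · subst hl
          have h3 : ¬ l + 1 ≤ l := by omega
          simp only [ha', hb', le_refl, h3, if_true, if_false]
          left
          constructor
          · omega
          · trivial
        · have h2 : ¬ l ≤ k := by omega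
          have h3 : ¬ l + 1 ≤ k := by omega
          simp only [ha', hb', h2, h3, if_false]
          left
          constructor
          · omega
          · trivial
      by_contra hno
      push Not at hno
      obtain ⟨l, hl, hl1, hl2⟩ := hcase2 a' b' hp' (fun l hl => by
        have : l ≤ k := by omega
        simp [ha', hb', this]) (by
        intro u hu hz l hl hl1
        by_cases hlk : l ≤ k
        · simp only [ha', hb', hlk, if_true] at hl1 ⊢
          intro hl2
          exact h1 u hu hz l hl ⟨hl1, hl2⟩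
        · simp only [ha', hb', hlk, if_false] at hl1 ⊢
          intro hl2
          exact (hno u hu hz).2 e2 hl2 |>.not_gt (by omega))
      by_cases hlk : l ≤ k
      · simp only [ha', hb', hlk, if_true] at hl1 hl2
        have := hp.sum l
        omega
      · simp only [ha', hb', hlk, if_false] at hl1 hl2
        have := (hp.mono (show k + 1 ≤ j by omega)).2
        omega
  choose! u huS huz hu using hblock
  refine ⟨false, a, b, j, hp, hjh, ?_, ?_, ?_⟩
  · intro w hw hz
    rcases Finset.mem_insert.1 hw with rfl | hw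
    · rw [update_self] at hz; exact absurd hz (by decide)
    · rw [update_of_ne (hne w hw)] at hz
      exact h1 w hw hz
  · intro w hw hz
    rcases Finset.mem_insert.1 hw with rfl | hw
    · exact ⟨j, le_rfl, hj1, hj2⟩
    · rw [update_of_ne (hne w hw)] at hz
      obtain ⟨k, hk, hk2⟩ := h0 w hw hz
      exact ⟨k, by omega, hk2⟩
  · set O := S.filter fun v => z v = true ∧ ¬ (a r ≤ v.1.val ∧ b r ≤ v.2.val) with hO
    set N := (Finset.Ico r j).image u with hN
    have hNcard : N.card = j - r := by
      rw [hN, Finset.card_image_of_injOn, Nat.card_Ico]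
      have key : ∀ k ∈ Finset.Ico r j, ∀ k' ∈ Finset.Ico r j, k < k' → u k ≠ u k' := by
        intro k hk k' hk' hlt heq
        rw [Finset.mem_Ico] at hk hk'
        have m1 := hp.mono (show k + 1 ≤ k' by omega)
        have p1 := hu k hk.1 hk.2
        have p2 := hu k' hk'.1 hk'.2
        rw [heq] at p1
        rcases p1 with ⟨q1, q2, q3⟩ | ⟨q1, q2, q3⟩ <;> rcases p2 with ⟨s1, s2, s3⟩ | ⟨s1, s2, s3⟩ <;>
          omega
      intro k hk k' hk' heq
      rw [Finset.mem_coe] at hk hk'
      rcases lt_trichotomy k k' with hlt | he | hgt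
      · exact absurd heq (key k hk k' hk' hlt)
      · exact he
      · exact absurd heq.symm (key k' hk' k hk hgt)
    have hdisj : Disjoint O N := by
      rw [Finset.disjoint_left]
      intro w hw hw'
      rw [hO, Finset.mem_filter] at hw
      rw [hN, Finset.mem_image] at hw'
      obtain ⟨k, hk, rfl⟩ := hw'
      rw [Finset.mem_Ico] at hk
      have m1 := hp.mono hk.1
      have p1 := hu k hk.1 hk.2
      apply hw.2.2
      rcases p1 with ⟨q1, q2, q3⟩ | ⟨q1, q2, q3⟩ <;> constructor <;> omega
    have hsub : O ∪ N ⊆ (insert v S).filter fun w => update z v false w = true ∧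
        ¬ (a j ≤ w.1.val ∧ b j ≤ w.2.val) := by
      intro w hw
      rw [Finset.mem_filter]
      rcases Finset.mem_union.1 hw with hw | hw
      · rw [hO, Finset.mem_filter] at hw
        rw [update_of_ne (hne w hw.1)]
        refine ⟨Finset.mem_insert_of_mem hw.1, hw.2.1, fun hc => hw.2.2 ?_⟩
        have m1 := hp.mono hrj.le
        omega
      · rw [hN, Finset.mem_image] at hw
        obtain ⟨k, hk, rfl⟩ := hw
        rw [Finset.mem_Ico] at hk
        rw [update_of_ne (hne _ (huS k hk.1 hk.2))]
        refine ⟨Finset.mem_insert_of_mem (huS k hk.1 hk.2), huz k hk.1 hk.2, ?_⟩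
        have m1 := hp.mono (show k + 1 ≤ j by omega)
        have p1 := hu k hk.1 hk.2
        rcases p1 with ⟨q1, q2, q3⟩ | ⟨q1, q2, q3⟩ <;> omega
    calc j ≤ O.card + N.card := by omega
      _ = (O ∪ N).card := (Finset.card_union_of_disjoint hdisj).symm
      _ ≤ _ := Finset.card_le_card hsub

end Pool.Agent.V8H38.RM
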