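import Pool.Agent.V8H38.RM.Prog
import Pool.Agent.V8H38.RM.Pyramid
import Pool.Agent.V8H38.RM.Main

/-!
# The function: derivability in the pyramid
-/

namespace Pool.Agent.V8H38.RM

open Finset

variable {h m : ℕ}

/-- the variables -/
abbrev Vr (h m : ℕ) : Type := Cn h × (Fin 3 → Fin m)

/-- the element `(v, l)` is derived; `t` is the distance to the bottom row -/
def der (x : Vr h m → Bool) : ℕ → Nd h → Fin m → Bool
  | 0, v, l => x (Sum.inl v, fun _ => l)
  | t + 1, v, l => decide (∃ p ∈ (univ : Finset (Fin m × Fin m)),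
      (x (Sum.inl v, ![l, p.1, p.2]) && der x t (nxt1 v) p.1 && der x t (nxt2 v) p.2) = true)

/-- the goal is derived -/
def goal (x : Vr h m → Bool) : Bool :=
  decide (∃ l ∈ (univ : Finset (Fin m)), (x (Sum.inr (), fun _ => l) && der x h (0, 0) l) = true)

theorem sum_nxt1 {v : Nd h} (hv : v.1.val + v.2.val < h) :
    (nxt1 v).1.val + (nxt1 v).2.val = v.1.val + v.2.val + 1 := by
  simp only [nxt1, Fin.ofNat]
  rw [Nat.mod_eq_of_lt (by omega)]
  omega

theorem sum_nxt2 {v : Nd h} (hv : v.1.val + v.2.val < h) :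
    (nxt2 v).1.val + (nxt2 v).2.val = v.1.val + v.2.val + 1 := by
  simp only [nxt2, Fin.ofNat]
  rw [Nat.mod_eq_of_lt (by omega)]
  omega

theorem der_yes (x : Nd h → Fin m) (t : ℕ) : ∀ v : Nd h, v.1.val + v.2.val + t = h →
    der (yes pts x) t v (x v) = true := by
  induction t with
  | zero =>
    intro v hv
    have h1 : ¬ v.1.val + v.2.val < h := by omega
    simp only [der, yes, pts, h1, if_false, decide_eq_true_eq]
    intro k
    fin_cases k <;> rfl
  | succ t ih =>
    intro v hv
    have h1 : v.1.val + v.2.val < h := by omega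
    simp only [der, decide_eq_true_eq, Bool.and_eq_true]
    refine ⟨(x (nxt1 v), x (nxt2 v)), mem_univ _, ⟨?_, ih _ (by rw [sum_nxt1 h1]; omega)⟩,
      ih _ (by rw [sum_nxt2 h1]; omega)⟩
    simp only [yes, pts, h1, if_true, decide_eq_true_eq]
    intro k
    fin_cases k <;> rfl

theorem goal_yes (x : Nd h → Fin m) : goal (yes pts x) = true := by
  simp only [goal, decide_eq_true_eq, Bool.and_eq_true]
  refine ⟨x (0, 0), mem_univ _, ?_, der_yes x h (0, 0) (by simp)⟩
  unfold yes
  rw [decide_eq_true_eq]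
  intro k
  fin_cases k <;> rfl

theorem der_no (y : Nd h → Fin m → Bool) (t : ℕ) : ∀ (v : Nd h) (l : Fin m),
    v.1.val + v.2.val + t = h → der (no pts pats y) t v l = true → y v l = true := by
  induction t with
  | zero =>
    intro v l hv hd
    have h1 : ¬ v.1.val + v.2.val < h := by omega
    simp only [der, no, pts, pats, h1, if_false, Bool.not_eq_true', decide_eq_false_iff_not] at hd
    by_contra hc
    apply hd
    intro k
    rw [Bool.not_eq_true] at hc
    fin_cases k <;> exact hc
  | succ t ih =>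
    intro v l hv hd
    have h1 : v.1.val + v.2.val < h := by omega
    simp only [der, decide_eq_true_eq, Bool.and_eq_true] at hd
    obtain ⟨p, _, ⟨h2, h3⟩, h4⟩ := hd
    have h5 := ih _ _ (by rw [sum_nxt1 h1]; omega) h3
    have h6 := ih _ _ (by rw [sum_nxt2 h1]; omega) h4
    simp only [no, pts, pats, h1, if_true, Bool.not_eq_true', decide_eq_false_iff_not] at h2
    by_contra hc
    apply h2
    intro k
    rw [Bool.not_eq_true] at hc
    fin_cases k
    · exact hc
    · exact h5
    · exact h6

theorem goal_no (y : Nd h → Fin m → Bool) : goal (no pts pats y) = false := by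
  rw [← Bool.not_eq_true]
  intro hg
  simp only [goal, decide_eq_true_eq, Bool.and_eq_true] at hg
  obtain ⟨l, _, h1, h2⟩ := hg
  have h3 := der_no y h (0, 0) l (by simp) h2
  unfold no at h1
  rw [Bool.not_eq_true', decide_eq_false_iff_not] at h1
  apply h1
  intro k
  fin_cases k <;> exact h3

theorem der_zero (t : ℕ) (v : Nd h) (l : Fin m) : der (fun _ => false) t v l = false := by
  cases t with
  | zero => rfl
  | succ t => simp [der]

theorem goal_zero : goal (h := h) (m := m) (fun _ => false) = false := by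
  simp [goal]

/-- **The lower bound for the monotone depth of the function.** -/
theorem hard [NeZero m] {d L : ℕ} (hd : d < h) (hL : 3 * (3 * d + 1) ≤ L)
    (hm : 16 * (h + 1) ^ 2 < m)
    (hτ : 4 * m ^ ((h + 1) ^ 2) ≤ 2 ^ ((m / (16 * (h + 1) ^ 2)) / L))
    (f : (Vr h m → Bool) → Bool) (hf : MDep d f) (hy : ∀ x, f (yes pts x) = true) :
    ∃ y, f (no pts pats y) = true := by
  have hcard : Fintype.card (Nd h) = (h + 1) ^ 2 := by
    simp [Nd, sq]
  refine lifting' (V := Nd h) (C := Cn h) (P := Adv h) (q := h) (d := d) (L := L)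
    (fun S z hP _ i hi => adv_step h S z hP i hi)
    (fun S z hP hS c hc => adv_safe h S z hP hS c hc) (fun _ => false) (adv_init h)
    hd hL (by rw [hcard]; exact hm) (by rw [hcard]; exact hτ) hf hy

/-! ### programs -/

variable {n : ℕ}

/-- the set of the variables -/
def inputs (n : ℕ) : Set ((Fin n → Bool) → Bool) := {f | ∃ i, f = fun x => x i}

/-- the functions of one row -/
def row (ρ : Vr h m → Fin n) (t : ℕ) : Set ((Fin n → Bool) → Bool) :=
  {f | ∃ z ∈ (univ : Finset (Nd h × Fin m)), f = fun x => der (fun e => x (ρ e)) t z.1 z.2}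

theorem gen_row (ρ : Vr h m → Fin n) (t : ℕ) :
    Gen ((3 * (m * m) + 1) * ((h + 1) * (h + 1) * m)) (inputs n ∪ row ρ t) (row ρ (t + 1)) := by
  have h1 : ∀ z ∈ (univ : Finset (Nd h × Fin m)), Gen (3 * (m * m) + 1) (inputs n ∪ row ρ t)
      {fun x => der (fun e => x (ρ e)) (t + 1) z.1 z.2} := by
    intro z _
    -- first ANDs
    have a1 : Gen (1 * (univ : Finset (Fin m × Fin m)).card) (inputs n ∪ row ρ t)
        {f | ∃ p ∈ (univ : Finset (Fin m × Fin m)), f = fun x =>
          x (ρ (Sum.inl z.1, ![z.2, p.1, p.2])) && der (fun e => x (ρ e)) t (nxt1 z.1) p.1} :=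
      Gen.all univ _ fun p _ => (Gen.and _ _).mono le_rfl (by
        rintro f (rfl | hf)
        · exact Or.inl ⟨_, rfl⟩
        · rw [Set.mem_singleton_iff] at hf
          exact Or.inr ⟨(nxt1 z.1, p.1), mem_univ _, hf⟩) (subset_refl _)
    have a2 : Gen (1 * (univ : Finset (Fin m × Fin m)).card) ((inputs n ∪ row ρ t) ∪
        {f | ∃ p ∈ (univ : Finset (Fin m × Fin m)), f = fun x =>
          x (ρ (Sum.inl z.1, ![z.2, p.1, p.2])) && der (fun e => x (ρ e)) t (nxt1 z.1) p.1})
        {f | ∃ p ∈ (univ : Finset (Fin m × Fin m)), f = fun x =>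
          (x (ρ (Sum.inl z.1, ![z.2, p.1, p.2])) && der (fun e => x (ρ e)) t (nxt1 z.1) p.1) &&
            der (fun e => x (ρ e)) t (nxt2 z.1) p.2} :=
      Gen.all univ _ fun p _ => (Gen.and _ _).mono le_rfl (by
        rintro f (rfl | hf)
        · exact Or.inr ⟨p, mem_univ _, rfl⟩
        · rw [Set.mem_singleton_iff] at hf
          exact Or.inl (Or.inr ⟨(nxt2 z.1, p.2), mem_univ _, hf⟩)) (subset_refl _)
    have a3 := Gen.orAll (univ : Finset (Fin m × Fin m)) (fun p (x : Fin n → Bool) =>
          (x (ρ (Sum.inl z.1, ![z.2, p.1, p.2])) && der (fun e => x (ρ e)) t (nxt1 z.1) p.1) &&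
            der (fun e => x (ρ e)) t (nxt2 z.1) p.2)
    refine ((a1.trans a2).trans (a3.mono le_rfl ?_ (subset_refl _))).mono ?_ (subset_refl _) ?_
    · intro f hf
      exact Or.inr (Or.inr hf)
    · simp only [card_univ, Fintype.card_prod, Fintype.card_fin]
      omega
    · intro f hf
      exact Or.inr hf
  have h2 := Gen.all (univ : Finset (Nd h × Fin m)) _ h1
  refine h2.mono ?_ (subset_refl _) (subset_refl _)
  simp [Nd]

theorem gen_rows (ρ : Vr h m → Fin n) (t : ℕ) :
    Gen (((3 * (m * m) + 1) * ((h + 1) * (h + 1) * m)) * t) (inputs n) (row ρ t) := by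
  induction t with
  | zero =>
    refine Gen.refl ?_
    rintro f ⟨z, _, rfl⟩
    exact ⟨_, rfl⟩
  | succ t ih =>
    exact (ih.trans (gen_row ρ t)).mono (le_of_eq (by ring)) (subset_refl _)
      Set.subset_union_right

theorem gen_goal (ρ : Vr h m → Fin n) :
    Gen (((3 * (m * m) + 1) * ((h + 1) * (h + 1) * m)) * h + (2 * m + 1)) (inputs n)
      {fun x => goal fun e => x (ρ e)} := by
  have a1 : Gen (1 * (univ : Finset (Fin m)).card) (inputs n ∪ row ρ h)
      {f | ∃ l ∈ (univ : Finset (Fin m)), f = fun x =>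
        x (ρ (Sum.inr (), fun _ => l)) && der (fun e => x (ρ e)) h (0, 0) l} :=
    Gen.all univ _ fun l _ => (Gen.and _ _).mono le_rfl (by
      rintro f (rfl | hf)
      · exact Or.inl ⟨_, rfl⟩
      · rw [Set.mem_singleton_iff] at hf
        exact Or.inr ⟨((0, 0), l), mem_univ _, hf⟩) (subset_refl _)
  have a2 := Gen.orAll (univ : Finset (Fin m)) (fun l (x : Fin n → Bool) =>
        x (ρ (Sum.inr (), fun _ => l)) && der (fun e => x (ρ e)) h (0, 0) l)
  refine ((gen_rows ρ h).trans (a1.trans (a2.mono le_rfl ?_ (subset_refl _)))).mono ?_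
    (subset_refl _) ?_
  · intro f hf
    exact Or.inr hf
  · simp only [card_univ, Fintype.card_fin]
    omega
  · intro f hf
    refine Or.inr (Or.inr ?_)
    rw [Set.mem_singleton_iff] at hf ⊢
    rw [hf]
    funext x
    unfold goal
    congr

/-- the OR of the copies -/
theorem gen_copies {R : ℕ} (ρ : Fin R → Vr h m → Fin n) :
    Gen ((((3 * (m * m) + 1) * ((h + 1) * (h + 1) * m)) * h + (2 * m + 1)) * R + (R + 1))
      (inputs n) {fun x => decide (∃ i ∈ (univ : Finset (Fin R)), goal (fun e => x (ρ i e)) = true)}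
      := by
  have a1 := Gen.all (univ : Finset (Fin R)) (S := inputs n)
    (fun i (x : Fin n → Bool) => goal fun e => x (ρ i e)) fun i _ => gen_goal (ρ i)
  have a2 := Gen.orAll (univ : Finset (Fin R)) (fun i (x : Fin n → Bool) =>
    goal fun e => x (ρ i e))
  refine (a1.trans (a2.mono le_rfl ?_ (subset_refl _))).mono ?_ (subset_refl _) ?_
  · intro f hf
    exact Or.inr hf
  · simp only [card_univ, Fintype.card_fin]
    omega
  · intro f hf
    refine Or.inr ?_
    rw [Set.mem_singleton_iff] at hf ⊢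
    rw [hf]
    funext x
    congr

end Pool.Agent.V8H38.RM
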