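import Pool.Agent.V8H38.RM.Deriv
import Pool.Agent.V8H38.RM.Chain

/-!
# The lower bound for the monotone circuit value problem
-/

namespace Pool.Agent.V8H38.RM

open Finset Function Pool.Agent.V8H38.NL

theorem four_pow_le (h : ℕ) (hh : 100 ≤ h) : 4 * h ^ 8 ≤ 2 ^ h := by
  induction h, hh using Nat.le_induction with
  | base => norm_num
  | succ h hh ih =>
    have h1 : (h + 1) ^ 8 ≤ 2 * h ^ 8 := by
      have h2 : (100 * (h + 1)) ^ 8 ≤ (101 * h) ^ 8 := Nat.pow_le_pow_left (by omega) 8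
      rw [mul_pow, mul_pow] at h2
      have h3 : (101:ℕ) ^ 8 ≤ 2 * 100 ^ 8 := by norm_num
      have h4 : 100 ^ 8 * (h + 1) ^ 8 ≤ 100 ^ 8 * (2 * h ^ 8) := by
        calc 100 ^ 8 * (h + 1) ^ 8 ≤ 101 ^ 8 * h ^ 8 := h2
          _ ≤ (2 * 100 ^ 8) * h ^ 8 := Nat.mul_le_mul_right _ h3
          _ = 100 ^ 8 * (2 * h ^ 8) := by ring
      exact Nat.le_of_mul_le_mul_left h4 (by norm_num)
    calc 4 * (h + 1) ^ 8 ≤ 4 * (2 * h ^ 8) := Nat.mul_le_mul_left _ h1
      _ = 2 * (4 * h ^ 8) := by ring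
      _ ≤ 2 * 2 ^ h := Nat.mul_le_mul_left _ ih
      _ = 2 ^ (h + 1) := by rw [pow_succ]; ring

/-- the parameters -/
theorem params (h m N : ℕ) (hh : 100 ≤ h) (hN : N = (h + 1) ^ 2) (hm : m = 144 * N ^ 2 * h ^ 2) :
    N ≤ 4 * h ^ 2 ∧ m ≤ h ^ 8 ∧ 16 * N < m ∧ m / (16 * N) / (9 * h) = N * h ∧
      4 * m ^ N ≤ 2 ^ (m / (16 * N) / (9 * h)) := by
  have hN1 : N ≤ 4 * h ^ 2 := by
    rw [hN]; nlinarith
  have hNpos : 0 < N := by rw [hN]; positivity
  have hm1 : m ≤ h ^ 8 := by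
    rw [hm]
    calc 144 * N ^ 2 * h ^ 2 ≤ 144 * (4 * h ^ 2) ^ 2 * h ^ 2 :=
          Nat.mul_le_mul_right _ (Nat.mul_le_mul_left _ (Nat.pow_le_pow_left hN1 2))
      _ = 2304 * h ^ 6 := by ring
      _ ≤ h ^ 2 * h ^ 6 := Nat.mul_le_mul_right _ (by nlinarith)
      _ = h ^ 8 := by ring
  have hm2 : 16 * N < m := by
    rw [hm]
    have h1 : 1 ≤ N * h ^ 2 := Nat.one_le_iff_ne_zero.2 (by positivity)
    calc 16 * N < 144 * N * 1 := by omega
      _ ≤ 144 * N * (N * h ^ 2) := Nat.mul_le_mul_left _ h1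
      _ = 144 * N ^ 2 * h ^ 2 := by ring
  have hdiv : m / (16 * N) / (9 * h) = N * h := by
    rw [Nat.div_div_eq_div_mul]
    refine Nat.div_eq_of_eq_mul_right (by positivity) ?_
    rw [hm]; ring
  refine ⟨hN1, hm1, hm2, hdiv, ?_⟩
  rw [hdiv]
  have h4 : 4 * m ≤ 2 ^ h := (Nat.mul_le_mul_left 4 hm1).trans (four_pow_le h hh)
  calc 4 * m ^ N ≤ 4 ^ N * m ^ N := Nat.mul_le_mul_right _ (by
        calc 4 = 4 ^ 1 := by norm_num
          _ ≤ 4 ^ N := Nat.pow_le_pow_right (by norm_num) hNpos)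
    _ = (4 * m) ^ N := by rw [mul_pow]
    _ ≤ (2 ^ h) ^ N := Nat.pow_le_pow_left h4 N
    _ = 2 ^ (N * h) := by rw [← pow_mul, mul_comm]

theorem agree_le_one {n : ℕ} {D : (Fin n → Bool) → ℝ} (hD0 : ∀ x, 0 ≤ D x) (hD1 : ∑ x, D x = 1)
    (C : Net n) (f : (Fin n → Bool) → Prop) : C.agree D f ≤ 1 := by
  unfold Net.agree
  rw [← hD1]
  refine Finset.sum_le_sum fun x _ => ?_
  split_ifs
  · exact le_rfl
  · exact hD0 x

/-- small numbers of inputs -/
theorem trivial_case {n t a : ℕ} (hn : 0 < n) (h : n ≤ 2 * t ^ a) :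
    ∃ p : List (Letter ⊕ Fin n), p.length ≤ n ^ 3 ∧ p.filterMap Sum.getRight? = List.finRange n ∧
    ∃ D : (Fin n → Bool) → ℝ, (∀ x, 0 ≤ D x) ∧ ∑ x, D x = 1 ∧
      ∀ (C : Net n) (lev : ℕ → ℕ),
        C.agree D (fun x => fill p x ∈ MCV) ≤ 1 / 2 + C.combos lev * (t : ℝ) ^ a / n := by
  classical
  refine ⟨write (vars n), ?_, getRight_vars n, fun x => if x = (fun _ => false) then 1 else 0,
    ?_, by simp, ?_⟩
  · refine (length_write_le (vars n) 1 ?_).trans ?_
    · intro b hb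
      unfold vars at hb
      obtain ⟨i, _, rfl⟩ := List.mem_map.1 hb
      simp [PI.text]
    · have : (vars n).length = n := by simp [vars]
      rw [this, mul_one]
      exact Nat.le_self_pow (by norm_num) n
  · intro x
    dsimp only
    split_ifs <;> norm_num
  · intro C lev
    have h1 : C.agree (fun x => if x = (fun _ => false) then (1:ℝ) else 0)
        (fun x => fill (write (vars n)) x ∈ MCV) ≤ 1 := by
      refine agree_le_one (fun x => ?_) (by simp) C _
      split_ifs <;> norm_num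
    have hnr : (0:ℝ) < n := by exact_mod_cast hn
    have hcomb : (1:ℝ) ≤ C.combos lev := by
      have := card_cuts (C := C) (lev := lev)
      have : 1 ≤ C.combos lev := by omega
      exact_mod_cast this
    have h2 : (n:ℝ) ≤ 2 * (t:ℝ) ^ a := by exact_mod_cast h
    have h3 : (1:ℝ) / 2 ≤ C.combos lev * (t : ℝ) ^ a / n := by
      rw [div_le_div_iff₀ (by norm_num) hnr]
      have h4 : (0:ℝ) ≤ (t:ℝ) ^ a := by positivity
      nlinarith
    linarith

/-- **The main theorem.** -/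
theorem main : ∃ a : ℕ, ∀ n t : ℕ, 0 < n → 2 ≤ t → Nat.log 2 n ≤ t →
    ∃ p : List (Letter ⊕ Fin n), p.length ≤ n ^ 3 ∧ p.filterMap Sum.getRight? = List.finRange n ∧
    ∃ D : (Fin n → Bool) → ℝ, (∀ x, 0 ≤ D x) ∧ ∑ x, D x = 1 ∧
      ∀ (C : Net n) (lev : ℕ → ℕ), C.Layered lev → C.depth ≤ t →
        C.agree D (fun x => fill p x ∈ MCV) ≤ 1 / 2 + C.combos lev * (t : ℝ) ^ a / n := by
  classical
  refine ⟨400, fun n t hnpos ht2 hlt => ?_⟩
  by_cases hsmall : n ≤ 2 * t ^ 400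
  · obtain ⟨p, h1, h2, D, h3, h4, h5⟩ := trivial_case hnpos hsmall
    exact ⟨p, h1, h2, D, h3, h4, fun C lev _ _ => h5 C lev⟩
  push Not at hsmall
  set l := Nat.log 2 n with hl
  have hnl : n < 2 ^ (l + 1) := Nat.lt_pow_succ_log_self (by norm_num) n
  have hnt : n < 2 ^ (t + 1) := hnl.trans_le (Nat.pow_le_pow_right (by norm_num) (by omega))
  have htt : t ^ 400 < 2 ^ t := by
    rw [pow_succ] at hnt
    omega
  have ht400 : 400 < t := by
    have h1 : 2 ^ 400 ≤ t ^ 400 := Nat.pow_le_pow_left ht2 400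
    exact (Nat.pow_lt_pow_iff_right (by norm_num)).1 (h1.trans_lt htt)
  obtain ⟨h, hh⟩ : ∃ h, h = t ^ 3 := ⟨_, rfl⟩
  have hth : t ≤ h := by
    rw [hh]
    exact Nat.le_self_pow (by norm_num) t
  have hh100 : 100 ≤ h := by omega
  obtain ⟨N, hN⟩ : ∃ N, N = (h + 1) ^ 2 := ⟨_, rfl⟩
  obtain ⟨m, hm⟩ : ∃ m, m = 144 * N ^ 2 * h ^ 2 := ⟨_, rfl⟩
  obtain ⟨hN1, hm1, hm2, hdiv, hτ⟩ := params h m N hh100 hN hm
  have hNpos : 0 < N := by rw [hN]; positivity
  have hmpos : 0 < m := by omega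
  have : NeZero m := ⟨hmpos.ne'⟩
  obtain ⟨Nv, hNv⟩ : ∃ Nv, Nv = (N + 1) * m ^ 3 := ⟨_, rfl⟩
  have hNvpos : 0 < Nv := by rw [hNv]; positivity
  have hNv1 : 4 * Nv + 1 ≤ h ^ 28 := by
    calc 4 * Nv + 1 ≤ 5 * Nv := by omega
      _ ≤ 5 * ((4 * h ^ 2 + 1) * (h ^ 8) ^ 3) := by
          rw [hNv]
          exact Nat.mul_le_mul_left _ (Nat.mul_le_mul (by omega) (Nat.pow_le_pow_left hm1 3))
      _ = (20 * h ^ 2 + 5) * h ^ 24 := by ring
      _ ≤ h ^ 4 * h ^ 24 := by
          refine Nat.mul_le_mul_right _ ?_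
          calc 20 * h ^ 2 + 5 ≤ h * h ^ 2 := by
                have : 1 ≤ h ^ 2 := Nat.one_le_pow _ _ (by omega)
                have := Nat.mul_le_mul_right (h ^ 2) hh100
                omega
            _ ≤ h ^ 2 * h ^ 2 := Nat.mul_le_mul_right _ (Nat.le_self_pow (by norm_num) h)
            _ = h ^ 4 := by ring
      _ = h ^ 28 := by ring
  have hh28 : h ^ 28 = t ^ 84 := by
    rw [hh, ← pow_mul]
  have hh28n : h ^ 28 ≤ t ^ 400 := by
    rw [hh28]
    exact Nat.pow_le_pow_right (by omega) (by norm_num)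
  -- the number of copies
  obtain ⟨R, hR⟩ : ∃ R, R = n / Nv := ⟨_, rfl⟩
  have hRN : R * Nv ≤ n := by rw [hR]; exact Nat.div_mul_le_self n Nv
  have hRpos : 0 < R := by rw [hR]; exact Nat.div_pos (by omega) hNvpos
  have hR2 : n ≤ 2 * Nv * R := by
    have h1 : n < Nv * (R + 1) := by rw [hR]; exact Nat.lt_mul_div_succ n hNvpos
    have h2 : Nv * 1 ≤ Nv * R := Nat.mul_le_mul_left _ hRpos
    rw [mul_add] at h1
    rw [mul_assoc]
    omega
  -- the hard distribution
  obtain ⟨d', hd'⟩ : ∃ d', d' = t + (l + 1) := ⟨_, rfl⟩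
  obtain ⟨s', hs'⟩ : ∃ s', s' = 3 * t + 4 := ⟨_, rfl⟩
  obtain ⟨k, hk⟩ : ∃ k, k = 2 * m * N + 1 := ⟨_, rfl⟩
  have hdh : d' + (s' + 1) ^ 2 < h := by
    have h3 : (s' + 1) ^ 2 ≤ (4 * t) ^ 2 := Nat.pow_le_pow_left (by omega) 2
    have h5 : h = t * t ^ 2 := by rw [hh]; ring
    have h6 : 400 * t ^ 2 ≤ t * t ^ 2 := Nat.mul_le_mul_right _ (by omega)
    have h7 : t ≤ t ^ 2 := Nat.le_self_pow (by norm_num) t
    rw [mul_pow] at h3
    omega
  have hkl : k ≤ 2 ^ t := by
    refine le_trans ?_ htt.le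
    refine le_trans ?_ hh28n
    rw [hk]
    calc 2 * m * N + 1 ≤ 2 * h ^ 8 * (4 * h ^ 2) + 1 := by
          have := Nat.mul_le_mul (Nat.mul_le_mul_left 2 hm1) hN1
          omega
      _ = 8 * h ^ 10 + 1 := by ring
      _ ≤ 9 * h ^ 10 := by
          have : 1 ≤ h ^ 10 := Nat.one_le_pow _ _ (by omega)
          omega
      _ ≤ h * h ^ 10 := Nat.mul_le_mul_right _ (by omega)
      _ = h ^ 11 := by ring
      _ ≤ h ^ 28 := Nat.pow_le_pow_right (by omega) (by norm_num)
  have hcards : Fintype.card (Nd h → Fin m) * Fintype.card (Nd h → Fin m → Bool) < 2 ^ k := by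
    have c1 : Fintype.card (Nd h) = N := by simp [Nd, hN, sq]
    have c2 : Fintype.card (Nd h → Fin m) = m ^ N := by
      rw [Fintype.card_fun, c1, Fintype.card_fin]
    have c3 : Fintype.card (Nd h → Fin m → Bool) = 2 ^ (m * N) := by
      rw [Fintype.card_fun, c1, Fintype.card_fun, Fintype.card_fin, Fintype.card_bool, ← pow_mul]
    rw [c2, c3, hk]
    have h1 : m ^ N ≤ 2 ^ (m * N) := by
      rw [pow_mul]
      exact Nat.pow_le_pow_left Nat.lt_two_pow_self.le N
    calc m ^ N * 2 ^ (m * N) ≤ 2 ^ (m * N) * 2 ^ (m * N) := Nat.mul_le_mul_right _ h1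
      _ = 2 ^ (2 * m * N) := by rw [← pow_add]; congr 1; ring
      _ < 2 ^ (2 * m * N + 1) := Nat.pow_lt_pow_right (by norm_num) (by omega)
  have hsb : 4 * n ^ 2 * k ≤ 2 ^ s' := by
    calc 4 * n ^ 2 * k ≤ 4 * (2 ^ (t + 1)) ^ 2 * 2 ^ t :=
          Nat.mul_le_mul (Nat.mul_le_mul_left _ (Nat.pow_le_pow_left hnt.le 2)) hkl
      _ = 2 ^ s' := by rw [hs', ← pow_mul]; ring
  have hhard : ∀ f : (Vr h m → Bool) → Bool, MDep (d' + (s' + 1) ^ 2) f →
      (∀ x, f (yes pts x) = true) → ∃ y, f (no pts pats y) = true :=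
    hard (L := 9 * h) hdh (by omega) (by rw [← hN]; exact hm2) (by rw [← hN]; exact hτ)
  obtain ⟨w, hw0, hw1, hw2⟩ := boost (X := Nd h → Fin m) (Y := Nd h → Fin m → Bool)
    (yes pts) (no pts pats) (d' := d') (s := s') hnpos hcards hsb le_rfl hhard
  -- the embedding
  have hcardV : Fintype.card (Vr h m) = Nv := by
    simp [Vr, Cn, Nd, hNv, hN, sq]
  obtain ⟨β, hβ⟩ : ∃ β : Fin R × Vr h m → Fin n, Injective β := by
    have : Fintype.card (Fin R × Vr h m) ≤ Fintype.card (Fin n) := by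
      rw [Fintype.card_prod, hcardV, Fintype.card_fin, Fintype.card_fin]
      exact hRN
    obtain ⟨f⟩ := Function.Embedding.nonempty_of_card_le this
    exact ⟨f, f.injective⟩
  -- the pattern
  obtain ⟨p, hp1, hp2, hp3⟩ := exists_pattern (gen_copies (R := R) fun i e => β (i, e))
  refine ⟨p, ?_, hp2, ?_⟩
  · -- the length
    refine hp1.trans ?_
    obtain ⟨K, hK⟩ : ∃ K, K = ((3 * (m * m) + 1) * ((h + 1) * (h + 1) * m) * h + (2 * m + 1)) * R +
      (R + 1) := ⟨_, rfl⟩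
    rw [← hK]
    have hNm : N * m ^ 3 ≤ Nv := by rw [hNv]; exact Nat.mul_le_mul_right _ (by omega)
    have g1 : (3 * (m * m) + 1) * ((h + 1) * (h + 1) * m) * h ≤ 4 * h * Nv := by
      calc (3 * (m * m) + 1) * ((h + 1) * (h + 1) * m) * h ≤
            (4 * (m * m)) * ((h + 1) * (h + 1) * m) * h := by
            refine Nat.mul_le_mul_right _ (Nat.mul_le_mul_right _ ?_)
            have : 1 ≤ m * m := Nat.mul_pos hmpos hmpos
            omega
        _ = 4 * h * (N * m ^ 3) := by rw [hN]; ring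
        _ ≤ 4 * h * Nv := Nat.mul_le_mul_left _ hNm
    have g2 : 2 * m + 1 ≤ Nv := by
      have h0 : m ≤ m ^ 3 := Nat.le_self_pow (by norm_num) m
      have h1 : 3 * m ^ 3 ≤ (N + 1) * m ^ 3 := Nat.mul_le_mul_right _ (by
        have : 100 ^ 2 ≤ N := by rw [hN]; exact Nat.pow_le_pow_left (by omega) 2
        omega)
      rw [hNv]
      omega
    have g3 : K ≤ (4 * h + 1) * n + (n + 1) := by
      rw [hK]
      have : R ≤ n := by rw [hR]; exact Nat.div_le_self n Nv
      have g4 : ((3 * (m * m) + 1) * ((h + 1) * (h + 1) * m) * h + (2 * m + 1)) * R ≤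
          (4 * h + 1) * n := by
        calc _ ≤ (4 * h * Nv + Nv) * R := Nat.mul_le_mul_right _ (Nat.add_le_add g1 g2)
          _ = (4 * h + 1) * (R * Nv) := by ring
          _ ≤ (4 * h + 1) * n := Nat.mul_le_mul_left _ hRN
      omega
    have g5 : n + K + 1 ≤ 5 * h * n := by
      have g6 : (4 * h + 5) * n ≤ 5 * h * n := Nat.mul_le_mul_right _ (by omega)
      have g7 : (4 * h + 5) * n = (4 * h + 1) * n + 4 * n := by ring
      omega
    calc (n + K + 1) * (2 * (n + K + 1) + 1) ≤ (5 * h * n) * (3 * (5 * h * n)) := by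
          refine Nat.mul_le_mul g5 ?_
          have : 0 < 5 * h * n := by positivity
          omega
      _ = (75 * h ^ 2) * n ^ 2 := by ring
      _ ≤ n * n ^ 2 := by
          refine Nat.mul_le_mul_right _ ?_
          have g8 : 75 * h ^ 2 ≤ h ^ 28 := by
            calc 75 * h ^ 2 ≤ h * h ^ 2 := Nat.mul_le_mul_right _ (by omega)
              _ = h ^ 3 := by ring
              _ ≤ h ^ 28 := Nat.pow_le_pow_right (by omega) (by norm_num)
          omega
      _ = n ^ 3 := by ring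
  · -- the distribution
    have hplace : ∀ (s : Fin R → Vr h m → Bool) (i : Fin R),
        (fun e => place β s (β (i, e))) = s i := by
      intro s i
      funext e
      unfold place
      rw [hβ.extend_apply]
    obtain ⟨D, hD0, hD1, hD2⟩ := chain hw0 hw1 (ε := 1 / n) hw2 hβ hRpos
      (fun x => fill p x ∈ MCV) (by
        intro s hs hmem
        rw [hp3, decide_eq_true_eq] at hmem
        obtain ⟨i, _, hi⟩ := hmem
        rw [hplace] at hi
        rcases hs i with h0 | ⟨y, h0⟩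
        · rw [h0, goal_zero] at hi
          exact absurd hi (by decide)
        · rw [h0, goal_no] at hi
          exact absurd hi (by decide)) (by
        intro s j x hs
        rw [hp3, decide_eq_true_eq]
        refine ⟨j, mem_univ _, ?_⟩
        rw [hplace, hs]
        exact goal_yes x)
    refine ⟨D, hD0, hD1, fun C lev hL hdep => ?_⟩
    have hnr : (0:ℝ) < n := by exact_mod_cast hnpos
    have hcomb : (1:ℝ) ≤ C.combos lev := by
      have := card_cuts (C := C) (lev := lev)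
      have : 1 ≤ C.combos lev := by omega
      exact_mod_cast this
    have hta : (1:ℝ) ≤ (t:ℝ) ^ 400 := by
      have : (1:ℝ) ≤ t := by exact_mod_cast (show 1 ≤ t by omega)
      exact one_le_pow₀ this
    by_cases hs : C.combos lev ≤ 2 ^ (l + 1)
    · have h1 := hD2 C lev (l + 1) hL hs (by rw [hd']; omega)
      have hRr : (0:ℝ) < R := by exact_mod_cast hRpos
      have h2 : (1:ℝ) / R ≤ 2 * Nv / n := by
        rw [div_le_div_iff₀ hRr hnr, one_mul]
        exact_mod_cast hR2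
      have h3 : (2:ℝ) * C.combos lev / R ≤ C.combos lev * (4 * Nv) / n := by
        calc (2:ℝ) * C.combos lev / R = 2 * C.combos lev * (1 / R) := by ring
          _ ≤ 2 * C.combos lev * (2 * Nv / n) := mul_le_mul_of_nonneg_left h2 (by positivity)
          _ = C.combos lev * (4 * Nv) / n := by ring
      have h4 : (1:ℝ) / n / 2 ≤ C.combos lev * 1 / n := by
        rw [div_div, div_le_div_iff₀ (by positivity) hnr]
        nlinarith
      have h5 : ((4 * Nv + 1 : ℕ) : ℝ) ≤ (t:ℝ) ^ 400 := by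
        have := hNv1.trans hh28n
        exact_mod_cast this
      push_cast at h5
      have h6 : (C.combos lev : ℝ) * (4 * Nv) / n + C.combos lev * 1 / n ≤
          C.combos lev * (t:ℝ) ^ 400 / n := by
        rw [← add_div, ← mul_add]
        refine div_le_div_of_nonneg_right ?_ hnr.le
        exact mul_le_mul_of_nonneg_left h5 (by positivity)
      linarith
    · push Not at hs
      have h1 : C.agree D (fun x => fill p x ∈ MCV) ≤ 1 := agree_le_one hD0 hD1 C _
      have h2 : (1:ℝ) ≤ C.combos lev * (t:ℝ) ^ 400 / n := by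
        rw [le_div_iff₀ hnr, one_mul]
        have h3 : (n:ℝ) ≤ C.combos lev := by
          have : n ≤ C.combos lev := by omega
          exact_mod_cast this
        nlinarith
      linarith

end Pool.Agent.V8H38.RM
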