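import Pool.Agent.V8H38.NL.Prob

/-!
# Monotone depth and the index gadget (Raz-McKenzie lifting)
-/

namespace Pool.Agent.V8H38.RM

open Finset Function

/-- Monotone functions of depth at most `d`. -/
inductive MDep {ι : Type} : ℕ → ((ι → Bool) → Bool) → Prop
  | var (d : ℕ) (i : ι) : MDep d (fun x => x i)
  | const (d : ℕ) (b : Bool) : MDep d (fun _ => b)
  | and {d : ℕ} {f g : (ι → Bool) → Bool} : MDep d f → MDep d g → MDep (d + 1) (fun x => f x && g x)
  | or {d : ℕ} {f g : (ι → Bool) → Bool} : MDep d f → MDep d g → MDep (d + 1) (fun x => f x || g x)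

section Proj

variable {V α : Type} [Fintype V] [DecidableEq V] [Fintype α] [DecidableEq α]

/-- the projection of `A` along coordinate `i` -/
def proj (i : V) (A : Finset (V → α)) : Finset (V → α) :=
  univ.filter fun x => ∃ a, update x i a ∈ A

/-- the number of extensions -/
def deg (A : Finset (V → α)) (i : V) (x : V → α) : ℕ := (univ.filter fun a => update x i a ∈ A).card

theorem mem_proj {i : V} {A : Finset (V → α)} {x : V → α} : x ∈ proj i A ↔ ∃ a, update x i a ∈ A := by
  simp [proj]

theorem proj_mono (i : V) {A B : Finset (V → α)} (h : A ⊆ B) : proj i A ⊆ proj i B := by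
  intro x hx
  rw [mem_proj] at hx ⊢
  obtain ⟨a, ha⟩ := hx
  exact ⟨a, h ha⟩

theorem sub_proj (i : V) (A : Finset (V → α)) : A ⊆ proj i A := by
  intro x hx
  rw [mem_proj]
  exact ⟨x i, by rwa [update_eq_self]⟩

/-- Thickness lemma. -/
theorem thickness [Nonempty α] (J : Finset V) {n : ℕ} (hJ : J.card ≤ n) {A : Finset (V → α)}
    (h : ∀ i ∈ J, (proj i A).card ≤ 8 * A.card) :
    ∃ A' ⊆ A, A.card ≤ 2 * A'.card ∧
      ∀ i ∈ J, ∀ x ∈ A', Fintype.card α ≤ 16 * n * deg A' i x := by
  classical
  rcases Nat.eq_zero_or_pos n with hn | hn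
  · subst hn
    have hJ0 : J = ∅ := Finset.card_eq_zero.1 (by omega)
    subst hJ0
    exact ⟨A, Finset.Subset.refl _, by omega, by simp⟩
  let Φ : Finset (V → α) → ℤ := fun S => 16 * n * (S.card : ℤ) - ∑ i ∈ J, ((proj i S).card : ℤ)
  obtain ⟨A', hA', hmax⟩ := Finset.exists_max_image A.powerset Φ ⟨A, by simp⟩
  rw [Finset.mem_powerset] at hA'
  refine ⟨A', hA', ?_, ?_⟩
  · have h1 := hmax A (by simp)
    have h2 : ∑ i ∈ J, ((proj i A).card : ℤ) ≤ 8 * n * (A.card : ℤ) := by
      calc ∑ i ∈ J, ((proj i A).card : ℤ) ≤ ∑ i ∈ J, (8 * (A.card : ℤ)) := by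
            refine Finset.sum_le_sum fun i hi => ?_
            exact_mod_cast h i hi
        _ = J.card * (8 * (A.card : ℤ)) := by rw [Finset.sum_const, nsmul_eq_mul]
        _ ≤ n * (8 * (A.card : ℤ)) := by
            refine mul_le_mul_of_nonneg_right (by exact_mod_cast hJ) (by positivity)
        _ = 8 * n * (A.card : ℤ) := by ring
    have h3 : (0:ℤ) ≤ ∑ i ∈ J, ((proj i A').card : ℤ) := Finset.sum_nonneg fun i _ => by positivity
    simp only [Φ] at h1
    have h4 : 8 * (n:ℤ) * (A.card : ℤ) ≤ 16 * n * (A'.card : ℤ) := by linarith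
    have h5 : 8 * n * A.card ≤ 16 * n * A'.card := by exact_mod_cast h4
    have h6 : 8 * n * A.card ≤ 8 * n * (2 * A'.card) := by
      calc 8 * n * A.card ≤ 16 * n * A'.card := h5
        _ = 8 * n * (2 * A'.card) := by ring
    exact Nat.le_of_mul_le_mul_left h6 (by positivity)
  · intro i hi x hx
    set ℓ : Finset (V → α) := univ.image fun a => update x i a with hℓ
    have hℓcard : ℓ.card = Fintype.card α := by
      rw [hℓ, Finset.card_image_of_injective _ (update_injective x i), Finset.card_univ]
    set S := A' \ ℓ with hS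
    have h1 := hmax S (by
      rw [Finset.mem_powerset]
      exact Finset.sdiff_subset.trans hA')
    have h2 : (A' ∩ ℓ).card = deg A' i x := by
      unfold deg
      rw [← Finset.card_image_of_injective (univ.filter fun a => update x i a ∈ A')
        (update_injective x i)]
      congr 1
      ext z
      simp only [mem_inter, hℓ, mem_image, mem_univ, true_and, mem_filter]
      constructor
      · rintro ⟨hz, a, rfl⟩
        exact ⟨a, hz, rfl⟩
      · rintro ⟨a, ha, rfl⟩
        exact ⟨ha, a, rfl⟩
    have h3 : S.card + deg A' i x = A'.card := by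
      rw [← h2, hS, add_comm]
      exact Finset.card_inter_add_card_sdiff A' ℓ
    have h4 : (proj i S).card + Fintype.card α ≤ (proj i A').card := by
      rw [← hℓcard, ← Finset.card_union_of_disjoint]
      · refine Finset.card_le_card (Finset.union_subset (proj_mono i Finset.sdiff_subset) ?_)
        intro z hz
        rw [hℓ, Finset.mem_image] at hz
        obtain ⟨a, -, rfl⟩ := hz
        rw [mem_proj]
        refine ⟨x i, ?_⟩
        rw [update_idem, update_eq_self]
        exact hx
      · rw [Finset.disjoint_left]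
        intro z hz hz'
        rw [hℓ, Finset.mem_image] at hz'
        obtain ⟨a, -, rfl⟩ := hz'
        rw [mem_proj] at hz
        obtain ⟨b, hb⟩ := hz
        rw [update_idem, hS, Finset.mem_sdiff] at hb
        exact hb.2 (by rw [hℓ, Finset.mem_image]; exact ⟨b, mem_univ _, rfl⟩)
    have h5 : ∑ j ∈ J, ((proj j S).card : ℤ) + Fintype.card α ≤ ∑ j ∈ J, ((proj j A').card : ℤ) := by
      rw [← Finset.add_sum_erase J _ hi, ← Finset.add_sum_erase J _ hi]
      have h6 : ∑ j ∈ J.erase i, ((proj j S).card : ℤ) ≤ ∑ j ∈ J.erase i, ((proj j A').card : ℤ) := by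
        refine Finset.sum_le_sum fun j _ => ?_
        exact_mod_cast Finset.card_le_card (proj_mono j Finset.sdiff_subset)
      have h7 : ((proj i S).card : ℤ) + Fintype.card α ≤ ((proj i A').card : ℤ) := by
        exact_mod_cast h4
      linarith
    simp only [Φ] at h1
    have h8 : (A'.card : ℤ) = S.card + deg A' i x := by exact_mod_cast h3.symm
    rw [h8] at h1
    have h9 : (Fintype.card α : ℤ) ≤ 16 * n * (deg A' i x : ℤ) := by
      have : 16 * (n:ℤ) * (S.card : ℤ) - ∑ j ∈ J, ((proj j S).card : ℤ) ≤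
        16 * n * ((S.card : ℤ) + (deg A' i x : ℤ)) - ∑ j ∈ J, ((proj j A').card : ℤ) := h1
      nlinarith [this, h5]
    exact_mod_cast h9

end Proj

end Pool.Agent.V8H38.RM
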