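import Pool.Agent.V8H38.RM.Machine

/-!
# Building patterns of words for monotone functions
-/

namespace Pool.Agent.V8H38.RM

open Finset

variable {n : ℕ}

/-- nodes with variables -/
inductive PI (n : ℕ)
  | inp (i : Fin n)
  | const (b : Bool)
  | gate (t : Bool) (d e : ℕ)

/-- inserting an input -/
def PI.inst (x : Fin n → Bool) : PI n → Item
  | .inp i => .bit (x i)
  | .const b => .bit b
  | .gate t d e => .gate t d e

/-- the text of a node -/
def PI.text : PI n → List (Letter ⊕ Fin n)
  | .inp i => [Sum.inr i]
  | .const b => [Sum.inl (.bit b)]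
  | .gate t d e => Sum.inl (.gate t) :: (List.replicate d (Sum.inl .fst) ++
      List.replicate e (Sum.inl .snd))

/-- the piece of a node -/
def PI.piece (x : Fin n → Bool) : PI n → Letter × List Letter
  | .inp i => (.bit (x i), [])
  | .const b => (.bit b, [])
  | .gate t d e => (.gate t, List.replicate d .fst ++ List.replicate e .snd)

/-- the pattern -/
def write (L : List (PI n)) : List (Letter ⊕ Fin n) := L.flatMap PI.text

theorem fill_write (L : List (PI n)) (x : Fin n → Bool) :
    fill (write L) x = flat (L.map (PI.piece x)) := by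
  induction L with
  | nil => rfl
  | cons a L ih =>
    have h1 : fill (write (a :: L)) x = fill a.text x ++ fill (write L) x := by
      simp [write, fill]
    rw [h1, ih]
    cases a with
    | inp i => simp [PI.text, PI.piece, fill, flat]
    | const b => simp [PI.text, PI.piece, fill, flat]
    | gate t d e => simp [PI.text, PI.piece, fill, flat]

theorem good_pieces (L : List (PI n)) (x : Fin n → Bool) : Good (L.map (PI.piece x)) := by
  intro t ht
  obtain ⟨a, _, rfl⟩ := List.mem_map.1 ht
  cases a with
  | inp i => simp [PI.piece, isNode]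
  | const b => simp [PI.piece, isNode]
  | gate t d e =>
    refine ⟨rfl, ?_⟩
    intro a ha
    simp only [PI.piece, List.mem_append, List.mem_replicate] at ha
    rcases ha with ⟨_, rfl⟩ | ⟨_, rfl⟩ <;> rfl

theorem item_piece (a : PI n) (x : Fin n → Bool) : item (a.piece x) = a.inst x := by
  cases a with
  | inp i => rfl
  | const b => rfl
  | gate t d e =>
    simp [PI.piece, item, PI.inst, List.countP_append, List.countP_replicate, isMark]

theorem parse_fill (L : List (PI n)) (x : Fin n → Bool) :
    parse (fill (write L) x) = L.map (PI.inst x) := by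
  rw [fill_write, parse_flat _ (good_pieces L x), List.map_map]
  exact List.map_congr_left fun a _ => item_piece a x

/-- `L` computes the functions `fs` -/
def Prog (L : List (PI n)) (fs : List ((Fin n → Bool) → Bool)) : Prop :=
  ∀ x, values (L.map (PI.inst x)) = fs.map fun f => some (f x)

theorem Prog.length {L : List (PI n)} {fs : List ((Fin n → Bool) → Bool)} (h : Prog L fs) :
    fs.length = L.length := by
  have := congrArg List.length (h fun _ => false)
  rw [values_length] at this
  simpa using this.symm

theorem Prog.nil : Prog ([] : List (PI n)) [] := fun _ => rfl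

theorem Prog.inp {L : List (PI n)} {fs : List ((Fin n → Bool) → Bool)} (h : Prog L fs)
    (i : Fin n) : Prog (.inp i :: L) ((fun x => x i) :: fs) := by
  intro x
  simp [PI.inst, values, h x]

theorem Prog.const {L : List (PI n)} {fs : List ((Fin n → Bool) → Bool)} (h : Prog L fs)
    (b : Bool) : Prog (.const b :: L) ((fun _ => b) :: fs) := by
  intro x
  simp [PI.inst, values, h x]

theorem Prog.gate {L : List (PI n)} {fs : List ((Fin n → Bool) → Bool)} (h : Prog L fs)
    (t : Bool) {d e : ℕ} {f g : (Fin n → Bool) → Bool} (hd : fs[d]? = some f)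
    (he : fs[e]? = some g) :
    Prog (.gate t d e :: L) ((fun x => if f x = t then g x else f x) :: fs) := by
  intro x
  simp only [List.map_cons, PI.inst, values, h x]
  congr 1
  rw [List.getElem?_map, List.getElem?_map, hd, he]
  simp only [Option.map_some, Option.join_some, Option.bind_some]
  split_ifs <;> rfl

/-- `T` can be computed from `S` with `k` more gates -/
def Gen (k : ℕ) (S T : Set ((Fin n → Bool) → Bool)) : Prop :=
  ∀ (L : List (PI n)) (fs : List ((Fin n → Bool) → Bool)), Prog L fs → (∀ f ∈ S, f ∈ fs) →
    ∃ (E : List (PI n)) (fs' : List ((Fin n → Bool) → Bool)), Prog (E ++ L) fs' ∧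
      (∀ f ∈ fs, f ∈ fs') ∧ (∀ f ∈ T, f ∈ fs') ∧ E.length ≤ k ∧ (∀ i, PI.inp i ∉ E) ∧
      ∀ a ∈ E, a.text.length ≤ 2 * (E.length + L.length) + 1

theorem Gen.refl {S T : Set ((Fin n → Bool) → Bool)} (h : T ⊆ S) : Gen 0 S T :=
  fun L fs hP hS => ⟨[], fs, hP, fun _ hf => hf, fun f hf => hS f (h hf), le_rfl, by simp, by simp⟩

theorem Gen.mono {k k' : ℕ} {S S' T T' : Set ((Fin n → Bool) → Bool)} (h : Gen k S T)
    (hk : k ≤ k') (hS : S ⊆ S') (hT : T' ⊆ T) : Gen k' S' T' := by
  intro L fs hP hS'
  obtain ⟨E, fs', h1, h2, h3, h4, h5, h6⟩ := h L fs hP fun f hf => hS' f (hS hf)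
  exact ⟨E, fs', h1, h2, fun f hf => h3 f (hT hf), h4.trans hk, h5, h6⟩

theorem Gen.trans {k k' : ℕ} {S T U : Set ((Fin n → Bool) → Bool)} (h : Gen k S T)
    (h' : Gen k' (S ∪ T) U) : Gen (k + k') S (T ∪ U) := by
  intro L fs hP hS
  obtain ⟨E, fs', h1, h2, h3, h4, h5, h6⟩ := h L fs hP hS
  obtain ⟨E', fs'', g1, g2, g3, g4, g5, g6⟩ := h' (E ++ L) fs' h1 (by
    rintro f (hf | hf)
    · exact h2 f (hS f hf)
    · exact h3 f hf)
  refine ⟨E' ++ E, fs'', by rwa [List.append_assoc], fun f hf => g2 f (h2 f hf), ?_, ?_, ?_, ?_⟩
  · rintro f (hf | hf)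
    · exact g2 f (h3 f hf)
    · exact g3 f hf
  · rw [List.length_append]; omega
  · intro i hi
    rcases List.mem_append.1 hi with hi | hi
    · exact g5 i hi
    · exact h5 i hi
  · intro a ha
    rw [List.length_append] at g6 ⊢
    rcases List.mem_append.1 ha with ha | ha
    · have := g6 a ha
      omega
    · have := h6 a ha
      omega

theorem Gen.gate (t : Bool) (f g : (Fin n → Bool) → Bool) :
    Gen 1 {f, g} {fun x => if f x = t then g x else f x} := by
  intro L fs hP hS
  obtain ⟨d, hd⟩ := List.mem_iff_getElem?.1 (hS f (by simp))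
  obtain ⟨e, he⟩ := List.mem_iff_getElem?.1 (hS g (by simp))
  have hd' := (List.getElem?_eq_some_iff.1 hd).1
  have he' := (List.getElem?_eq_some_iff.1 he).1
  rw [hP.length] at hd' he'
  refine ⟨[.gate t d e], _, hP.gate t hd he, fun f hf => List.mem_cons_of_mem _ hf, ?_, by simp,
    by simp, ?_⟩
  swap
  · intro a ha
    rw [List.mem_singleton] at ha
    rw [ha]
    simp only [PI.text, List.length_cons, List.length_append, List.length_replicate, List.length_nil]
    omega
  intro f' hf'
  rw [Set.mem_singleton_iff] at hf'
  rw [hf']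
  exact List.mem_cons_self

theorem Gen.and (f g : (Fin n → Bool) → Bool) : Gen 1 {f, g} {fun x => f x && g x} := by
  have h := Gen.gate true f g
  have e : (fun x => if f x = true then g x else f x) = fun x => f x && g x := by
    funext x
    cases f x <;> simp
  rwa [e] at h

theorem Gen.or (f g : (Fin n → Bool) → Bool) : Gen 1 {f, g} {fun x => f x || g x} := by
  have h := Gen.gate false f g
  have e : (fun x => if f x = false then g x else f x) = fun x => f x || g x := by
    funext x
    cases f x <;> simp
  rwa [e] at h

theorem Gen.const (b : Bool) : Gen 1 (∅ : Set ((Fin n → Bool) → Bool)) {fun _ => b} := by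
  intro L fs hP _
  refine ⟨[.const b], _, hP.const b, fun f hf => List.mem_cons_of_mem _ hf, ?_, by simp,
    by simp, by simp [PI.text]⟩
  intro f' hf'
  rw [Set.mem_singleton_iff] at hf'
  rw [hf']
  exact List.mem_cons_self

/-- many functions -/
theorem Gen.all {κ : Type} [DecidableEq κ] (s : Finset κ) {k : ℕ}
    {S : Set ((Fin n → Bool) → Bool)} (F : κ → (Fin n → Bool) → Bool)
    (h : ∀ i ∈ s, Gen k S {F i}) : Gen (k * s.card) S {f | ∃ i ∈ s, f = F i} := by
  induction s using Finset.induction_on with
  | empty => exact Gen.refl (by rintro f ⟨i, hi, _⟩; simp at hi)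
  | insert a s ha ih =>
    have h1 := ih fun i hi => h i (Finset.mem_insert_of_mem hi)
    have h2 := (h a (Finset.mem_insert_self a s)).mono (le_refl k)
      (S' := S ∪ {f | ∃ i ∈ s, f = F i}) Set.subset_union_left (subset_refl _)
    refine (h1.trans h2).mono (by rw [Finset.card_insert_of_notMem ha]; ring_nf; rfl) (subset_refl S) ?_
    rintro f ⟨i, hi, rfl⟩
    rcases Finset.mem_insert.1 hi with rfl | hi
    · exact Or.inr rfl
    · exact Or.inl ⟨i, hi, rfl⟩

/-- the OR of many functions -/
theorem Gen.orAll {κ : Type} [DecidableEq κ] (s : Finset κ) (F : κ → (Fin n → Bool) → Bool) :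
    Gen (s.card + 1) {f | ∃ i ∈ s, f = F i} {fun x => decide (∃ i ∈ s, F i x = true)} := by
  induction s using Finset.induction_on with
  | empty =>
    refine (Gen.const false).mono (by simp) (Set.empty_subset _) ?_
    intro f hf
    rw [Set.mem_singleton_iff] at hf ⊢
    rw [hf]
    funext x
    simp
  | insert a s ha ih =>
    have h1 := ih.mono (le_refl _) (S' := {f | ∃ i ∈ insert a s, f = F i}) (by
      rintro f ⟨i, hi, rfl⟩
      exact ⟨i, Finset.mem_insert_of_mem hi, rfl⟩) (subset_refl _)
    have h2 := (Gen.or (F a) (fun x => decide (∃ i ∈ s, F i x = true))).mono (le_refl _)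
      (S' := {f | ∃ i ∈ insert a s, f = F i} ∪ {fun x => decide (∃ i ∈ s, F i x = true)}) (by
        rintro f (rfl | hf)
        · exact Or.inl ⟨a, Finset.mem_insert_self a s, rfl⟩
        · exact Or.inr hf) (subset_refl _)
    refine (h1.trans h2).mono (by rw [Finset.card_insert_of_notMem ha]) (subset_refl _) ?_
    intro f hf
    rw [Set.mem_singleton_iff] at hf
    right
    rw [hf, Set.mem_singleton_iff]
    funext x
    rw [Bool.eq_iff_iff]
    simp

/-- the program that only contains the variables -/
def vars (n : ℕ) : List (PI n) := (List.finRange n).map PI.inp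

theorem prog_vars (n : ℕ) : ∃ fs, Prog (vars n) fs ∧
    ∀ f ∈ ({f | ∃ i, f = fun x => x i} : Set ((Fin n → Bool) → Bool)), f ∈ fs := by
  have key : ∀ l : List (Fin n), Prog (l.map PI.inp) (l.map fun i x => x i) := by
    intro l
    induction l with
    | nil => exact Prog.nil
    | cons a l ih => exact ih.inp a
  refine ⟨_, key _, ?_⟩
  rintro f ⟨i, rfl⟩
  exact List.mem_map.2 ⟨i, List.mem_finRange i, rfl⟩

theorem length_write_le (L : List (PI n)) (B : ℕ) (h : ∀ a ∈ L, a.text.length ≤ B) :
    (write L).length ≤ L.length * B := by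
  induction L with
  | nil => simp [write]
  | cons a L ih =>
    have h1 := h a (by simp)
    have h2 := ih fun b hb => h b (by simp [hb])
    have h3 : (write (a :: L)).length = a.text.length + (write L).length := by
      simp [write]
    rw [h3, List.length_cons, add_mul]
    omega

theorem getRight_write (L : List (PI n)) (h : ∀ i, PI.inp i ∉ L) :
    (write L).filterMap Sum.getRight? = [] := by
  rw [List.filterMap_eq_nil_iff]
  intro a ha
  unfold write at ha
  rw [List.mem_flatMap] at ha
  obtain ⟨b, hb, hab⟩ := ha
  cases b with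
  | inp j => exact absurd hb (h j)
  | const b =>
    simp only [PI.text, List.mem_singleton] at hab
    rw [hab]; rfl
  | gate t d e =>
    simp only [PI.text, List.mem_cons, List.mem_append, List.mem_replicate] at hab
    rcases hab with rfl | ⟨_, rfl⟩ | ⟨_, rfl⟩ <;> rfl

theorem getRight_vars (n : ℕ) : (write (vars n)).filterMap Sum.getRight? = List.finRange n := by
  unfold write vars
  rw [List.flatMap_map]
  have : ∀ l : List (Fin n), (l.flatMap fun a => (PI.inp a).text).filterMap Sum.getRight? = l := by
    intro l
    induction l with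
    | nil => rfl
    | cons a l ih =>
      rw [List.flatMap_cons, List.filterMap_append, ih]
      rfl
  exact this _

/-- **Patterns.** -/
theorem exists_pattern {k : ℕ} {f : (Fin n → Bool) → Bool}
    (h : Gen k {f | ∃ i, f = fun x => x i} {f}) :
    ∃ p : List (Letter ⊕ Fin n), p.length ≤ (n + k + 1) * (2 * (n + k + 1) + 1) ∧
      p.filterMap Sum.getRight? = List.finRange n ∧ ∀ x, fill p x ∈ MCV ↔ f x = true := by
  obtain ⟨fs, hfs, hfs2⟩ := prog_vars n
  obtain ⟨E, fs', h1, -, h3, h4, h5, h6⟩ := h _ _ hfs hfs2
  obtain ⟨d, hd⟩ := List.mem_iff_getElem?.1 (h3 f rfl)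
  have hd' := (List.getElem?_eq_some_iff.1 hd).1
  rw [h1.length, List.length_append] at hd'
  have hvl : (vars n).length = n := by simp [vars]
  rw [hvl] at hd' h6
  refine ⟨write (.gate true d d :: (E ++ vars n)), ?_, ?_, ?_⟩
  · have hB : ∀ a ∈ (PI.gate true d d :: (E ++ vars n)), a.text.length ≤ 2 * (n + k + 1) + 1 := by
      intro a ha
      rcases List.mem_cons.1 ha with rfl | ha
      · simp only [PI.text, List.length_cons, List.length_append, List.length_replicate]
        omega
      · rcases List.mem_append.1 ha with ha | ha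
        · have := h6 a ha
          omega
        · unfold vars at ha
          obtain ⟨i, _, rfl⟩ := List.mem_map.1 ha
          simp [PI.text]
    refine (length_write_le _ _ hB).trans (Nat.mul_le_mul_right _ ?_)
    rw [List.length_cons, List.length_append, hvl]
    omega
  · have e : write (.gate true d d :: (E ++ vars n)) =
        write (PI.gate true d d :: E) ++ write (vars n) := by
      simp [write]
    rw [e, List.filterMap_append, getRight_vars, getRight_write _ (by
      intro i hi
      rcases List.mem_cons.1 hi with hi | hi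
      · cases hi
      · exact h5 i hi)]
    rfl
  · intro x
    have h7 := h1.gate true hd hd
    change (values (parse _)).head? = some (some true) ↔ _
    rw [parse_fill, h7 x]
    simp

end Pool.Agent.V8H38.RM
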