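import Pool.Agent.V8H38.NL.Prob

/-!
# Random sets and down-sets
-/

namespace Pool.Agent.V8H38.RM

open Finset Function Pool.Agent.V8H38.NL

variable {V : Type} [Fintype V] [DecidableEq V]

theorem N_prod (p : ℝ) (f g : V → ℝ) (x : Finset V) :
    N p (fun y => ∏ v, if v ∈ y then f v else g v) x =
      ∏ v, if v ∈ x then f v else p * f v + (1 - p) * g v := by
  unfold N wt
  have h1 : ∀ Z : Finset V, (∏ v, if v ∈ Z then p else 1 - p) *
      (∏ v, if v ∈ x ∪ Z then f v else g v) =
      ∏ v, if v ∈ Z then p * f v else (1 - p) * (if v ∈ x then f v else g v) := by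
    intro Z
    rw [← Finset.prod_mul_distrib]
    refine Finset.prod_congr rfl fun v _ => ?_
    by_cases hZ : v ∈ Z <;> by_cases hx : v ∈ x <;> simp [hZ, hx]
  rw [Finset.sum_congr rfl fun Z _ => h1 Z,
    sum_prod_sets (fun v => p * f v) (fun v => (1 - p) * (if v ∈ x then f v else g v))]
  refine Finset.prod_congr rfl fun v _ => ?_
  by_cases hx : v ∈ x
  · simp only [hx, if_true]; ring
  · simp only [hx, if_false]

theorem ind_prod (T y : Finset V) : (if y = T then (1:ℝ) else 0) =
    ∏ v, if v ∈ y then (if v ∈ T then (1:ℝ) else 0) else (if v ∈ T then 0 else 1) := by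
  by_cases h : y = T
  · subst h
    rw [if_pos rfl]
    symm
    refine Finset.prod_eq_one fun v _ => ?_
    by_cases hv : v ∈ y <;> simp [hv]
  · rw [if_neg h]
    have : ∃ v, ¬ (v ∈ y ↔ v ∈ T) := by
      by_contra hc
      push Not at hc
      exact h (Finset.ext hc)
    obtain ⟨v, hv⟩ := this
    symm
    refine Finset.prod_eq_zero (Finset.mem_univ v) ?_
    by_cases h1 : v ∈ y <;> by_cases h2 : v ∈ T <;> simp_all

theorem N_fsum' {ι : Type} (p : ℝ) (s : Finset ι) (c : ι → ℝ) (F : ι → Finset V → ℝ)
    (x : Finset V) : N p (fun y => ∑ i ∈ s, c i * F i y) x = ∑ i ∈ s, c i * N p (F i) x := by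
  unfold N
  simp_rw [Finset.mul_sum]
  rw [Finset.sum_comm]
  refine Finset.sum_congr rfl fun i _ => Finset.sum_congr rfl fun Z _ => by ring

theorem expand (φ : Finset V → ℝ) : φ = fun y => ∑ T : Finset V, φ T * (if y = T then 1 else 0) := by
  funext y
  simp

theorem N_comp (p q : ℝ) (φ : Finset V → ℝ) (x : Finset V) :
    N p (N q φ) x = N (1 - (1 - p) * (1 - q)) φ x := by
  have key : ∀ T : Finset V, N p (N q (fun y => if y = T then (1:ℝ) else 0)) x =
      N (1 - (1 - p) * (1 - q)) (fun y => if y = T then (1:ℝ) else 0) x := by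
    intro T
    have e : (fun y : Finset V => if y = T then (1:ℝ) else 0) = fun y =>
        ∏ v, if v ∈ y then (if v ∈ T then (1:ℝ) else 0) else (if v ∈ T then 0 else 1) :=
      funext fun y => ind_prod T y
    rw [e]
    have e2 : N q (fun y => ∏ v, if v ∈ y then (if v ∈ T then (1:ℝ) else 0)
        else (if v ∈ T then 0 else 1)) = fun x => ∏ v, if v ∈ x then (if v ∈ T then (1:ℝ) else 0)
        else q * (if v ∈ T then (1:ℝ) else 0) + (1 - q) * (if v ∈ T then 0 else 1) :=
      funext fun x => N_prod q _ _ x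
    rw [e2, N_prod, N_prod]
    refine Finset.prod_congr rfl fun v _ => ?_
    by_cases hx : v ∈ x
    · simp [hx]
    · simp only [hx, if_false]
      ring
  have h1 : N q φ = fun y => ∑ T : Finset V, φ T * N q (fun y => if y = T then (1:ℝ) else 0) y := by
    funext y
    conv_lhs => rw [expand φ]
    rw [N_fsum' q univ φ (fun T y => if y = T then (1:ℝ) else 0) y]
  rw [h1, N_fsum' p univ φ (fun T => N q (fun y => if y = T then (1:ℝ) else 0)) x]
  conv_rhs => rw [expand φ]
  rw [N_fsum' _ univ φ (fun T y => if y = T then (1:ℝ) else 0) x]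
  exact Finset.sum_congr rfl fun T _ => by rw [key T]

theorem NN_eq (p : ℝ) (k : ℕ) (φ : Finset V → ℝ) (x : Finset V) :
    NN p k φ x = N (1 - (1 - p) ^ k) φ x := by
  induction k generalizing x with
  | zero =>
    rw [NN_zero]
    unfold N wt
    simp only [pow_zero, sub_self, sub_zero]
    rw [Finset.sum_eq_single ∅]
    · simp
    · intro Z _ hZ
      obtain ⟨v, hv⟩ := Finset.nonempty_iff_ne_empty.2 hZ
      rw [Finset.prod_eq_zero (Finset.mem_univ v) (by simp [hv]), zero_mul]
    · intro h; exact absurd (Finset.mem_univ _) h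
  | succ k ih =>
    rw [NN_succ]
    have : NN p k φ = N (1 - (1 - p) ^ k) φ := funext ih
    rw [this, N_comp]
    congr 1
    ring

/-- Down-sets: the union of `k` random sets is in a down-set only if all of them are. -/
theorem NN_down {p : ℝ} (h0 : 0 ≤ p) (h1 : p ≤ 1) (D : Finset V → Prop) [DecidablePred D]
    (hD : ∀ A B, A ⊆ B → D B → D A) (k : ℕ) :
    NN p (k + 1) (fun y => if D y then (1:ℝ) else 0) ∅ ≤
      (N p (fun y => if D y then (1:ℝ) else 0) ∅) ^ (k + 1) := by
  induction k with
  | zero =>
    rw [NN_succ, NN_zero, zero_add, pow_one]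
  | succ k ih =>
    set φ : Finset V → ℝ := fun y => if D y then (1:ℝ) else 0 with hφ
    have hNN0 : 0 ≤ NN p (k + 1) φ ∅ := NN_nonneg h0 h1 _ (fun y => by simp only [hφ]; split_ifs <;> norm_num) ∅
    rw [NN_succ]
    calc N p (NN p (k + 1) φ) ∅ = ∑ Z : Finset V, wt p Z * NN p (k + 1) φ Z := by
          unfold N
          refine Finset.sum_congr rfl fun Z _ => by rw [Finset.empty_union]
      _ ≤ ∑ Z : Finset V, wt p Z * (φ Z * NN p (k + 1) φ ∅) := by
          refine Finset.sum_le_sum fun Z _ => mul_le_mul_of_nonneg_left ?_ (wt_nonneg h0 h1 Z)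
          have e1 : NN p (k + 1) φ Z = NN p (k + 1) (fun y => φ (Z ∪ y)) ∅ := by
            rw [NN_trans, Finset.union_empty]
          have e2 : φ Z * NN p (k + 1) φ ∅ = NN p (k + 1) (fun y => φ Z * φ y) ∅ := by
            rw [NN_smul]
          rw [e1, e2]
          refine NN_mono h0 h1 _ fun y _ => ?_
          simp only [hφ]
          by_cases h : D (Z ∪ y)
          · rw [if_pos h, if_pos (hD _ _ Finset.subset_union_left h),
              if_pos (hD _ _ Finset.subset_union_right h)]
            norm_num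
          · rw [if_neg h]
            positivity
      _ = (∑ Z : Finset V, wt p Z * φ Z) * NN p (k + 1) φ ∅ := by
          rw [Finset.sum_mul]
          exact Finset.sum_congr rfl fun Z _ => by ring
      _ = N p φ ∅ * NN p (k + 1) φ ∅ := by
          congr 1
          unfold N
          refine Finset.sum_congr rfl fun Z _ => by rw [Finset.empty_union]
      _ ≤ N p φ ∅ * (N p φ ∅) ^ (k + 1) := by
          refine mul_le_mul_of_nonneg_left ih ?_
          have := NN_nonneg h0 h1 1 (φ := φ) (fun y => by simp only [hφ]; split_ifs <;> norm_num) ∅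
          rwa [NN_succ, NN_zero] at this
      _ = (N p φ ∅) ^ (k + 1 + 1) := by ring

theorem N_half (φ : Finset V → ℝ) :
    N (1 / 2) φ ∅ = (∑ Z : Finset V, φ Z) / 2 ^ Fintype.card V := by
  unfold N
  rw [Finset.sum_div]
  refine Finset.sum_congr rfl fun Z _ => ?_
  have : wt (1 / 2) Z = 1 / 2 ^ Fintype.card V := by
    unfold wt
    have : ∀ v, (if v ∈ Z then (1 / 2 : ℝ) else 1 - 1 / 2) = 1 / 2 := by
      intro v; split_ifs <;> norm_num
    rw [Finset.prod_congr rfl fun v _ => this v, Finset.prod_const, Finset.card_univ]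
    rw [one_div_pow]
  rw [this, Finset.empty_union]
  ring

/-- the probability of missing a set -/
theorem N_miss (p : ℝ) (T : Finset V) :
    N p (fun y => if Disjoint y T then (1:ℝ) else 0) ∅ = (1 - p) ^ T.card := by
  have e : (fun y : Finset V => if Disjoint y T then (1:ℝ) else 0) = fun y =>
      ∏ v, if v ∈ y then (if v ∈ T then (0:ℝ) else 1) else 1 := by
    funext y
    by_cases h : Disjoint y T
    · rw [if_pos h]
      symm
      refine Finset.prod_eq_one fun v _ => ?_
      by_cases hv : v ∈ y
      · have := Finset.disjoint_left.1 h hv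
        simp [hv, this]
      · simp [hv]
    · rw [if_neg h]
      rw [Finset.not_disjoint_iff] at h
      obtain ⟨v, h1, h2⟩ := h
      symm
      exact Finset.prod_eq_zero (Finset.mem_univ v) (by simp [h1, h2])
  rw [e, N_prod]
  rw [← Finset.prod_const, ← Finset.prod_filter_mul_prod_filter_not univ (fun v => v ∈ T)]
  have e1 : (univ.filter fun v => v ∈ T) = T := by ext v; simp
  rw [e1]
  have e2 : ∏ v ∈ univ.filter (fun v => ¬ v ∈ T),
      (if v ∈ (∅ : Finset V) then (if v ∈ T then (0:ℝ) else 1) else
        p * (if v ∈ T then (0:ℝ) else 1) + (1 - p) * 1) = 1 := by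
    refine Finset.prod_eq_one fun v hv => ?_
    simp only [mem_filter, mem_univ, true_and] at hv
    simp [hv]
  rw [e2, mul_one]
  refine Finset.prod_congr rfl fun v hv => ?_
  simp [hv]

end Pool.Agent.V8H38.RM
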