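import Pool.Agent.V8H38.RM.Lift
import Pool.Agent.V8H38.RM.Sprinkle

/-!
# The query lemma for the index gadget
-/

namespace Pool.Agent.V8H38.RM

open Finset Function Pool.Agent.V8H38.NL

variable {V : Type} [Fintype V] [DecidableEq V] {m : ℕ}

/-- the strings that extend to strings of `B` which are constant `b` on `U` -/
def projB (i : V) (U : Finset (Fin m)) (b : Bool) (B : Finset (V → Fin m → Bool)) :
    Finset (V → Fin m → Bool) :=
  univ.filter fun y => ∃ s : Fin m → Bool, (∀ a ∈ U, s a = b) ∧ update y i s ∈ B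

theorem mem_projB {i : V} {U : Finset (Fin m)} {b : Bool} {B : Finset (V → Fin m → Bool)}
    {y : V → Fin m → Bool} :
    y ∈ projB i U b B ↔ ∃ s : Fin m → Bool, (∀ a ∈ U, s a = b) ∧ update y i s ∈ B := by
  simp [projB]

/-- one fibre: a dense set of strings has strings that are constant `b` on a random set -/
theorem fibre {L D : ℕ} (hD : 1 ≤ D) (hL : 3 * D ≤ L) {p : ℝ} (h0 : 0 ≤ p) (h1 : p ≤ 1)
    (hp : (1 - p) ^ L = 1 / 2) (b : Bool) (F : Finset (Fin m → Bool))
    (hF : 2 ^ m ≤ 2 ^ D * F.card) :
    (3:ℝ) / 4 ≤ N p (fun U : Finset (Fin m) =>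
      if (∃ s ∈ F, ∀ a ∈ U, s a = b) then (1:ℝ) else 0) ∅ := by
  classical
  set Q : Finset (Fin m) → Prop := fun U => ∃ s ∈ F, ∀ a ∈ U, s a = b with hQ
  set P := N p (fun U => if Q U then (1:ℝ) else 0) ∅ with hP
  have hP0 : 0 ≤ P := by
    have := NN_nonneg h0 h1 1 (φ := fun U => if Q U then (1:ℝ) else 0)
      (fun y => by split_ifs <;> norm_num) ∅
    rwa [NN_succ, NN_zero] at this
  obtain ⟨k, rfl⟩ : ∃ k, L = k + 1 := ⟨L - 1, by omega⟩
  have h2 := NN_down h0 h1 Q (by
    rintro A B hAB ⟨s, hs, hs2⟩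
    exact ⟨s, hs, fun a ha => hs2 a (hAB ha)⟩) k
  rw [NN_eq, hp] at h2
  have h3 : (1:ℝ) - 1 / 2 = 1 / 2 := by norm_num
  rw [h3, N_half] at h2
  have h4 : (F.card : ℝ) ≤ ∑ Z : Finset (Fin m), if Q Z then (1:ℝ) else 0 := by
    rw [Finset.sum_boole]
    have : F.card ≤ (univ.filter fun Z : Finset (Fin m) => Q Z).card := by
      refine Finset.card_le_card_of_injOn (fun s => univ.filter fun a => s a = b) ?_ ?_
      · intro s hs
        simp only [coe_filter, mem_univ, true_and, Set.mem_ofPred_eq]
        exact ⟨s, hs, fun a ha => by simpa using ha⟩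
      · intro s _ s' _ hss
        funext a
        have h5 : a ∈ (univ.filter fun a => s a = b) ↔ a ∈ (univ.filter fun a => s' a = b) := by
          simp only at hss
          rw [hss]
        simp only [mem_filter, mem_univ, true_and] at h5
        revert h5
        cases s a <;> cases s' a <;> cases b <;> simp
    exact_mod_cast this
  have h5 : (1:ℝ) / 2 ^ D ≤ P ^ (k + 1) := by
    refine le_trans ?_ h2
    rw [Fintype.card_fin]
    rw [div_le_div_iff₀ (by positivity) (by positivity), one_mul]
    have h6 : (2:ℝ) ^ m ≤ 2 ^ D * F.card := by exact_mod_cast hF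
    calc (2:ℝ) ^ m ≤ 2 ^ D * F.card := h6
      _ ≤ 2 ^ D * ∑ Z : Finset (Fin m), (if Q Z then (1:ℝ) else 0) :=
          mul_le_mul_of_nonneg_left h4 (by positivity)
      _ = (∑ Z : Finset (Fin m), if Q Z then (1:ℝ) else 0) * 2 ^ D := by ring
  by_contra hlt
  push Not at hlt
  have h7 : P ^ (k + 1) < 1 / 2 ^ D := by
    calc P ^ (k + 1) ≤ P ^ (3 * D) := by
          refine pow_le_pow_of_le_one hP0 (by linarith) hL
      _ < (3 / 4 : ℝ) ^ (3 * D) := pow_lt_pow_left₀ hlt hP0 (by omega)
      _ = ((3 / 4 : ℝ) ^ 3) ^ D := by rw [pow_mul]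
      _ ≤ (1 / 2 : ℝ) ^ D := pow_le_pow_left₀ (by positivity) (by norm_num) D
      _ = 1 / 2 ^ D := by rw [one_div_pow]
  linarith

theorem sum_fibres (i : V) (B : Finset (V → Fin m → Bool)) :
    ∑ y : V → Fin m → Bool, (univ.filter fun s : Fin m → Bool => update y i s ∈ B).card =
      2 ^ m * B.card := by
  classical
  simp_rw [Finset.card_filter]
  rw [Finset.sum_comm]
  -- for fixed s, the number of y with update y i s ∈ B
  have h : ∀ y' ∈ B, (univ.filter fun z : (V → Fin m → Bool) × (Fin m → Bool) =>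
      update z.1 i z.2 = y').card = 2 ^ m := by
    intro y' _
    have e : (univ.filter fun z : (V → Fin m → Bool) × (Fin m → Bool) =>
        update z.1 i z.2 = y') = univ.image fun t : Fin m → Bool => (update y' i t, y' i) := by
      ext ⟨y, s⟩
      simp only [mem_filter, mem_univ, true_and, mem_image, Prod.mk.injEq]
      constructor
      · intro hh
        refine ⟨y i, ?_, ?_⟩
        · rw [← hh, update_idem, update_eq_self]
        · rw [← hh, update_self]
      · rintro ⟨t, rfl, rfl⟩
        rw [update_idem, update_eq_self]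
    rw [e, Finset.card_image_of_injective _ ?_]
    · simp
    · intro t t' htt
      simp only [Prod.mk.injEq] at htt
      exact update_injective y' i htt.1
  calc ∑ s : Fin m → Bool, ∑ y : V → Fin m → Bool, (if update y i s ∈ B then 1 else 0)
      = (univ.filter fun z : (V → Fin m → Bool) × (Fin m → Bool) => update z.1 i z.2 ∈ B).card := by
        rw [Finset.card_filter, ← Finset.univ_product_univ, Finset.sum_product, Finset.sum_comm]
    _ = ∑ y' ∈ B, (univ.filter fun z : (V → Fin m → Bool) × (Fin m → Bool) =>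
          update z.1 i z.2 = y').card := by
        rw [Finset.card_eq_sum_card_fiberwise (f := fun z => update z.1 i z.2) (t := B)
          (s := univ.filter fun z : (V → Fin m → Bool) × (Fin m → Bool) => update z.1 i z.2 ∈ B)]
        · refine Finset.sum_congr rfl fun y' hy' => ?_
          congr 1
          ext z
          simp only [mem_filter, mem_univ, true_and]
          constructor
          · rintro ⟨_, h2⟩; exact h2
          · intro h2; exact ⟨h2 ▸ hy', h2⟩
        · intro z hz
          simpa using hz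
    _ = ∑ y' ∈ B, 2 ^ m := Finset.sum_congr rfl h
    _ = 2 ^ m * B.card := by rw [Finset.sum_const, smul_eq_mul, mul_comm]

/-- **The query lemma.** -/
theorem query [NeZero m] (i : V) (b : Bool) {n τ d L : ℕ} (hn : Fintype.card V = n)
    (hL : 3 * (3 * d + 1) ≤ L) (hτ : 4 * m ^ n ≤ 2 ^ (τ / L))
    {A : Finset (V → Fin m)} (hA : ∀ x ∈ A, τ ≤ deg A i x)
    {B : Finset (V → Fin m → Bool)}
    (hB : Fintype.card (V → Fin m → Bool) ≤ 8 ^ d * B.card) :
    ∃ U : Finset (Fin m), (∀ x ∈ proj i A, ∃ a ∈ U, update x i a ∈ A) ∧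
      B.card ≤ 4 * (projB i U b B).card := by
  classical
  have hLpos : 0 < L := by omega
  obtain ⟨c, hc0, hc1, hcL⟩ : ∃ c : ℝ, 0 ≤ c ∧ c ≤ 1 ∧ c ^ L = 1 / 2 := by
    refine ⟨(1 / 2 : ℝ) ^ ((1:ℝ) / L), by positivity, ?_, ?_⟩
    · exact Real.rpow_le_one (by norm_num) (by norm_num) (by positivity)
    · rw [← Real.rpow_natCast, ← Real.rpow_mul (by norm_num)]
      rw [one_div_mul_cancel (by positivity), Real.rpow_one]
  set p := 1 - c with hp
  have hp0 : 0 ≤ p := by linarith
  have hp1 : p ≤ 1 := by linarith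
  have hpL : (1 - p) ^ L = 1 / 2 := by rw [hp]; simpa using hcL
  -- heavy strings
  set fib : (V → Fin m → Bool) → Finset (Fin m → Bool) := fun y =>
    univ.filter fun s => update y i s ∈ B with hfib
  set Hv : Finset (V → Fin m → Bool) := univ.filter fun y => 2 ^ m ≤ 2 ^ (3 * d + 1) * (fib y).card
    with hHv
  have hBpos : 0 < B.card := by
    rcases Nat.eq_zero_or_pos B.card with h | h
    · rw [h, mul_zero] at hB
      have : 0 < Fintype.card (V → Fin m → Bool) := Fintype.card_pos
      omega
    · exact h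
  have hHcard : B.card ≤ 2 * Hv.card := by
    have h5 : (2:ℕ) ^ (3 * d + 1) = 2 * 8 ^ d := by
      rw [pow_succ, pow_mul]; ring
    have h1 : ∑ y : V → Fin m → Bool, (fib y).card = 2 ^ m * B.card := sum_fibres i B
    set Lt := (univ : Finset (V → Fin m → Bool)).filter
      (fun y => ¬ 2 ^ m ≤ 2 ^ (3 * d + 1) * (fib y).card) with hLt
    have h1' : ∑ y ∈ Hv, (fib y).card + ∑ y ∈ Lt, (fib y).card = 2 ^ m * B.card := by
      rw [← h1]
      exact Finset.sum_filter_add_sum_filter_not univ _ _
    have h2 : ∑ y ∈ Hv, (fib y).card ≤ Hv.card * 2 ^ m := by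
      refine Finset.sum_le_card_nsmul Hv _ _ fun y _ => ?_
      calc (fib y).card ≤ (univ : Finset (Fin m → Bool)).card :=
            Finset.card_le_card (filter_subset _ _)
        _ = 2 ^ m := by simp
    have h3 : 2 ^ (3 * d + 1) * ∑ y ∈ Lt, (fib y).card ≤
        Fintype.card (V → Fin m → Bool) * 2 ^ m := by
      rw [Finset.mul_sum]
      calc ∑ y ∈ Lt, 2 ^ (3 * d + 1) * (fib y).card
          ≤ Lt.card * 2 ^ m := by
            refine Finset.sum_le_card_nsmul Lt _ _ fun y hy => ?_
            have := (Finset.mem_filter.1 hy).2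
            omega
        _ ≤ Fintype.card (V → Fin m → Bool) * 2 ^ m := by
            refine Nat.mul_le_mul_right _ ?_
            rw [← Finset.card_univ]
            exact Finset.card_le_card (filter_subset _ _)
    have h4 : Fintype.card (V → Fin m → Bool) * 2 ^ m ≤ 8 ^ d * B.card * 2 ^ m :=
      Nat.mul_le_mul_right _ hB
    rw [h5] at h3
    generalize (∑ y ∈ Lt, (fib y).card) = Sl at h1' h3
    generalize (∑ y ∈ Hv, (fib y).card) = Sh at h1' h2
    have h6 : 2 * Sl ≤ B.card * 2 ^ m := by
      have h7 : 8 ^ d * (2 * Sl) ≤ 8 ^ d * (B.card * 2 ^ m) := by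
        calc 8 ^ d * (2 * Sl) = 2 * 8 ^ d * Sl := by ring
          _ ≤ _ := h3
          _ ≤ _ := h4
          _ = _ := by ring
      exact Nat.le_of_mul_le_mul_left h7 (by positivity)
    have h8 : B.card * 2 ^ m ≤ (2 * Hv.card) * 2 ^ m := by
      nlinarith [h1', h2, h6]
    exact Nat.le_of_mul_le_mul_right h8 (by positivity)
  -- bad sets for A
  set badA : Finset (Fin m) → Prop := fun U => ∃ x ∈ proj i A, ∀ a ∈ U, update x i a ∉ A with hbadA
  have hbad : N p (fun U => if badA U then (1:ℝ) else 0) ∅ ≤ 1 / 4 := by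
    calc N p (fun U => if badA U then (1:ℝ) else 0) ∅
        ≤ N p (fun U => ∑ x ∈ proj i A, (1:ℝ) *
            (if Disjoint U (univ.filter fun a => update x i a ∈ A) then (1:ℝ) else 0)) ∅ := by
          refine N_mono hp0 hp1 fun U _ => ?_
          by_cases h : badA U
          · rw [if_pos h]
            obtain ⟨x, hx, hx2⟩ := h
            calc (1:ℝ) = 1 * (if Disjoint U (univ.filter fun a => update x i a ∈ A)
                  then (1:ℝ) else 0) := by
                  rw [if_pos, one_mul]
                  rw [Finset.disjoint_left]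
                  intro a ha ha'
                  exact hx2 a ha (Finset.mem_filter.1 ha').2
              _ ≤ _ := Finset.single_le_sum (f := fun x => (1:ℝ) *
                  (if Disjoint U (univ.filter fun a => update x i a ∈ A) then (1:ℝ) else 0))
                  (fun z _ => by positivity) hx
          · rw [if_neg h]
            exact Finset.sum_nonneg fun z _ => by positivity
      _ = ∑ x ∈ proj i A, (1:ℝ) * (1 - p) ^ (deg A i x) := by
          rw [N_fsum' p (proj i A) (fun _ => 1) (fun x U =>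
            if Disjoint U (univ.filter fun a => update x i a ∈ A) then (1:ℝ) else 0)]
          refine Finset.sum_congr rfl fun x _ => ?_
          rw [N_miss]
          rfl
      _ ≤ ∑ x ∈ proj i A, 1 / (4 * (m:ℝ) ^ n) := by
          refine Finset.sum_le_sum fun x hx => ?_
          rw [one_mul]
          obtain ⟨a, ha⟩ := mem_proj.1 hx
          have h1 := hA _ ha
          have h2 : deg A i (update x i a) = deg A i x := by
            unfold deg
            congr 1
            ext c
            simp [update_idem]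
          rw [h2] at h1
          have h3 : L * (τ / L) ≤ deg A i x := (Nat.mul_div_le τ L).trans h1
          calc (1 - p) ^ (deg A i x) ≤ (1 - p) ^ (L * (τ / L)) :=
                pow_le_pow_of_le_one (by linarith) (by linarith) h3
            _ = (1 / 2 : ℝ) ^ (τ / L) := by rw [pow_mul, hpL]
            _ = 1 / 2 ^ (τ / L) := by rw [one_div_pow]
            _ ≤ 1 / (4 * (m:ℝ) ^ n) := by
                refine one_div_le_one_div_of_le ?_ ?_
                · have : 0 < m := Nat.pos_of_ne_zero (NeZero.ne m)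
                  positivity
                · exact_mod_cast hτ
      _ ≤ 1 / 4 := by
          rw [Finset.sum_const, nsmul_eq_mul]
          have hm : 0 < m := Nat.pos_of_ne_zero (NeZero.ne m)
          have h1 : ((proj i A).card : ℝ) ≤ (m:ℝ) ^ n := by
            have : (proj i A).card ≤ m ^ n := by
              calc (proj i A).card ≤ Fintype.card (V → Fin m) := Finset.card_le_univ _
                _ = m ^ n := by simp [hn]
            exact_mod_cast this
          calc ((proj i A).card : ℝ) * (1 / (4 * (m:ℝ) ^ n)) ≤ (m:ℝ) ^ n * (1 / (4 * (m:ℝ) ^ n)) :=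
                mul_le_mul_of_nonneg_right h1 (by positivity)
            _ = 1 / 4 := by field_simp
  -- survivors
  have hsurv : ∀ y ∈ Hv, (3:ℝ) / 4 ≤ N p (fun U => if (∃ s ∈ fib y, ∀ a ∈ U, s a = b)
      then (1:ℝ) else 0) ∅ := by
    intro y hy
    exact fibre (by omega) hL hp0 hp1 hpL b (fib y) (Finset.mem_filter.1 hy).2
  by_contra hcon
  push Not at hcon
  have hHpos : 0 < Hv.card := by omega
  -- the average of the difference
  have hup : ∀ U : Finset (Fin m), ∑ y ∈ Hv, (1:ℝ) * (if (∃ s ∈ fib y, ∀ a ∈ U, s a = b)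
      then (1:ℝ) else 0) ≤ (Hv.card : ℝ) * (if badA U then (1:ℝ) else 0) + (Hv.card : ℝ) / 2 *
        (1 - (if badA U then (1:ℝ) else 0)) := by
    intro U
    have h0 : ∑ y ∈ Hv, (1:ℝ) * (if (∃ s ∈ fib y, ∀ a ∈ U, s a = b) then (1:ℝ) else 0) =
        ((Hv.filter fun y => ∃ s ∈ fib y, ∀ a ∈ U, s a = b).card : ℝ) := by
      simp only [one_mul]
      rw [Finset.sum_boole]
    rw [h0]
    by_cases hb : badA U
    · rw [if_pos hb, sub_self, mul_zero, mul_one, add_zero]
      exact_mod_cast Finset.card_le_card (Finset.filter_subset _ _)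
    · rw [if_neg hb, mul_zero, sub_zero, mul_one, zero_add]
      have h1 : ∀ x ∈ proj i A, ∃ a ∈ U, update x i a ∈ A := by
        intro x hx
        by_contra hc
        push Not at hc
        exact hb ⟨x, hx, hc⟩
      have h2 := hcon U h1
      have h3 : (Hv.filter fun y => ∃ s ∈ fib y, ∀ a ∈ U, s a = b).card ≤ (projB i U b B).card := by
        refine Finset.card_le_card ?_
        intro y hy
        obtain ⟨_, s, hs, hs2⟩ := Finset.mem_filter.1 hy
        rw [mem_projB]
        exact ⟨s, hs2, (Finset.mem_filter.1 hs).2⟩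
      have h4 : 2 * (Hv.filter fun y => ∃ s ∈ fib y, ∀ a ∈ U, s a = b).card ≤ Hv.card := by
        omega
      have h5 : (2:ℝ) * ((Hv.filter fun y => ∃ s ∈ fib y, ∀ a ∈ U, s a = b).card : ℝ) ≤ Hv.card := by
        exact_mod_cast h4
      linarith
  have hav := N_mono hp0 hp1 (x := (∅ : Finset (Fin m))) fun U _ => hup U
  rw [N_fsum' p Hv (fun _ => 1) (fun y U => if (∃ s ∈ fib y, ∀ a ∈ U, s a = b)
      then (1:ℝ) else 0)] at hav
  have hlow : (Hv.card : ℝ) * (3 / 4) ≤ ∑ y ∈ Hv, (1:ℝ) * N p (fun U =>
      if (∃ s ∈ fib y, ∀ a ∈ U, s a = b) then (1:ℝ) else 0) ∅ := by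
    rw [← nsmul_eq_mul, ← Finset.sum_const]
    refine Finset.sum_le_sum fun y hy => ?_
    rw [one_mul]
    exact hsurv y hy
  have hr : N p (fun U => (Hv.card : ℝ) * (if badA U then (1:ℝ) else 0) + (Hv.card : ℝ) / 2 *
        (1 - (if badA U then (1:ℝ) else 0))) ∅ =
      (Hv.card : ℝ) / 2 + (Hv.card : ℝ) / 2 * N p (fun U => if badA U then (1:ℝ) else 0) ∅ := by
    have e : (fun U : Finset (Fin m) => (Hv.card : ℝ) * (if badA U then (1:ℝ) else 0) +
        (Hv.card : ℝ) / 2 * (1 - (if badA U then (1:ℝ) else 0))) = fun U =>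
        (fun _ => (Hv.card : ℝ) / 2) U + (fun U => (Hv.card : ℝ) / 2 *
          (if badA U then (1:ℝ) else 0)) U := by
      funext U; ring
    rw [e, N_add, N_const, N_smul]
  rw [hr] at hav
  have hHr : (0:ℝ) < Hv.card := by exact_mod_cast hHpos
  nlinarith [hav, hlow, hbad]

end Pool.Agent.V8H38.RM
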